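import Mathlib

/-!
A closed form for an alternating sum of products of binomial coefficients.
-/

set_option autoImplicit false

open Finset PowerSeries

namespace Pool.Agent.Helper90.NF

/-- `1/(1-X^2)^(m+1)`. -/
noncomputable def Kser (m : ℕ) : ℤ⟦X⟧ :=
  PowerSeries.mk fun n => if n % 2 = 0 then ((m + n / 2).choose m : ℤ) else 0

lemma Kser_coeff (m n : ℕ) :
    coeff n (Kser m) = if n % 2 = 0 then ((m + n / 2).choose m : ℤ) else 0 := by
  unfold Kser
  rw [coeff_mk]

lemma coeff_mul_one_sub_sq (f : ℤ⟦X⟧) (n : ℕ) :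
    coeff n (f * (1 - X ^ 2)) = coeff n f - if 2 ≤ n then coeff (n - 2) f else 0 := by
  rw [mul_sub, mul_one, map_sub, coeff_mul_X_pow']

lemma Kser_zero : Kser 0 * (1 - X ^ 2) = 1 := by
  ext n
  rw [coeff_mul_one_sub_sq, Kser_coeff, Kser_coeff, coeff_one]
  rcases n with _ | _ | n
  · simp
  · simp
  · rw [if_pos (show 2 ≤ n + 1 + 1 by omega), if_neg (show ¬ n + 1 + 1 = 0 by omega)]
    have : (n + 1 + 1) % 2 = (n + 1 + 1 - 2) % 2 := by omega
    rw [this]
    simp

lemma Kser_succ (m : ℕ) : Kser (m + 1) * (1 - X ^ 2) = Kser m := by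
  ext n
  rw [coeff_mul_one_sub_sq, Kser_coeff, Kser_coeff, Kser_coeff]
  rcases n with _ | _ | n
  · simp
  · simp
  · rw [if_pos (show 2 ≤ n + 1 + 1 by omega)]
    have h1 : (n + 1 + 1) % 2 = n % 2 := by omega
    have h2 : (n + 1 + 1 - 2) % 2 = n % 2 := by omega
    have h3 : (n + 1 + 1) / 2 = n / 2 + 1 := by omega
    have h4 : (n + 1 + 1 - 2) / 2 = n / 2 := by omega
    rw [h1, h2, h3, h4]
    split_ifs with h
    · have h5 : m + 1 + (n / 2 + 1) = (m + 1 + n / 2) + 1 := by ring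
      have h6 : m + (n / 2 + 1) = m + 1 + n / 2 := by ring
      rw [h5, h6, Nat.choose_succ_succ]
      push_cast
      ring
    · simp

lemma Kser_mul (m : ℕ) : Kser m * (1 - X ^ 2) ^ (m + 1) = 1 := by
  induction m with
  | zero => rw [zero_add, pow_one, Kser_zero]
  | succ m ih =>
    rw [pow_succ', ← mul_assoc, Kser_succ, ih]

/-- `1/(1-X)^(m+1)`. -/
noncomputable def Aser (m : ℕ) : ℤ⟦X⟧ := PowerSeries.mk fun n => ((m + n).choose m : ℤ)

lemma Aser_mul (m : ℕ) : Aser m * (1 - X) ^ (m + 1) = 1 := by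
  have h1 : Aser m = (PowerSeries.mk 1 : ℤ⟦X⟧) ^ (m + 1) := by
    rw [PowerSeries.mk_one_pow_eq_mk_choose_add]
    rfl
  rw [h1, ← mul_pow, PowerSeries.mk_one_mul_one_sub_eq_one, one_pow]

/-- `1/(1+X)^(m+1)`. -/
noncomputable def Bser (m : ℕ) : ℤ⟦X⟧ :=
  PowerSeries.mk fun n => (-1) ^ n * ((m + n).choose m : ℤ)

lemma Bser_mul (m : ℕ) : Bser m * (1 + X) ^ (m + 1) = 1 := by
  have h1 : Bser m = PowerSeries.rescale (-1 : ℤ) (Aser m) := by
    ext n
    rw [coeff_rescale]
    unfold Bser Aser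
    rw [coeff_mk, coeff_mk]
  have h2 : (1 + X : ℤ⟦X⟧) = PowerSeries.rescale (-1 : ℤ) (1 - X) := by
    rw [map_sub, map_one, PowerSeries.rescale_X]
    simp
  rw [h1, h2, ← map_pow, ← map_mul, Aser_mul, map_one]

lemma prod_eq (q : ℕ) : Bser (q + 1) * Aser q = Kser (q + 1) * (1 - X) := by
  have h1 : Bser (q + 1) * Aser q * ((1 + X) ^ (q + 2) * (1 - X) ^ (q + 1)) = 1 := by
    have a := Bser_mul (q + 1)
    have b := Aser_mul q
    calc Bser (q + 1) * Aser q * ((1 + X) ^ (q + 2) * (1 - X) ^ (q + 1))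
        = (Bser (q + 1) * (1 + X) ^ (q + 1 + 1)) * (Aser q * (1 - X) ^ (q + 1)) := by ring
      _ = 1 := by rw [a, b, one_mul]
  have h2 : Kser (q + 1) * (1 - X) * ((1 + X) ^ (q + 2) * (1 - X) ^ (q + 1)) = 1 := by
    have a := Kser_mul (q + 1)
    have e : (1 - X ^ 2 : ℤ⟦X⟧) = (1 - X) * (1 + X) := by ring
    rw [e, mul_pow] at a
    calc Kser (q + 1) * (1 - X) * ((1 + X) ^ (q + 2) * (1 - X) ^ (q + 1))
        = Kser (q + 1) * ((1 - X) ^ (q + 1 + 1) * (1 + X) ^ (q + 1 + 1)) := by ring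
      _ = 1 := a
  exact eq_of_mul_eq_mul_right_of_inv h1 h2
where
  eq_of_mul_eq_mul_right_of_inv {a b c : ℤ⟦X⟧} (h1 : a * c = 1) (h2 : b * c = 1) : a = b := by
    calc a = a * (b * c) := by rw [h2, mul_one]
      _ = b * (a * c) := by ring
      _ = b := by rw [h1, mul_one]

lemma alt_sum (q R : ℕ) :
    ∑ x ∈ antidiagonal R, (-1 : ℤ) ^ x.1 * ((q + 1 + x.1).choose (q + 1) : ℤ) *
      ((q + x.2).choose q : ℤ) = (-1) ^ R * ((q + 1 + R / 2).choose (q + 1) : ℤ) := by
  have h := congrArg (coeff R) (prod_eq q)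
  rw [coeff_mul] at h
  have h1 : ∀ x : ℕ × ℕ, coeff x.1 (Bser (q + 1)) * coeff x.2 (Aser q)
      = (-1 : ℤ) ^ x.1 * ((q + 1 + x.1).choose (q + 1) : ℤ) * ((q + x.2).choose q : ℤ) := by
    intro x
    unfold Bser Aser
    rw [coeff_mk, coeff_mk]
  simp_rw [h1] at h
  rw [h, mul_sub, mul_one, map_sub, Kser_coeff]
  rcases R with _ | R
  · simp
  · rw [coeff_succ_mul_X, Kser_coeff]
    rcases Nat.mod_two_eq_zero_or_one R with h2 | h2
    · have h3 : (R + 1) % 2 ≠ 0 := by omega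
      have h4 : (R + 1) / 2 = R / 2 := by omega
      have h5 : (-1 : ℤ) ^ (R + 1) = -1 := by
        apply Odd.neg_one_pow
        rw [Nat.odd_iff]; omega
      rw [if_neg h3, if_pos h2, h4, h5]
      ring
    · have h3 : (R + 1) % 2 = 0 := by omega
      have h5 : (-1 : ℤ) ^ (R + 1) = 1 := by
        apply Even.neg_one_pow
        rw [Nat.even_iff]; omega
      rw [if_pos h3, if_neg (by omega), h5]
      ring

/-- the alternating sum of products of factorials is a unit modulo `p`. -/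
theorem fact_sum_ne_zero (p : ℕ) [hp : Fact p.Prime] (s R : ℕ) (hR : R ≤ s) (hs : s + 1 < p) :
    ∑ k ∈ range (R + 1), ((R.choose k : ℕ) : ZMod p) * (-1) ^ k *
      (((s + 1 - (R - k)).factorial : ℕ) : ZMod p) * (((s - k).factorial : ℕ) : ZMod p) ≠ 0 := by
  obtain ⟨q, rfl⟩ := Nat.exists_eq_add_of_le' hR
  have h1 : ∀ k ∈ range (R + 1), ((R.choose k : ℕ) : ZMod p) * (-1) ^ k *
      (((q + R + 1 - (R - k)).factorial : ℕ) : ZMod p) * (((q + R - k).factorial : ℕ) : ZMod p)
      = ((R.factorial * (q + 1).factorial * q.factorial : ℕ) : ZMod p) *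
        (((-1 : ℤ) ^ k * ((q + 1 + k).choose (q + 1) : ℤ) * ((q + (R - k)).choose q : ℤ) : ℤ) :
          ZMod p) := by
    intro k hk
    rw [Finset.mem_range] at hk
    have hk' : k ≤ R := by omega
    have e1 : q + R + 1 - (R - k) = q + 1 + k := by omega
    have e2 : q + R - k = q + (R - k) := by omega
    rw [e1, e2]
    have f1 := Nat.choose_mul_factorial_mul_factorial hk'
    have f2 := Nat.choose_mul_factorial_mul_factorial (show q + 1 ≤ q + 1 + k by omega)
    have f3 := Nat.choose_mul_factorial_mul_factorial (show q ≤ q + (R - k) by omega)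
    have e3 : q + 1 + k - (q + 1) = k := by omega
    have e4 : q + (R - k) - q = R - k := by omega
    rw [e3] at f2
    rw [e4] at f3
    rw [← f1, ← f2, ← f3]
    push_cast
    ring
  rw [Finset.sum_congr rfl h1, ← Finset.mul_sum, ← Int.cast_sum]
  have h2 := alt_sum q R
  rw [Finset.Nat.sum_antidiagonal_eq_sum_range_succ_mk] at h2
  rw [h2]
  have hfac : ∀ m, m < p → ((m.factorial : ℕ) : ZMod p) ≠ 0 := by
    intro m hm h
    rw [ZMod.natCast_eq_zero_iff] at h
    have := (hp.out.dvd_factorial).mp h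
    omega
  apply mul_ne_zero
  · push_cast
    exact mul_ne_zero (mul_ne_zero (hfac _ (by omega)) (hfac _ (by omega))) (hfac _ (by omega))
  · push_cast
    apply mul_ne_zero
    · exact pow_ne_zero _ (by simp)
    · intro h
      have f2 := Nat.choose_mul_factorial_mul_factorial (show q + 1 ≤ q + 1 + R / 2 by omega)
      have h3 := hfac (q + 1 + R / 2) (by omega)
      rw [← f2] at h3
      push_cast at h3
      rw [h] at h3
      simp at h3

end Pool.Agent.Helper90.NF
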