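import Pool.Agent.Helper90.NF.Final

/-!
Choice of the rearrangement.
-/

set_option autoImplicit false
set_option linter.unusedSectionVars false
set_option linter.unusedDecidableInType false

open Finset

namespace Pool.Agent.Helper90.NF

variable {p : ℕ} [hp : Fact p.Prime] {β C : Type*} [Fintype β] [DecidableEq β] [Fintype C]
  [DecidableEq C]

/-- if no value is taken more than `p` times, there is an arrangement with many pairs of distinct
values. -/
lemma arrange {s j : ℕ} (hps : p = 2 * s + 1) (hβ : Fintype.card β = s)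
    (hC : Fintype.card C = j) (hj : j ≤ s) (F : I3 β C → ZMod p)
    (hF : ∀ φ : ZMod p, (univ.filter fun i => F i = φ).card ≤ p) :
    ∃ (τ : Equiv.Perm (I3 β C)) (U : Finset β), U.card = j ∧
      ∀ k ∈ U, F (τ (Sum.inl (some k))) ≠ F (τ (Sum.inr (Sum.inl k))) := by
  classical
  have hcard : Fintype.card (I3 β C) = p + j := by
    rw [Fintype.card_sum, Fintype.card_sum, Fintype.card_option, hβ, hC]
    omega
  obtain ⟨e⟩ : Nonempty (I3 β C ≃ Fin (p + j)) := ⟨Fintype.equivFinOfCardEq hcard⟩
  obtain ⟨φβ⟩ : Nonempty (β ≃ Fin s) := ⟨Fintype.equivFinOfCardEq hβ⟩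
  set G : Fin (p + j) → ℕ := fun k => (F (e.symm k)).val with hG
  set π := Tuple.sort G with hπ
  have hmono : Monotone (G ∘ π) := Tuple.monotone_sort G
  have hpj : 0 < p + j := by have := hp.out.pos; omega
  set U : Finset β := univ.filter (fun k => ((φβ k : ℕ)) < j) with hU
  have hUcard : U.card = j := by
    have h1 : U.map φβ.toEmbedding = univ.filter (fun i : Fin s => (i : ℕ) < j) := by
      ext i
      simp only [Finset.mem_map, hU, Finset.mem_filter, Finset.mem_univ, true_and,
        Equiv.coe_toEmbedding]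
      constructor
      · rintro ⟨k, hk, rfl⟩
        exact hk
      · intro hi
        exact ⟨φβ.symm i, by simpa using hi, by simp⟩
    rw [← Finset.card_map φβ.toEmbedding, h1, Fin.card_filter_val_lt]
    omega
  set fN : I3 β C → ℕ := el (fun a => a.elim 0 (fun k => (φβ k : ℕ))) (fun k => p + (φβ k : ℕ))
    (fun _ => 0) with hfN
  set f : I3 β C → Fin (p + j) := fun x => ⟨fN x % (p + j), Nat.mod_lt _ hpj⟩ with hf
  set T : Finset (I3 β C) := U.image (fun k => Sum.inl (some k)) ∪
    U.image (fun k => Sum.inr (Sum.inl k)) with hT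
  have hsp : s < p := by omega
  have fA : ∀ k, ((f (Sum.inl (some k)) : Fin (p + j)) : ℕ) = (φβ k : ℕ) := by
    intro k
    have := (φβ k).isLt
    simp only [hf, hfN, el, Sum.elim_inl, Option.elim_some]
    exact Nat.mod_eq_of_lt (by omega)
  have fB : ∀ k ∈ U, ((f (Sum.inr (Sum.inl k)) : Fin (p + j)) : ℕ) = p + (φβ k : ℕ) := by
    intro k hk
    rw [hU, Finset.mem_filter] at hk
    simp only [hf, hfN, el, Sum.elim_inl, Sum.elim_inr]
    exact Nat.mod_eq_of_lt (by omega)
  have hinj : Set.InjOn f T := by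
    intro x hx y hy hxy
    rw [Finset.mem_coe, hT, Finset.mem_union, Finset.mem_image, Finset.mem_image] at hx hy
    have hv := congrArg Fin.val hxy
    rcases hx with ⟨k, hk, rfl⟩ | ⟨k, hk, rfl⟩ <;> rcases hy with ⟨k', hk', rfl⟩ | ⟨k', hk', rfl⟩
    · rw [fA, fA] at hv
      rw [φβ.injective (Fin.ext hv)]
    · rw [fA, fB k' hk'] at hv
      have := (φβ k).isLt
      omega
    · rw [fA, fB k hk] at hv
      have := (φβ k').isLt
      omega
    · rw [fB k hk, fB k' hk'] at hv
      have h9 : φβ k = φβ k' := Fin.ext (by omega)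
      rw [φβ.injective h9]
  obtain ⟨g, hg⟩ := Finset.exists_equiv_extend_of_card_eq
    (t := (univ : Finset (Fin (p + j)))) (by rw [hcard, Finset.card_univ, Fintype.card_fin])
    (s := T) (f := f) (Finset.subset_univ _) hinj
  set ψ : I3 β C ≃ Fin (p + j) := g.trans (Equiv.subtypeUnivEquiv (fun x => Finset.mem_univ x))
    with hψ
  have hψT : ∀ x ∈ T, ψ x = f x := fun x hx => hg x hx
  refine ⟨ψ.trans (π.trans e.symm), U, hUcard, ?_⟩
  intro k hk heq
  have hkU := hk
  rw [hU, Finset.mem_filter] at hkU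
  have h1 : ψ (Sum.inl (some k)) = f (Sum.inl (some k)) :=
    hψT _ (by rw [hT, Finset.mem_union, Finset.mem_image]; exact Or.inl ⟨k, hk, rfl⟩)
  have h2 : ψ (Sum.inr (Sum.inl k)) = f (Sum.inr (Sum.inl k)) :=
    hψT _ (by
      rw [hT, Finset.mem_union, Finset.mem_image, Finset.mem_image]
      exact Or.inr ⟨k, hk, rfl⟩)
  simp only [Equiv.trans_apply] at heq
  rw [h1, h2] at heq
  set a := f (Sum.inl (some k)) with ha
  set b := f (Sum.inr (Sum.inl k)) with hb
  have hav : (a : ℕ) = (φβ k : ℕ) := fA k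
  have hbv : (b : ℕ) = p + (φβ k : ℕ) := fB k hk
  have hGab : (G ∘ π) a = (G ∘ π) b := congrArg ZMod.val heq
  -- all entries between are equal
  have hall : ∀ m : Fin (p + j), a ≤ m → m ≤ b → F (e.symm (π m)) = F (e.symm (π a)) := by
    intro m h3 h4
    have h5 := hmono h3
    have h6 := hmono h4
    rw [← hGab] at h6
    exact ZMod.val_injective p (le_antisymm h6 h5)
  have hbig : p + 1 ≤ (univ.filter fun i => F i = F (e.symm (π a))).card := by
    rw [← Finset.card_range (p + 1)]
    apply Finset.card_le_card_of_injOn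
      (fun m => e.symm (π ⟨((φβ k : ℕ) + m) % (p + j), Nat.mod_lt _ hpj⟩))
    · intro m hm
      rw [Finset.mem_coe, Finset.mem_range] at hm
      rw [Finset.mem_coe, Finset.mem_filter]
      refine ⟨Finset.mem_univ _, ?_⟩
      apply hall
      · rw [Fin.le_def, hav]
        simp only
        rw [Nat.mod_eq_of_lt (by omega)]
        omega
      · rw [Fin.le_def, hbv]
        simp only
        rw [Nat.mod_eq_of_lt (by omega)]
        omega
    · intro m hm m' hm' hmm
      rw [Finset.mem_coe, Finset.mem_range] at hm hm'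
      have h7 := π.injective (e.symm.injective hmm)
      have h8 := congrArg Fin.val h7
      simp only at h8
      rw [Nat.mod_eq_of_lt (by omega), Nat.mod_eq_of_lt (by omega)] at h8
      omega
  have := hF (F (e.symm (π a)))
  omega

/-- if one value is dominant, there is an arrangement with all other values in the first group. -/
lemma arrange' {s j : ℕ} (hps : p = 2 * s + 1) (hβ : Fintype.card β = s)
    (hC : Fintype.card C = j) (hj : j ≤ s) (F : I3 β C → ZMod p) (φ : ZMod p)
    (hF : p < (univ.filter fun i => F i = φ).card) :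
    ∃ (τ : Equiv.Perm (I3 β C)) (U : Finset β), U.card ≤ j ∧
      (∀ k ∈ U, F (τ (Sum.inl (some k))) ≠ φ) ∧
      (∀ k, k ∉ U → F (τ (Sum.inl (some k))) = φ) ∧ F (τ (Sum.inl none)) = φ ∧
      (∀ k, F (τ (Sum.inr k)) = φ) := by
  classical
  have hcard : Fintype.card (I3 β C) = p + j := by
    rw [Fintype.card_sum, Fintype.card_sum, Fintype.card_option, hβ, hC]
    omega
  have h1 := Finset.card_filter_add_card_filter_not (s := (univ : Finset (I3 β C)))
    (fun i => F i = φ)
  rw [Finset.card_univ, hcard] at h1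
  obtain ⟨U, _, hU⟩ := Finset.exists_subset_card_eq
    (s := (univ : Finset β)) (n := (univ.filter fun i => ¬ F i = φ).card)
    (by rw [Finset.card_univ, hβ]; omega)
  have h2 : cnt (fun i => decide (¬ F i = φ)) = U.card := by
    rw [hU, Finset.card_filter]
    unfold cnt
    refine Finset.sum_congr rfl ?_
    intro i _
    simp only [decide_eq_true_eq]
  have h3 : cnt (el (fun a : Option β => a.elim false (fun k => decide (k ∈ U)))
      (fun _ => false) (fun _ : C => false)) = U.card := by
    rw [cnt_el]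
    unfold cnt
    rw [Fintype.sum_option]
    simp
  obtain ⟨τ, hτ⟩ := perm_of_cnt _ _ (h2.trans h3.symm)
  refine ⟨τ, U, by omega, ?_, ?_, ?_, ?_⟩
  · intro k hk
    have h4 := hτ (Sum.inl (some k))
    simp only [el, Sum.elim_inl, Option.elim_some, hk, decide_true, decide_eq_true_eq] at h4
    exact h4
  · intro k hk
    have h4 := hτ (Sum.inl (some k))
    simp only [el, Sum.elim_inl, Option.elim_some, hk, decide_false, decide_eq_false_iff_not,
      not_not] at h4
    exact h4
  · have h4 := hτ (Sum.inl none)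
    simp only [el, Sum.elim_inl, Option.elim_none, decide_eq_false_iff_not, not_not] at h4
    exact h4
  · intro k
    have h4 := hτ (Sum.inr k)
    rcases k with k | k
    · simp only [el, Sum.elim_inl, Sum.elim_inr, decide_eq_false_iff_not, not_not] at h4
      exact h4
    · simp only [el, Sum.elim_inr, decide_eq_false_iff_not, not_not] at h4
      exact h4

variable (P : (I3 β C → ZMod p) → ZMod p) {s j : ℕ}
  (hps : p = 2 * s + 1) (hβ : Fintype.card β = s) (hC : Fintype.card C = j) (hj : j ≤ s)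
  (hs : 0 < s)
  (P1 : ∀ f, P f = ∑ ε : I3 β C → Bool, if cnt ε = j then P (ind p ε) * mon ε f else 0)
  (P2 : ∀ (σA : Equiv.Perm (Option β)) (σB : Equiv.Perm β) f,
    P (fun i => f (Equiv.sumCongr σA (Equiv.sumCongr σB (Equiv.refl C)) i)) = P f)
  (P3 : ∀ f (a b c : ZMod p), a + b + c = 0 →
    P (fun i => f i + el (fun _ => a) (fun _ => b) (fun _ => c) i) = P f)
  (P4 : P (el (fun _ => 0) (fun _ => 0) (fun _ => 1)) ≠ 0)

open MvPolynomial in
include P1 P3 in
lemma swap_final (H : ℕ → ℕ → (C → Bool) → ZMod p)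
    (hH : ∀ εA εB εC, P (ind p (el εA εB εC)) = H (cnt εA) (cnt εB) εC)
    (F : I3 β C → ZMod p) (hno : ∀ σ : Equiv.Perm (I3 β C), P (fun i => F (σ i)) = 0)
    (φ : ZMod p) (fC : C → ZMod p) (U : Finset β) (τ : Equiv.Perm (I3 β C))
    (hτC : ∀ c, fC c = F (τ (Sum.inr (Sum.inr c))) + 2 * φ)
    (hτU : ∀ k ∈ U, F (τ (Sum.inl (some k))) ≠ F (τ (Sum.inr (Sum.inl k)))) :
    Lam (Hf H j fC) ((X false - X true) ^ #U *
      (1 + X false * MvPolynomial.C (F (τ (Sum.inl none)) - φ)) *
      (∏ k ∈ Uᶜ, (1 + X false * MvPolynomial.C (F (τ (Sum.inl (some k))) - φ))) *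
      ∏ k ∈ Uᶜ, (1 + X true * MvPolynomial.C (F (τ (Sum.inr (Sum.inl k))) - φ))) = 0 := by
  have h := swap_claim (β := β) (Lam (Hf H j fC))
    (fun fA fB => ∃ τ : Equiv.Perm (I3 β C), (∀ a, fA a = F (τ (Sum.inl a)) - φ) ∧
      (∀ b, fB b = F (τ (Sum.inr (Sum.inl b))) - φ) ∧
      (∀ c, fC c = F (τ (Sum.inr (Sum.inr c))) + 2 * φ)) ?_ ?_ U
    (fun a => F (τ (Sum.inl a)) - φ) (fun b => F (τ (Sum.inr (Sum.inl b))) - φ)
    ⟨τ, fun _ => rfl, fun _ => rfl, hτC⟩ (fun k hk h => hτU k hk (by linear_combination h))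
  · exact h
  · rintro fA fB ⟨σ, h1, h2, h3⟩
    rw [← P_eq P P1 H hH, ← hno σ, ← P3 (fun i => F (σ i)) (-φ) (-φ) (2 * φ) (by ring)]
    congr 1
    funext i
    rcases i with a | b | c
    · simp only [el, Sum.elim_inl, h1]; ring
    · simp only [el, Sum.elim_inl, Sum.elim_inr, h2]; ring
    · simp only [el, Sum.elim_inr, h3]
  · rintro fA fB k ⟨σ, h1, h2, h3⟩
    refine ⟨(Equiv.swap (Sum.inl (some k)) (Sum.inr (Sum.inl k))).trans σ, ?_, ?_, ?_⟩
    · intro a
      rw [Equiv.trans_apply]
      by_cases ha : a = some k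
      · subst ha
        rw [Function.update_self, Equiv.swap_apply_left, h2]
      · rw [Function.update_of_ne ha, Equiv.swap_apply_of_ne_of_ne (by simpa using ha) (by simp), h1]
    · intro b
      rw [Equiv.trans_apply]
      by_cases hb : b = k
      · subst hb
        rw [Function.update_self, Equiv.swap_apply_right, h1]
      · rw [Function.update_of_ne hb, Equiv.swap_apply_of_ne_of_ne (by simp) (by simpa using hb), h2]
    · intro c
      rw [Equiv.trans_apply, Equiv.swap_apply_of_ne_of_ne (by simp) (by simp), h3]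

include hps hβ hC hj hs P1 P2 P3 P4 in
theorem final_case (hp5 : 5 ≤ p) (F : I3 β C → ZMod p)
    (hF : (univ.filter fun i => F i = 0).card ≤ p) :
    ∃ σ : Equiv.Perm (I3 β C), P (fun i => F (σ i)) ≠ 0 := by
  classical
  by_contra hno
  push Not at hno
  obtain ⟨H, hH⟩ := exists_H P P2
  by_cases hbig : ∃ φ : ZMod p, p < (univ.filter fun i => F i = φ).card
  · obtain ⟨φ, hφ⟩ := hbig
    have hφ0 : φ ≠ 0 := by
      intro h
      rw [h] at hφ
      omega
    obtain ⟨τ, U, hUj, hU1, hU2, hn, hr⟩ := arrange' hps hβ hC hj F φ hφ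
    have h1 := swap_final P P1 P3 H hH F hno φ (fun _ => 3 * φ) U τ
      (fun c => by rw [hr]; ring) (fun k hk => by rw [hr]; exact hU1 k hk)
    have e1 : ∏ k ∈ Uᶜ, (1 + MvPolynomial.X false * MvPolynomial.C (F (τ (Sum.inl (some k))) - φ) :
        MvPolynomial Bool (ZMod p)) = 1 := by
      apply Finset.prod_eq_one
      intro k hk
      rw [hU2 k (Finset.mem_compl.mp hk)]
      simp
    have e2 : ∏ k ∈ Uᶜ, (1 + MvPolynomial.X true * MvPolynomial.C (F (τ (Sum.inr (Sum.inl k))) - φ) :
        MvPolynomial Bool (ZMod p)) = 1 := by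
      apply Finset.prod_eq_one
      intro k hk
      rw [hr]
      simp
    rw [e1, e2, hn, mul_one, mul_one, sub_self, map_zero, mul_zero, add_zero, mul_one, Lam_pow] at h1
    have h2 : ∀ k ∈ range (#U + 1), (((#U).choose k : ℕ) : ZMod p) * (-1) ^ k *
        Hf H j (fun _ => 3 * φ) (#U - k) k = (3 * φ) ^ (j - #U) *
        ((((#U).choose k : ℕ) : ZMod p) * (-1) ^ k * Hf H j (fun _ => 1) (#U - k) k) := by
      intro k hk
      rw [Finset.mem_range] at hk
      rw [Hf_const]
      have : j - (#U - k + k) = j - #U := by omega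
      rw [this]
      ring
    rw [Finset.sum_congr rfl h2, ← Finset.mul_sum] at h1
    have h3 : (3 : ZMod p) ≠ 0 := by
      intro h
      have h4 : ((3 : ℕ) : ZMod p) = 0 := by exact_mod_cast h
      rw [ZMod.natCast_eq_zero_iff] at h4
      have := Nat.le_of_dvd (by norm_num) h4
      omega
    exact (mul_ne_zero (pow_ne_zero _ (mul_ne_zero h3 hφ0))
      (alt_ne P hps hβ hj hs P1 P3 P4 H hH #U hUj)) h1
  · push Not at hbig
    obtain ⟨τ, U, hUj, hU1⟩ := arrange hps hβ hC hj F hbig
    have h1 := swap_final P P1 P3 H hH F hno 0 (fun c => F (τ (Sum.inr (Sum.inr c)))) U τ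
      (fun c => by ring) hU1
    rw [mul_assoc, mul_assoc, hUj, Lam_high _ _ (fun u w h => Hf_zero H j _ u w h)] at h1
    have h2 : MvPolynomial.constantCoeff ((1 + MvPolynomial.X false *
        MvPolynomial.C (F (τ (Sum.inl none)) - 0)) *
        ((∏ k ∈ Uᶜ, (1 + MvPolynomial.X false * MvPolynomial.C (F (τ (Sum.inl (some k))) - 0))) *
        ∏ k ∈ Uᶜ, (1 + MvPolynomial.X true * MvPolynomial.C (F (τ (Sum.inr (Sum.inl k))) - 0))) :
          MvPolynomial Bool (ZMod p)) = 1 := by
      simp
    rw [h2, one_mul, Lam_pow] at h1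
    have h3 : ∀ k ∈ range (j + 1), ((j.choose k : ℕ) : ZMod p) * (-1) ^ k *
        Hf H j (fun c => F (τ (Sum.inr (Sum.inr c)))) (j - k) k
        = ((j.choose k : ℕ) : ZMod p) * (-1) ^ k * Hf H j (fun _ => 1) (j - k) k := by
      intro k hk
      rw [Finset.mem_range] at hk
      rw [Hf_top H j _ (j - k) k (by omega)]
    rw [Finset.sum_congr rfl h3] at h1
    exact (alt_ne P hps hβ hj hs P1 P3 P4 H hH j le_rfl) h1

end Pool.Agent.Helper90.NF
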