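import Pool.Agent.Helper90.NF.Three
import Pool.Agent.Helper90.NF.Select

/-!
Three classes, few loops.
-/

set_option autoImplicit false
set_option linter.unusedSectionVars false
set_option linter.unusedDecidableInType false

open Finset

namespace Pool.Agent.Helper90.NF

section Defs

variable {β C L : Type*}

/-- all edges. -/
abbrev Io (β C L : Type*) := Option β ⊕ (β ⊕ (C ⊕ L))

/-- slots of the last group. -/
abbrev RS (C L : Type*) := ((C ⊕ L) × Bool) ⊕ Unit

/-- inclusion of the slots of the last group. -/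
def emb : RS C L → ((Io β C L) × Bool) ⊕ Unit
  | Sum.inl (i, b) => Sum.inl (Sum.inr (Sum.inr i), b)
  | Sum.inr u => Sum.inr u

/-- classes of the slots of the last group. -/
def gC (x : Option β ⊕ β) : (Option β ⊕ β) × Fin 3 := (x, if x.isLeft then 2 else 1)

/-- from slots to classes. -/
def fwd (θ : RS C L ≃ Option β ⊕ β) : ((Io β C L) × Bool) ⊕ Unit → (Option β ⊕ β) × Fin 3
  | Sum.inl (Sum.inl a, false) => (Sum.inl a, 0)
  | Sum.inl (Sum.inl a, true) => (Sum.inl a, 1)
  | Sum.inl (Sum.inr (Sum.inl b), true) => (Sum.inr b, 0)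
  | Sum.inl (Sum.inr (Sum.inl b), false) => (Sum.inr b, 2)
  | Sum.inl (Sum.inr (Sum.inr i), b) => gC (θ (Sum.inl (i, b)))
  | Sum.inr u => gC (θ (Sum.inr u))

/-- from classes to slots. -/
def bwd (θ : RS C L ≃ Option β ⊕ β) : (Option β ⊕ β) × Fin 3 → ((Io β C L) × Bool) ⊕ Unit
  | (Sum.inl a, 0) => Sum.inl (Sum.inl a, false)
  | (Sum.inl a, 1) => Sum.inl (Sum.inl a, true)
  | (Sum.inl a, 2) => emb (θ.symm (Sum.inl a))
  | (Sum.inr b, 0) => Sum.inl (Sum.inr (Sum.inl b), true)
  | (Sum.inr b, 1) => emb (θ.symm (Sum.inr b))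
  | (Sum.inr b, 2) => Sum.inl (Sum.inr (Sum.inl b), false)

lemma fwd_emb (θ : RS C L ≃ Option β ⊕ β) (r : RS C L) : fwd θ (emb r) = gC (θ r) := by
  rcases r with ⟨i, b⟩ | u
  · rfl
  · rfl

lemma bwd_gC (θ : RS C L ≃ Option β ⊕ β) (r : RS C L) : bwd θ (gC (θ r)) = emb r := by
  obtain ⟨x, hx⟩ : ∃ x, θ r = x := ⟨_, rfl⟩
  have hr : r = θ.symm x := by rw [← hx, Equiv.symm_apply_apply]
  rw [hx, hr]
  rcases x with a | b
  · rfl
  · rfl

/-- the identification of slots with `(Option β ⊕ β) × Fin 3`. -/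
def S3 (θ : RS C L ≃ Option β ⊕ β) : ((Io β C L) × Bool) ⊕ Unit ≃ (Option β ⊕ β) × Fin 3 where
  toFun := fwd θ
  invFun := bwd θ
  left_inv := by
    rintro (⟨a | b | i, t⟩ | u)
    · cases t <;> rfl
    · cases t <;> rfl
    · exact bwd_gC θ (Sum.inl (i, t))
    · exact bwd_gC θ (Sum.inr u)
  right_inv := by
    rintro ⟨a | b, k⟩
    · fin_cases k
      · rfl
      · rfl
      · change fwd θ (emb (θ.symm (Sum.inl a))) = _
        rw [fwd_emb, Equiv.apply_symm_apply]
        rfl
    · fin_cases k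
      · rfl
      · change fwd θ (emb (θ.symm (Sum.inr b))) = _
        rw [fwd_emb, Equiv.apply_symm_apply]
        rfl
      · rfl

/-- regrouping of the edges. -/
def regroup : Io β C L ≃ I3 β C ⊕ L where
  toFun := fun i => match i with
    | Sum.inl a => Sum.inl (Sum.inl a)
    | Sum.inr (Sum.inl b) => Sum.inl (Sum.inr (Sum.inl b))
    | Sum.inr (Sum.inr (Sum.inl c)) => Sum.inl (Sum.inr (Sum.inr c))
    | Sum.inr (Sum.inr (Sum.inr l)) => Sum.inr l
  invFun := fun i => match i with
    | Sum.inl (Sum.inl a) => Sum.inl a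
    | Sum.inl (Sum.inr (Sum.inl b)) => Sum.inr (Sum.inl b)
    | Sum.inl (Sum.inr (Sum.inr c)) => Sum.inr (Sum.inr (Sum.inl c))
    | Sum.inr l => Sum.inr (Sum.inr (Sum.inr l))
  left_inv := by rintro (a | b | c | l) <;> rfl
  right_inv := by rintro ((a | b | c) | l) <;> rfl

/-- a function on all edges. -/
def comb {X : Type*} (f : I3 β C → X) (g : L → X) : Io β C L → X :=
  fun i => Sum.elim f g (regroup i)

end Defs

section Main

variable {p : ℕ} [hp : Fact p.Prime] {β C L : Type*} [Fintype β] [DecidableEq β] [Fintype C]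
  [DecidableEq C] [Fintype L] [DecidableEq L]

lemma sum_comb {M : Type*} [AddCommMonoid M] (G : (Io β C L → Bool) → M) :
    ∑ ε, G ε = ∑ ε : I3 β C → Bool, ∑ δ : L → Bool, G (comb ε δ) := by
  rw [← Equiv.sum_comp ((Equiv.arrowCongr regroup (Equiv.refl Bool)).trans
    (Equiv.sumArrowEquivProdArrow (I3 β C) L Bool)).symm, Fintype.sum_prod_type]
  rfl

lemma cnt_comb (ε : I3 β C → Bool) (δ : L → Bool) :
    cnt (comb ε δ : Io β C L → Bool) = cnt ε + cnt δ := by
  unfold cnt comb
  rw [Equiv.sum_comp regroup (fun i => if Sum.elim ε δ i then 1 else 0), Fintype.sum_sum_type]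
  rfl

lemma mon_comb {R : Type*} [CommMonoid R] (ε : I3 β C → Bool) (δ : L → Bool)
    (f : I3 β C → R) (g : L → R) :
    mon (comb ε δ : Io β C L → Bool) (comb f g) = mon ε f * mon δ g := by
  unfold mon comb
  rw [Equiv.prod_comp regroup (fun i => if Sum.elim ε δ i then Sum.elim f g i else 1),
    Fintype.prod_sum_type]
  rfl

lemma ind_comb (ε : I3 β C → Bool) (δ : L → Bool) :
    ind p (comb ε δ : Io β C L → Bool) = comb (ind p ε) (ind p δ) := by
  funext i
  rcases i with a | b | c | l <;> rfl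

variable (θ : RS C L ≃ Option β ⊕ β) (e : Option β ⊕ β ≃ Fin p) {s j : ℕ}
  (hps : p = 2 * s + 1) (hs : 0 < s) (hβ : Fintype.card β = s) (hC : Fintype.card C = j)
  (hL : j + Fintype.card L = s)
  (hC1 : ∀ c, (θ (Sum.inl (Sum.inl c, false))).isLeft = false)
  (hC2 : ∀ c, (θ (Sum.inl (Sum.inl c, true))).isLeft = true)
  (hL1 : ∀ l, (θ (Sum.inl (Sum.inr l, true))).isLeft = (θ (Sum.inl (Sum.inr l, false))).isLeft)

/-- classes of the ends. -/
lemma cls_S (r : RS C L) : (S3 θ (emb r)).2 = if (θ r).isLeft then 2 else 1 := by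
  change (fwd θ (emb r)).2 = _
  rw [fwd_emb]
  rfl

include hC1 hC2 hL1 in
lemma hcls : ∀ i, (S3 θ (Sum.inl (i, true))).2 = (S3 θ (Sum.inl (i, false))).2 + 1 ∨
      (S3 θ (Sum.inl (i, true))).2 = (S3 θ (Sum.inl (i, false))).2 := by
  rintro (a | b | c | l)
  · left; rfl
  · left
    change (0 : Fin 3) = 2 + 1
    rfl
  · left
    have h1 := cls_S (β := β) θ (Sum.inl (Sum.inl c, true))
    have h2 := cls_S (β := β) θ (Sum.inl (Sum.inl c, false))
    rw [hC2] at h1
    rw [hC1] at h2
    have h3 : (S3 θ (Sum.inl (Sum.inr (Sum.inr (Sum.inl c)), true))).2 = 2 := h1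
    have h4 : (S3 θ (Sum.inl (Sum.inr (Sum.inr (Sum.inl c)), false))).2 = 1 := h2
    rw [h3, h4]
    rfl
  · right
    have h1 := cls_S (β := β) θ (Sum.inl (Sum.inr l, true))
    have h2 := cls_S (β := β) θ (Sum.inl (Sum.inr l, false))
    rw [hL1, ← h2] at h1
    exact h1

include hL1 in
lemma QQ_loop_zero (f : Io β C L → ZMod p) (l : L) (hl : f (Sum.inr (Sum.inr (Sum.inr l))) = 0) :
    QQ (S3 θ) e f = 0 := by
  by_contra hne
  unfold QQ at hne
  obtain ⟨x, _, hx⟩ := Finset.exists_ne_zero_of_sum_ne_zero hne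
  have hinj := DD_inj (S3 θ) e _ hx
  have h1 := cls_S (β := β) θ (Sum.inl (Sum.inr l, true))
  have h2 := cls_S (β := β) θ (Sum.inl (Sum.inr l, false))
  rw [hL1, ← h2] at h1
  have h3 : (Sum.inl (Sum.inr (Sum.inr (Sum.inr l)), true) : ((Io β C L) × Bool) ⊕ Unit)
      = Sum.inl (Sum.inr (Sum.inr (Sum.inr l)), false) := by
    apply hinj
    refine Prod.ext h1 ?_
    simp [pos, hl]
  simp at h3

include hps hs hL hC1 hC2 hL1 in
theorem P_one (f : I3 β C → ZMod p) (g : L → ZMod p) :
    QQ (S3 θ) e (comb f g) = (∏ l, g l) * ∑ ε : I3 β C → Bool,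
      if cnt ε = j then QQ (S3 θ) e (comb (ind p ε) (fun _ => 1)) * mon ε f else 0 := by
  rw [QQ_multilinear (S3 θ) e hs hps (fun f hf => QQ_vanish (S3 θ) e hps
    (hcls θ hC1 hC2 hL1) f hf), sum_comb, Finset.mul_sum]
  refine Finset.sum_congr rfl ?_
  intro ε _
  rw [Finset.sum_eq_single (fun _ => true)]
  · have h1 : cnt (fun _ : L => true) = Fintype.card L := by
      unfold cnt
      simp
    have h2 : mon (fun _ : L => true) g = ∏ l, g l := by
      unfold mon
      simp
    have h3 : ind p (fun _ : L => true) = fun _ => 1 := by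
      unfold ind
      simp
    rw [cnt_comb, mon_comb, ind_comb, h1, h2, h3]
    by_cases h4 : cnt ε = j
    · rw [if_pos (by omega), if_pos h4]
      ring
    · rw [if_neg (by omega), if_neg h4, mul_zero]
  · intro δ _ hδ
    have : ∃ l, δ l = false := by
      by_contra hno
      push Not at hno
      apply hδ
      funext l
      simpa using hno l
    obtain ⟨l, hl⟩ := this
    rw [QQ_loop_zero θ e hL1 _ l, zero_mul, ite_self]
    change (if δ l = true then (1 : ZMod p) else 0) = 0
    rw [hl]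
    simp
  · intro h
    exact absurd (Finset.mem_univ _) h

theorem P_two (σA : Equiv.Perm (Option β)) (σB : Equiv.Perm β) (f : I3 β C → ZMod p)
    (g : L → ZMod p) :
    QQ (S3 θ) e (comb (fun i => f (Equiv.sumCongr σA (Equiv.sumCongr σB (Equiv.refl C)) i)) g)
      = QQ (S3 θ) e (comb f g) := by
  rw [← QQ_perm (S3 θ) e (comb f g)
    (Equiv.sumCongr σA (Equiv.sumCongr σB (Equiv.refl (C ⊕ L)))) ?_]
  · congr 1
    funext i
    rcases i with a | b | c | l <;> rfl
  · rintro (a | b | i) t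
    · cases t <;> rfl
    · cases t <;> rfl
    · rfl

include hC1 hC2 hL1 in
theorem P_three (f : I3 β C → ZMod p) (g : L → ZMod p) (a b c : ZMod p) (habc : a + b + c = 0) :
    QQ (S3 θ) e (comb (fun i => f i + el (fun _ => a) (fun _ => b) (fun _ => c) i) g)
      = QQ (S3 θ) e (comb f g) := by
  -- the class of the special point
  set τ0 : ZMod p := if (θ (Sum.inr ())).isLeft then -b else a with hτ0
  have hsp : (S3 θ (Sum.inr () : ((Io β C L) × Bool) ⊕ Unit)).2
      = if (θ (Sum.inr ())).isLeft then 2 else 1 := cls_S (β := β) θ (Sum.inr ())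
  rw [← QQ_gauge (S3 θ) e (comb f g) (fun k => (![0, a, -b] : Fin 3 → ZMod p) k - τ0) ?_]
  · congr 1
    funext i
    rcases i with x | x | x | l
    · change f (Sum.inl x) + a = f (Sum.inl x) + (a - τ0) - (0 - τ0)
      ring
    · change f (Sum.inr (Sum.inl x)) + b = f (Sum.inr (Sum.inl x)) + (0 - τ0) - (-b - τ0)
      ring
    · have h1 := cls_S (β := β) θ (Sum.inl (Sum.inl x, true))
      have h2 := cls_S (β := β) θ (Sum.inl (Sum.inl x, false))
      rw [hC2] at h1
      rw [hC1] at h2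
      have h3 : (S3 θ (Sum.inl (Sum.inr (Sum.inr (Sum.inl x)), true))).2 = 2 := h1
      have h4 : (S3 θ (Sum.inl (Sum.inr (Sum.inr (Sum.inl x)), false))).2 = 1 := h2
      rw [h3, h4]
      change f (Sum.inr (Sum.inr x)) + c = f (Sum.inr (Sum.inr x)) + (-b - τ0) - (a - τ0)
      linear_combination habc
    · have h1 := cls_S (β := β) θ (Sum.inl (Sum.inr l, true))
      have h2 := cls_S (β := β) θ (Sum.inl (Sum.inr l, false))
      rw [hL1, ← h2] at h1
      have h3 : (S3 θ (Sum.inl (Sum.inr (Sum.inr (Sum.inr l)), true))).2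
        = (S3 θ (Sum.inl (Sum.inr (Sum.inr (Sum.inr l)), false))).2 := h1
      rw [h3, add_sub_assoc, sub_self, add_zero]
      rfl
  · rw [hsp, hτ0]
    split_ifs
    · change (-b : ZMod p) - -b = 0
      ring
    · change (a : ZMod p) - a = 0
      ring

theorem elim_three (fS : C ⊕ L → ZMod p) :
    QQ (S3 θ) e (Sum.elim (fun _ => 0) (Sum.elim (fun _ => 0) fS))
      = ((Fintype.card (Option β)).factorial : ZMod p) * ((Fintype.card β).factorial : ZMod p) *
        del2 e * Q1 (θ.trans e) fS := by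
  unfold QQ Q1
  have hD : ∀ (xA : Option β → ZMod p) (xB : β → ZMod p) (xS : C ⊕ L → ZMod p),
      DD (S3 θ) e (pos (Sum.elim xA (Sum.elim xB xS)) (fun _ => 0)
        (Sum.elim (fun _ => 0) (Sum.elim (fun _ => 0) fS)))
      = vd e (Sum.elim xA xB) *
        vd e (Sum.elim xA (fun b => pos xS (fun (_ : Unit) => 0) fS (θ.symm (Sum.inr b)))) *
        vd e (Sum.elim (fun a => pos xS (fun (_ : Unit) => 0) fS (θ.symm (Sum.inl a))) xB) := by
    intro xA xB xS
    unfold DD
    rw [Fin.prod_univ_three]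
    have hemb : ∀ r : RS C L, pos (Sum.elim xA (Sum.elim xB xS)) (fun (_ : Unit) => 0)
        (Sum.elim (fun _ => 0) (Sum.elim (fun _ => 0) fS)) (emb r)
        = pos xS (fun (_ : Unit) => 0) fS r := by
      rintro (⟨i, b⟩ | u)
      · cases b <;> rfl
      · rfl
    congr 1
    · congr 1
      · congr 1
        funext x
        rcases x with a | b
        · rfl
        · change xB b + 0 = xB b
          rw [add_zero]
      · congr 1
        funext x
        rcases x with a | b
        · change xA a + 0 = xA a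
          rw [add_zero]
        · exact hemb _
    · congr 1
      funext x
      rcases x with a | b
      · exact hemb _
      · rfl
  rw [← Equiv.sum_comp (Equiv.sumArrowEquivProdArrow (Option β) (β ⊕ (C ⊕ L)) (ZMod p)).symm,
    Fintype.sum_prod_type]
  have h1 : ∀ xA : Option β → ZMod p, ∑ y : β ⊕ (C ⊕ L) → ZMod p,
      DD (S3 θ) e (pos ((Equiv.sumArrowEquivProdArrow (Option β) (β ⊕ (C ⊕ L)) (ZMod p)).symm
        (xA, y)) (fun _ => 0) (Sum.elim (fun _ => 0) (Sum.elim (fun _ => 0) fS)))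
      = ∑ xS : C ⊕ L → ZMod p, ∑ xB : β → ZMod p, vd e (Sum.elim xA xB) *
        vd e (Sum.elim xA (fun b => pos xS (fun (_ : Unit) => 0) fS (θ.symm (Sum.inr b)))) *
        vd e (Sum.elim (fun a => pos xS (fun (_ : Unit) => 0) fS (θ.symm (Sum.inl a))) xB) := by
    intro xA
    rw [← Equiv.sum_comp (Equiv.sumArrowEquivProdArrow β (C ⊕ L) (ZMod p)).symm,
      Fintype.sum_prod_type_right]
    refine Finset.sum_congr rfl ?_
    intro xS _
    refine Finset.sum_congr rfl ?_
    intro xB _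
    exact hD xA xB xS
  simp_rw [h1]
  rw [Finset.sum_comm, Finset.mul_sum]
  refine Finset.sum_congr rfl ?_
  intro xS _
  rw [elimination]
  congr 1
  unfold vd
  congr 2
  funext k
  have h2 : pos xS (fun (_ : Unit) => 0) fS ((θ.trans e).symm k)
      = pos xS (fun (_ : Unit) => 0) fS (θ.symm (e.symm k)) := rfl
  rw [h2]
  rcases e.symm k with a | b <;> rfl

include hps in
theorem P_four : QQ (S3 θ) e (comb (el (fun _ => 0) (fun _ => 0) (fun _ => 1)) (fun _ => 1)) ≠ 0 := by
  have h1 : (comb (el (fun _ => 0) (fun _ => 0) (fun _ => 1)) (fun _ => 1) : Io β C L → ZMod p)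
      = Sum.elim (fun _ => 0) (Sum.elim (fun _ => 0) (fun _ => 1)) := by
    funext i
    rcases i with a | b | c | l <;> rfl
  rw [h1, elim_three]
  have hcard : Fintype.card (Option β) + Fintype.card β = p := by
    rw [← Fintype.card_sum, Fintype.card_congr e, Fintype.card_fin]
  have hpos : 0 < Fintype.card (Option β) := Fintype.card_pos
  have hfac : ∀ m, m < p → ((m.factorial : ℕ) : ZMod p) ≠ 0 := by
    intro m hm h
    rw [ZMod.natCast_eq_zero_iff] at h
    have := (hp.out.dvd_factorial).mp h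
    omega
  have hoc : Fintype.card (Option β) = Fintype.card β + 1 := Fintype.card_option
  have h2 := hp.out.two_le
  exact mul_ne_zero (mul_ne_zero (mul_ne_zero (hfac _ (by omega)) (hfac _ (by omega)))
    (del2_ne_zero e)) (Q1_one_ne_zero _ hps)

include e hps hs hβ hC hL hC1 hC2 hL1 in
/-- few loops: some rearrangement of the non-loops can be placed. -/
theorem case_one (hp5 : 5 ≤ p) (F : I3 β C → ZMod p) (g : L → ZMod p) (hg : ∀ l, g l ≠ 0)
    (hF : (univ.filter fun i => F i = 0).card ≤ p) :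
    ∃ (σ : Equiv.Perm (I3 β C)) (x : Io β C L → ZMod p),
      Function.Injective (fun r => ((S3 θ r).2,
        pos x (fun _ => 0) (comb (fun i => F (σ i)) g) r)) := by
  obtain ⟨σ, hσ⟩ := final_case (fun f => QQ (S3 θ) e (comb f (fun _ => 1))) hps hβ hC (by omega) hs
    (fun f => by
      have := P_one θ e hps hs hL hC1 hC2 hL1 f (fun _ => 1)
      simpa using this)
    (fun σA σB f => P_two θ e σA σB f _)
    (fun f a b c habc => P_three θ e hC1 hC2 hL1 f _ a b c habc)
    (P_four θ e hps) hp5 F hF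
  have h1 : QQ (S3 θ) e (comb (fun i => F (σ i)) g) ≠ 0 := by
    rw [P_one θ e hps hs hL hC1 hC2 hL1]
    have h2 := P_one θ e hps hs hL hC1 hC2 hL1 (fun i => F (σ i)) (fun _ => 1)
    simp only [Finset.prod_const_one, one_mul] at h2
    rw [← h2]
    exact mul_ne_zero (Finset.prod_ne_zero_iff.mpr (fun l _ => hg l)) hσ
  unfold QQ at h1
  obtain ⟨x, _, hx⟩ := Finset.exists_ne_zero_of_sum_ne_zero h1
  exact ⟨σ, x, DD_inj (S3 θ) e _ hx⟩

end Main

end Pool.Agent.Helper90.NF
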