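import Pool.Agent.Helper90.NF.Nodes

/-!
Two classes with `q` loops, one pendant point and one special point.
-/

set_option autoImplicit false
set_option linter.unusedSectionVars false
set_option linter.unusedDecidableInType false

open Finset Equiv

namespace Pool.Agent.Helper90.NF

variable {p : ℕ} [hp : Fact p.Prime] {s q : ℕ}

/-- the slots. -/
abbrev R2 (p : ℕ) := (Fin (p - 1) × Bool) ⊕ Bool

/-- the matrix of powers, class by class. -/
def W2 (p q : ℕ) (u : R2 p → ZMod p) : Matrix (R2 p) (R2 p) (ZMod p) :=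
  fun r r' => if cl p q r = cl p q r' then u r ^ xp p q r' else 0

/-- coefficients of the expansion. -/
def cT (p q : ℕ) (τ : Perm (R2 p)) : ZMod p :=
  ((Perm.sign τ : ℤ) : ZMod p) * (if ∀ r, cl p q (τ r) = cl p q r then 1 else 0)

/-- exponents of the expansion. -/
def kT (p q : ℕ) (τ : Perm (R2 p)) (r : R2 p) : ℕ := xp p q (τ r)

lemma det_W2 (u : R2 p → ZMod p) :
    (W2 p q u).det = ∑ τ : Perm (R2 p), cT p q τ * ∏ r, u r ^ kT p q τ r := by
  rw [← Matrix.det_transpose, Matrix.det_apply']
  refine Finset.sum_congr rfl ?_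
  intro τ _
  unfold cT
  rw [mul_assoc]
  congr 1
  simp only [Matrix.transpose_apply, W2]
  by_cases h : ∀ r, cl p q (τ r) = cl p q r
  · rw [if_pos h, one_mul]
    refine Finset.prod_congr rfl ?_
    intro r _
    rw [if_pos (h r).symm]
    rfl
  · rw [if_neg h, zero_mul]
    push Not at h
    obtain ⟨r, hr⟩ := h
    apply Finset.prod_eq_zero (Finset.mem_univ r)
    rw [if_neg (fun h' => hr h'.symm)]

lemma W2_inj (u : R2 p → ZMod p) (h : (W2 p q u).det ≠ 0) :
    Function.Injective (fun r => (cl p q r, u r)) := by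
  intro r r' hrr
  by_contra hne
  apply h
  apply Matrix.det_zero_of_row_eq hne
  have h1 := (Prod.ext_iff.mp hrr).1
  have h2 := (Prod.ext_iff.mp hrr).2
  simp only at h1 h2
  funext c
  simp only [W2, h1, h2]

/-- weights of the free points. -/
def nu (p q : ℕ) (w : Bool) (y : ZMod p) : ZMod p :=
  if w then (if y = 0 then 1 else 0) else y ^ q

/-- moments of the free points. -/
def uT (p : ℕ) (w : Bool) : ZMod p := if w then 1 else -1

lemma hnu (hq : q < p - 1) (w : Bool) (m : ℕ) (hm : m < p) :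
    ∑ y : ZMod p, nu p q w y * y ^ m
      = if m = (fun w => xp p q (Sum.inr w)) w then uT p w else 0 := by
  cases w
  · simp only [nu, uT, xp, Bool.false_eq_true, if_false]
    simp_rw [← pow_add]
    rw [sum_pow_eq _ (by omega)]
    by_cases h : m = p - 1 - q
    · rw [if_pos h, if_pos (by omega)]
    · rw [if_neg h, if_neg (by omega)]
  · simp only [nu, uT, xp, if_true]
    simp only [ite_mul, one_mul, zero_mul]
    rw [Finset.sum_ite_eq' univ (0 : ZMod p) (fun y => y ^ m), if_pos (Finset.mem_univ _)]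
    split_ifs with h
    · rw [h, pow_zero]
    · rw [zero_pow h]

/-- `1` for the loops, `0` for the others. -/
def m1 (p q : ℕ) (i : Fin (p - 1)) : ℕ := if (i : ℕ) + 1 ≤ q then 1 else 0

lemma sum_m1 (hq : q < p - 1) : ∑ i, m1 p q i = q := by
  unfold m1
  rw [← Finset.card_filter]
  have h1 : (univ.filter fun i : Fin (p - 1) => (i : ℕ) + 1 ≤ q)
      = univ.filter fun i : Fin (p - 1) => (i : ℕ) < q := by
    apply Finset.filter_congr
    intro i _
    omega
  rw [h1, Fin.card_filter_val_lt]
  omega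

include hp in
lemma sum_xp (hps : p = 2 * s + 1) (hq : q < p - 1) :
    ∑ r, xp p q r = ∑ w, xp p q (Sum.inr w) + (Fintype.card (Fin (p - 1)) * (p - 1) + q) := by
  rw [Fintype.sum_sum_type, Fintype.sum_prod_type]
  have h1 : ∀ i : Fin (p - 1), ∑ b : Bool, xp p q (Sum.inl (i, b)) = (p - 1) + m1 p q i := by
    intro i
    have := i.isLt
    rw [Fintype.sum_bool]
    simp only [xp, m1]
    split_ifs <;> omega
  simp_rw [h1]
  rw [Finset.sum_add_distrib, sum_m1 hq, Finset.sum_const, Finset.card_univ, smul_eq_mul]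
  ring

lemma hNT (hps : p = 2 * s + 1) (hq : q < p - 1) (τ : Perm (R2 p)) (_ : cT p q τ ≠ 0) :
    ∑ r, kT p q τ r = ∑ w, (fun w => xp p q (Sum.inr w)) w
      + (Fintype.card (Fin (p - 1)) * (p - 1) + q) := by
  unfold kT
  rw [Equiv.sum_comp τ (fun r => xp p q r)]
  exact sum_xp hps hq

/-- the loops as a monomial. -/
noncomputable def M1 (p q : ℕ) : Fin (p - 1) →₀ ℕ := Finsupp.equivFunOnFinite.symm (m1 p q)

/-- the coefficient to be computed. -/
noncomputable def gT (p q : ℕ) [Fact p.Prime] (τ : Perm (R2 p)) : ZMod p :=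
  if ex p (kT p q) τ = M1 p q then
    cf (fun w => xp p q (Sum.inr w)) (uT p) (cT p q) (kT p q) τ else 0

/-- the polynomial. -/
noncomputable def PT (p q : ℕ) [Fact p.Prime] : MvPolynomial (Fin (p - 1)) (ZMod p) :=
  Pol (fun w => xp p q (Sum.inr w)) (uT p) (cT p q) (kT p q)

lemma coeff_PT : MvPolynomial.coeff (M1 p q) (PT p q) = ∑ τ, gT p q τ := by
  unfold PT Pol gT
  rw [MvPolynomial.coeff_sum]
  refine Finset.sum_congr rfl ?_
  intro τ _
  rw [MvPolynomial.coeff_monomial]

lemma gT_range (hps : p = 2 * s + 1) (hq : q < p - 1) (τ : Perm (R2 p)) (h : gT p q τ ≠ 0) :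
    ∃ x, Psi x = τ := by
  unfold gT at h
  split_ifs at h with h1
  · have h2 := cf_ne_zero (hNT hps hq) h
    obtain ⟨h3, h4, h5, h6⟩ := h2
    have hcl : ∀ r, cl p q (τ r) = cl p q r := by
      unfold cT at h3
      have := right_ne_zero_of_mul h3
      by_contra hno
      exact this (if_neg hno)
    have hex : ∀ i : Fin (p - 1), xp p q (τ (Sum.inl (i, false))) + xp p q (τ (Sum.inl (i, true)))
        = (p - 1) + m1 p q i := by
      intro i
      have h7 := DFunLike.congr_fun h1 i
      rw [ex_apply] at h7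
      have h8 : M1 p q i = m1 p q i := rfl
      rw [h8] at h7
      have h9 := h5 i
      unfold kT at h7 h9
      omega
    apply mem_range_Psi hps hq τ hcl h4
    · intro i hi
      have := hex i
      simp only [m1, if_pos hi] at this
      omega
    · intro i hi
      have := hex i
      simp only [m1, if_neg hi] at this
      omega
  · exact absurd rfl h

/-- local factors. -/
def phiT (p q : ℕ) (i i' : Fin (p - 1)) (b : Bool) : ZMod p :=
  if cl p q (Sum.inl (i', b)) = cl p q (Sum.inl (i, false)) ∧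
    cl p q (Sum.inl (i', !b)) = cl p q (Sum.inl (i, true)) ∧
    xp p q (Sum.inl (i', b)) + xp p q (Sum.inl (i', !b)) - (p - 1) = m1 p q i then
    (if b then -1 else 1) * mu p (xp p q (Sum.inl (i', b))) (xp p q (Sum.inl (i', !b))) else 0

lemma gT_Psi (x : Perm (Fin (p - 1)) × (Fin (p - 1) → Bool)) :
    gT p q (Psi x) = - ∏ i, phiT p q i (x.1 i) (x.2 i) := by
  have hf : ∀ i, Psi x (Sum.inl (i, false)) = Sum.inl (x.1 i, x.2 i) := by
    intro i
    simp only [Psi, Equiv.sumCongr_apply, Sum.map_inl, Phi_apply, Bool.false_xor]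
  have ht : ∀ i, Psi x (Sum.inl (i, true)) = Sum.inl (x.1 i, !x.2 i) := by
    intro i
    simp only [Psi, Equiv.sumCongr_apply, Sum.map_inl, Phi_apply, Bool.true_xor]
  have hr : ∀ w, Psi x (Sum.inr w) = Sum.inr w := fun w => rfl
  unfold phiT
  rw [Finset.prod_ite_zero]
  have hcond : (∀ i ∈ (univ : Finset (Fin (p - 1))),
      cl p q (Sum.inl (x.1 i, x.2 i)) = cl p q (Sum.inl (i, false)) ∧
      cl p q (Sum.inl (x.1 i, !x.2 i)) = cl p q (Sum.inl (i, true)) ∧
      xp p q (Sum.inl (x.1 i, x.2 i)) + xp p q (Sum.inl (x.1 i, !x.2 i)) - (p - 1) = m1 p q i) ↔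
      (ex p (kT p q) (Psi x) = M1 p q ∧ ∀ r, cl p q (Psi x r) = cl p q r) := by
    constructor
    · intro h
      constructor
      · ext i
        rw [ex_apply]
        unfold kT
        rw [hf, ht]
        exact (h i (Finset.mem_univ _)).2.2
      · rintro (⟨i, b⟩ | w)
        · cases b
          · rw [hf]; exact (h i (Finset.mem_univ _)).1
          · rw [ht]; exact (h i (Finset.mem_univ _)).2.1
        · rw [hr]
    · rintro ⟨h1, h2⟩ i _
      have h3 := DFunLike.congr_fun h1 i
      rw [ex_apply] at h3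
      unfold kT at h3
      rw [hf, ht] at h3
      have h4 := h2 (Sum.inl (i, false))
      have h5 := h2 (Sum.inl (i, true))
      rw [hf] at h4
      rw [ht] at h5
      exact ⟨h4, h5, h3⟩
  unfold gT cf cT
  have hsign : ((Perm.sign (Psi x) : ℤ) : ZMod p) = ∏ i, (if x.2 i then (-1 : ZMod p) else 1) := by
    unfold Psi
    have h1 : Perm.sign (Equiv.sumCongr (Phi x) (Equiv.refl Bool))
        = Perm.sign (Phi x) * Perm.sign (Equiv.refl Bool) := Perm.sign_sumCongr _ _
    have h2 : Perm.sign (Equiv.refl Bool) = 1 := Perm.sign_refl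
    rw [h1, h2, mul_one, sign_Phi]
    push_cast
    refine Finset.prod_congr rfl ?_
    intro i _
    split_ifs <;> simp
  have hw : (∏ w : Bool, if kT p q (Psi x) (Sum.inr w) = (fun w => xp p q (Sum.inr w)) w
      then uT p w else 0) = -1 := by
    rw [Fintype.prod_bool]
    unfold kT
    rw [hr, hr, if_pos rfl, if_pos rfl]
    simp [uT]
  have hmu : (∏ i, mu p (kT p q (Psi x) (Sum.inl (i, false))) (kT p q (Psi x) (Sum.inl (i, true))))
      = ∏ i, mu p (xp p q (Sum.inl (x.1 i, x.2 i))) (xp p q (Sum.inl (x.1 i, !x.2 i))) := by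
    refine Finset.prod_congr rfl ?_
    intro i _
    unfold kT
    rw [hf, ht]
  rw [hw, hmu, hsign]
  by_cases hc : (ex p (kT p q) (Psi x) = M1 p q ∧ ∀ r, cl p q (Psi x r) = cl p q r)
  · rw [if_pos hc.1, if_pos hc.2, if_pos (hcond.mpr hc), Finset.prod_mul_distrib]
    ring
  · rw [if_neg (fun h => hc (hcond.mp h)), neg_zero]
    by_cases h1 : ex p (kT p q) (Psi x) = M1 p q
    · rw [if_pos h1, if_neg (fun h2 => hc ⟨h1, h2⟩)]
      ring
    · rw [if_neg h1]

/-- the type of an edge. -/
def tyT (p q : ℕ) (i : Fin (p - 1)) : ℕ := if (i : ℕ) + 1 ≤ q then (i : ℕ) % 2 else 2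

/-- the local weights. -/
def wT (p q : ℕ) (i : Fin (p - 1)) : ZMod p :=
  if (i : ℕ) + 1 ≤ q then 2 * (((i : ℕ) + 1 : ℕ) : ZMod p) else -1

lemma mu_L (k k' : ℕ) (h : k + k' = p) (hk : 0 < k') : mu p k k' = -((k' : ℕ) : ZMod p) := by
  unfold mu
  rw [if_pos (by omega)]
  have h1 : p - 1 - k = k' - 1 := by omega
  rw [h1]
  obtain ⟨m, rfl⟩ : ∃ m, k' = m + 1 := ⟨k' - 1, by omega⟩
  rw [Nat.add_sub_cancel, Nat.choose_succ_self_right]

lemma mu_E (k k' : ℕ) (h : k + k' = p - 1) : mu p k k' = -1 := by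
  unfold mu
  rw [if_pos (by omega)]
  have h1 : p - 1 - k = k' := by omega
  rw [h1, Nat.choose_self, Nat.cast_one]

lemma sum_phiT (hps : p = 2 * s + 1) (hq : q < p - 1) (i i' : Fin (p - 1)) :
    ∑ b, phiT p q i i' b = if tyT p q i = tyT p q i' then wT p q i' else 0 := by
  have hi := i.isLt
  have hi' := i'.isLt
  rw [Fintype.sum_bool]
  unfold phiT
  by_cases h1 : (i : ℕ) + 1 ≤ q <;> by_cases h2 : (i' : ℕ) + 1 ≤ q
  · simp only [cl, xp, m1, tyT, wT, if_pos h1, if_pos h2, Bool.not_true, Bool.not_false, if_true,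
      Bool.false_eq_true, if_false]
    by_cases h3 : (i : ℕ) % 2 = (i' : ℕ) % 2
    · rw [if_pos ⟨h3.symm, h3.symm, by omega⟩, if_pos ⟨h3.symm, h3.symm, by omega⟩, if_pos h3,
        mu_L _ _ (by omega) (by omega), mu_L _ _ (by omega) (by omega)]
      have h4 : ((p - ((i' : ℕ) + 1) : ℕ) : ZMod p) = -(((i' : ℕ) + 1 : ℕ) : ZMod p) := by
        rw [Nat.cast_sub (by omega), ZMod.natCast_self, zero_sub]
      rw [h4]
      ring
    · rw [if_neg (fun h => h3 h.1.symm), if_neg (fun h => h3 h.1.symm), if_neg h3, add_zero]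
  · simp only [cl, m1, tyT, wT, if_pos h1, if_neg h2, Bool.not_true, Bool.not_false, if_true,
      Bool.false_eq_true, if_false]
    rw [if_neg (by omega), if_neg (by omega), if_neg (by omega), add_zero]
  · simp only [cl, m1, tyT, wT, if_neg h1, if_pos h2, Bool.not_true, Bool.not_false, if_true,
      Bool.false_eq_true, if_false]
    rw [if_neg (by omega), if_neg (by omega), if_neg (by omega), add_zero]
  · simp only [cl, xp, m1, tyT, wT, if_neg h1, if_neg h2, Bool.not_true, Bool.not_false, if_true,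
      Bool.false_eq_true, if_false]
    rw [if_neg (by omega), zero_add, if_pos ⟨by trivial, by trivial, by split_ifs <;> omega⟩, one_mul]
    rw [mu_E _ _ (by split_ifs <;> omega)]

/-- type preserving permutations. -/
def GT (p q : ℕ) : Subgroup (Perm (Fin (p - 1))) where
  carrier := {σ | ∀ i, tyT p q (σ i) = tyT p q i}
  mul_mem' := by
    intro a b ha hb i
    rw [Perm.mul_apply, ha, hb]
  one_mem' := by
    intro i
    rfl
  inv_mem' := by
    intro a ha i
    have h : tyT p q (a (a.symm i)) = tyT p q (a.symm i) := ha (a.symm i)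
    rw [Equiv.apply_symm_apply] at h
    exact h.symm

lemma card_GT : (((univ.filter fun σ : Perm (Fin (p - 1)) =>
    ∀ i, tyT p q i = tyT p q (σ i)).card : ℕ) : ZMod p) ≠ 0 := by
  intro h
  rw [ZMod.natCast_eq_zero_iff] at h
  have h1 : (univ.filter fun σ : Perm (Fin (p - 1)) => ∀ i, tyT p q i = tyT p q (σ i)).card
      = Nat.card (GT p q) := by
    rw [← Fintype.card_subtype, ← Nat.card_eq_fintype_card]
    apply Nat.card_congr
    exact Equiv.subtypeEquivRight (fun σ => by
      constructor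
      · intro h i; exact (h i).symm
      · intro h i; exact (h i).symm)
  rw [h1] at h
  have h2 := Subgroup.card_subgroup_dvd_card (GT p q)
  have h3 := h.trans h2
  rw [Nat.card_eq_fintype_card, Fintype.card_perm, Fintype.card_fin] at h3
  have h4 := (hp.out.dvd_factorial).mp h3
  have := hp.out.two_le
  omega

lemma K_ne (hps : p = 2 * s + 1) (hq : q < p - 1) :
    MvPolynomial.coeff (M1 p q) (PT p q) ≠ 0 := by
  rw [coeff_PT]
  have h1 : ∑ τ, gT p q τ = ∑ x : Perm (Fin (p - 1)) × (Fin (p - 1) → Bool), gT p q (Psi x) := by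
    symm
    apply Finset.sum_of_injOn Psi (Psi_inj.injOn) (fun _ _ => by simp)
    · intro τ _ hτ
      by_contra hne
      obtain ⟨x, hx⟩ := gT_range hps hq τ hne
      exact hτ ⟨x, by simp, hx⟩
    · intro x _
      rfl
  rw [h1]
  simp_rw [gT_Psi]
  rw [Finset.sum_neg_distrib, neg_ne_zero, Fintype.sum_prod_type]
  have h2 : ∀ σ : Perm (Fin (p - 1)), ∑ ε : Fin (p - 1) → Bool, ∏ i, phiT p q i (σ i) (ε i)
      = if ∀ i, tyT p q i = tyT p q (σ i) then ∏ i, wT p q i else 0 := by
    intro σ
    have := Finset.prod_univ_sum (fun _ : Fin (p - 1) => (univ : Finset Bool))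
      (fun i b => phiT p q i (σ i) b)
    rw [Fintype.piFinset_univ] at this
    rw [← this]
    simp_rw [sum_phiT hps hq]
    rw [Finset.prod_ite_zero]
    simp only [Finset.mem_univ, true_implies]
    rw [Equiv.prod_comp σ (fun i => wT p q i)]
  simp only
  simp_rw [h2]
  rw [← Finset.sum_filter, Finset.sum_const, nsmul_eq_mul]
  refine mul_ne_zero card_GT ?_
  rw [Finset.prod_ne_zero_iff]
  intro i _
  have hi := i.isLt
  unfold wT
  split_ifs with h
  · apply mul_ne_zero
    · intro h3
      have h4 : ((2 : ℕ) : ZMod p) = 0 := by exact_mod_cast h3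
      rw [ZMod.natCast_eq_zero_iff] at h4
      have := Nat.le_of_dvd (by norm_num) h4
      omega
    · intro h3
      rw [ZMod.natCast_eq_zero_iff] at h3
      have := Nat.le_of_dvd (by omega) h3
      omega
  · simp

/-- the sum. -/
noncomputable def QT (p q : ℕ) [Fact p.Prime] (f : Fin (p - 1) → ZMod p) : ZMod p :=
  Qs (nu p q) (cT p q) (kT p q) f

lemma kT_lt (hps : p = 2 * s + 1) (hq : q < p - 1) (τ : Perm (R2 p)) (r : R2 p) :
    kT p q τ r < p := xp_lt hps hq (τ r)

lemma QT_eval (hps : p = 2 * s + 1) (hq : q < p - 1) (f : Fin (p - 1) → ZMod p) :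
    MvPolynomial.eval f (PT p q) = QT p q f := by
  unfold PT QT
  exact eval_Pol (ν := nu p q) (kω := fun w => xp p q (Sum.inr w)) (u := uT p) (c := cT p q)
    (k := kT p q) (d := q) (kT_lt hps hq) (hNT hps hq) hq (hnu hq) f

lemma QT_ne (f : Fin (p - 1) → ZMod p) (h : QT p q f ≠ 0) :
    ∃ (x : Fin (p - 1) → ZMod p) (z : Bool → ZMod p), z true = 0 ∧
      Function.Injective (fun r => (cl p q r, pos x z f r)) := by
  unfold QT Qs at h
  obtain ⟨x, _, hx⟩ := Finset.exists_ne_zero_of_sum_ne_zero h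
  obtain ⟨z, _, hz⟩ := Finset.exists_ne_zero_of_sum_ne_zero hx
  refine ⟨x, z, ?_, ?_⟩
  · have h1 := left_ne_zero_of_mul hz
    rw [Fintype.prod_bool] at h1
    have h2 := left_ne_zero_of_mul h1
    by_contra hne
    apply h2
    simp [nu, hne]
  · have h1 := right_ne_zero_of_mul hz
    rw [← det_W2] at h1
    exact W2_inj _ h1

lemma QT_zero (f : Fin (p - 1) → ZMod p) (i : Fin (p - 1)) (hi : (i : ℕ) + 1 ≤ q)
    (hf : f i = 0) : QT p q f = 0 := by
  by_contra hne
  obtain ⟨x, z, _, hinj⟩ := QT_ne f hne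
  have h1 : (Sum.inl (i, false) : R2 p) = Sum.inl (i, true) := by
    apply hinj
    refine Prod.ext ?_ ?_
    · simp only [cl, if_pos hi]
    · simp [pos, hf]
  simp at h1

/-- placements for two classes. -/
theorem case_two_core (hps : p = 2 * s + 1) (hq : q < p - 1) (f : Fin (p - 1) → ZMod p)
    (hf : ∀ i : Fin (p - 1), (i : ℕ) + 1 ≤ q → f i ≠ 0) :
    ∃ (x : Fin (p - 1) → ZMod p) (z : Bool → ZMod p), z true = 0 ∧
      Function.Injective (fun r => (cl p q r, pos x z f r)) := by
  apply QT_ne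
  rw [← QT_eval hps hq]
  have hsupp : ∀ m ∈ (PT p q).support, ∑ i, m i = q := fun m hm => support_Pol (hNT hps hq) hm
  have hle : ∀ m ∈ (PT p q).support, ∀ i, m i ≤ q := by
    intro m hm i
    rw [← hsupp m hm]
    exact Finset.single_le_sum (f := fun i => m i) (fun _ _ => Nat.zero_le _) (Finset.mem_univ i)
  have hm : ∀ m ∈ (PT p q).support, m = M1 p q := by
    intro m hm
    have h1 : ∀ i, m1 p q i ≤ m i := by
      intro i
      unfold m1
      split_ifs with hi
      · by_contra h0
        have h0' : m i = 0 := by omega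
        have h2 := coeff_zero_of_vanish (PT p q) (fun m hm i => by
          have := hle m hm i
          omega) (univ.erase i) (fun f hf => by
            rw [QT_eval hps hq]
            exact QT_zero f i hi (hf i (Finset.notMem_erase i _))) m (fun i' hi' => by
              rw [Finset.mem_erase] at hi'
              push Not at hi'
              by_cases h3 : i' = i
              · rw [h3, h0']
              · exact absurd (Finset.mem_univ _) (hi' h3))
        exact (MvPolynomial.mem_support_iff.mp hm) h2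
      · exact Nat.zero_le _
    have h2 := (Finset.sum_eq_sum_iff_of_le (s := univ) (fun i _ => h1 i)).mp (by
      rw [sum_m1 hq, hsupp m hm])
    ext i
    exact (h2 i (Finset.mem_univ _)).symm
  have hP : PT p q = MvPolynomial.monomial (M1 p q) (MvPolynomial.coeff (M1 p q) (PT p q)) := by
    ext m
    rw [MvPolynomial.coeff_monomial]
    split_ifs with h
    · rw [h]
    · by_contra hne
      exact h (hm m (MvPolynomial.mem_support_iff.mpr hne)).symm
  rw [hP, MvPolynomial.eval_monomial]
  refine mul_ne_zero (K_ne hps hq) ?_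
  rw [Finsupp.prod_fintype _ _ (fun i => pow_zero _), Finset.prod_ne_zero_iff]
  intro i _
  have h1 : M1 p q i = m1 p q i := rfl
  rw [h1]
  unfold m1
  split_ifs with h2
  · rw [pow_one]
    exact hf i h2
  · rw [pow_zero]
    exact one_ne_zero

end Pool.Agent.Helper90.NF
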