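import Pool.Agent.Helper90.NF.Lam

/-!
Symmetric gauge invariant multilinear forms in three groups of variables do not vanish on all
rearrangements.
-/

set_option autoImplicit false
set_option linter.unusedSectionVars false
set_option linter.unusedDecidableInType false

open Finset

namespace Pool.Agent.Helper90.NF

section Aux

variable {β C : Type*} [Fintype β] [DecidableEq β] [Fintype C] [DecidableEq C]

/-- three groups of variables. -/
abbrev I3 (β C : Type*) := Option β ⊕ (β ⊕ C)

/-- a function on three groups. -/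
def el {β C X : Type*} (fA : Option β → X) (fB : β → X) (fC : C → X) : I3 β C → X :=
  Sum.elim fA (Sum.elim fB fC)

lemma sum_el {M : Type*} [AddCommMonoid M] (G : (I3 β C → Bool) → M) :
    ∑ ε, G ε = ∑ εA, ∑ εB, ∑ εC, G (el εA εB εC) := by
  rw [← Equiv.sum_comp (Equiv.sumArrowEquivProdArrow (Option β) (β ⊕ C) Bool).symm,
    Fintype.sum_prod_type]
  refine Finset.sum_congr rfl ?_
  intro εA _
  rw [← Equiv.sum_comp (Equiv.sumArrowEquivProdArrow β C Bool).symm, Fintype.sum_prod_type]
  rfl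

lemma cnt_el (εA : Option β → Bool) (εB : β → Bool) (εC : C → Bool) :
    cnt (el εA εB εC) = cnt εA + (cnt εB + cnt εC) := by
  unfold cnt
  rw [Fintype.sum_sum_type, Fintype.sum_sum_type]
  rfl

lemma mon_el {R : Type*} [CommMonoid R] (εA : Option β → Bool) (εB : β → Bool) (εC : C → Bool)
    (fA : Option β → R) (fB : β → R) (fC : C → R) :
    mon (el εA εB εC) (el fA fB fC) = mon εA fA * (mon εB fB * mon εC fC) := by
  unfold mon
  rw [Fintype.prod_sum_type, Fintype.prod_sum_type]
  rfl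

lemma perm_of_cnt {A : Type*} [Fintype A] [DecidableEq A] (ε ε' : A → Bool) (h : cnt ε = cnt ε') :
    ∃ σ : Equiv.Perm A, ∀ a, ε (σ a) = ε' a := by
  have h1 : ∀ ε : A → Bool, Fintype.card {a // ε a = true} = cnt ε := by
    intro ε
    rw [Fintype.card_subtype, Finset.card_filter]
    rfl
  obtain ⟨e⟩ : Nonempty ({a // ε' a = true} ≃ {a // ε a = true}) :=
    ⟨Fintype.equivOfCardEq (by rw [h1, h1, h])⟩
  refine ⟨e.extendSubtype, ?_⟩
  intro a
  by_cases ha : ε' a = true
  · rw [ha]
    exact e.extendSubtype_mem a ha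
  · have h2 := e.extendSubtype_not_mem a ha
    rw [Bool.not_eq_true] at ha h2
    rw [ha, h2]

lemma ind_apply_eq {p : ℕ} {A B : Type*} (ε : A → Bool) (ε' : B → Bool) (a : A) (b : B)
    (h : ε a = ε' b) : ind p ε a = ind p ε' b := by
  unfold ind
  rw [h]

lemma mon_const {A : Type*} [Fintype A] {p : ℕ} (ε : A → Bool) (γ : ZMod p) :
    mon ε (fun _ => γ) = γ ^ cnt ε := by
  unfold mon cnt
  rw [← Finset.prod_pow_eq_pow_sum]
  refine Finset.prod_congr rfl ?_
  intro a _
  split_ifs <;> simp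

lemma mon_cnt_zero {A : Type*} [Fintype A] {p : ℕ} (ε : A → Bool) (h : cnt ε = 0)
    (f : A → ZMod p) : mon ε f = 1 := by
  unfold cnt at h
  rw [Finset.sum_eq_zero_iff] at h
  unfold mon
  apply Finset.prod_eq_one
  intro a ha
  have := h a ha
  split_ifs with h1
  · rw [h1] at this
    simp at this
  · rfl

lemma add_pow_N {R : Type*} [CommRing R] (N n : ℕ) (hn : n < N) (x y : R) :
    (x + y) ^ n = ∑ w ∈ range N, ((n.choose w : ℕ) : R) * (x ^ w * y ^ (n - w)) := by
  rw [add_pow]
  have h1 : ∑ m ∈ range (n + 1), x ^ m * y ^ (n - m) * ((n.choose m : ℕ) : R)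
      = ∑ w ∈ range (n + 1), ((n.choose w : ℕ) : R) * (x ^ w * y ^ (n - w)) := by
    refine Finset.sum_congr rfl ?_
    intro m _
    ring
  rw [h1]
  apply Finset.sum_subset
  · intro w hw
    rw [Finset.mem_range] at hw ⊢
    omega
  · intro w _ hw
    rw [Finset.mem_range] at hw
    rw [Nat.choose_eq_zero_of_lt (by omega)]
    simp

end Aux

section FinalSec

variable {p : ℕ} [hp : Fact p.Prime] {β C : Type*} [Fintype β] [DecidableEq β] [Fintype C]
  [DecidableEq C]

/-- values on squares of two-variable monomials. -/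
def Hf (H : ℕ → ℕ → (C → Bool) → ZMod p) (j : ℕ) (fC : C → ZMod p) (u w : ℕ) : ZMod p :=
  ∑ εC : C → Bool, if u + (w + cnt εC) = j then H u w εC * mon εC fC else 0

lemma Hf_zero (H : ℕ → ℕ → (C → Bool) → ZMod p) (j : ℕ) (fC : C → ZMod p) (u w : ℕ)
    (h : j < u + w) : Hf H j fC u w = 0 := by
  unfold Hf
  apply Finset.sum_eq_zero
  intro εC _
  rw [if_neg (by omega)]

lemma Hf_const (H : ℕ → ℕ → (C → Bool) → ZMod p) (j : ℕ) (γ : ZMod p) (u w : ℕ) :
    Hf H j (fun _ => γ) u w = γ ^ (j - (u + w)) * Hf H j (fun _ => 1) u w := by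
  unfold Hf
  rw [Finset.mul_sum]
  refine Finset.sum_congr rfl ?_
  intro εC _
  split_ifs with h
  · rw [mon_const, mon_const]
    have : j - (u + w) = cnt εC := by omega
    rw [this]
    ring
  · rw [mul_zero]

lemma Hf_top (H : ℕ → ℕ → (C → Bool) → ZMod p) (j : ℕ) (fC : C → ZMod p) (u w : ℕ)
    (h : u + w = j) : Hf H j fC u w = Hf H j (fun _ => 1) u w := by
  unfold Hf
  refine Finset.sum_congr rfl ?_
  intro εC _
  split_ifs with h1
  · rw [mon_cnt_zero εC (by omega), mon_cnt_zero εC (by omega)]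
  · rfl

variable (P : (I3 β C → ZMod p) → ZMod p) {s j : ℕ}
  (hps : p = 2 * s + 1) (hβ : Fintype.card β = s) (hC : Fintype.card C = j) (hj : j ≤ s)
  (hs : 0 < s)
  (P1 : ∀ f, P f = ∑ ε : I3 β C → Bool, if cnt ε = j then P (ind p ε) * mon ε f else 0)
  (P2 : ∀ (σA : Equiv.Perm (Option β)) (σB : Equiv.Perm β) f,
    P (fun i => f (Equiv.sumCongr σA (Equiv.sumCongr σB (Equiv.refl C)) i)) = P f)
  (P3 : ∀ f (a b c : ZMod p), a + b + c = 0 →
    P (fun i => f i + el (fun _ => a) (fun _ => b) (fun _ => c) i) = P f)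
  (P4 : P (el (fun _ => 0) (fun _ => 0) (fun _ => 1)) ≠ 0)

include P2 in
lemma exists_H : ∃ H : ℕ → ℕ → (C → Bool) → ZMod p, ∀ εA εB εC,
    P (ind p (el εA εB εC)) = H (cnt εA) (cnt εB) εC := by
  classical
  have key : ∀ (εA εA' : Option β → Bool) (εB εB' : β → Bool) (εC : C → Bool), cnt εA = cnt εA' →
      cnt εB = cnt εB' → P (ind p (el εA εB εC)) = P (ind p (el εA' εB' εC)) := by
    intro εA εA' εB εB' εC hA hB
    obtain ⟨σA, hσA⟩ := perm_of_cnt εA εA' hA
    obtain ⟨σB, hσB⟩ := perm_of_cnt εB εB' hB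
    rw [← P2 σA σB (ind p (el εA εB εC))]
    congr 1
    funext i
    rcases i with a | b | c
    · exact ind_apply_eq _ _ _ _ (hσA a)
    · exact ind_apply_eq _ _ _ _ (hσB b)
    · exact ind_apply_eq _ _ _ _ rfl
  refine ⟨fun u w εC => if h : ∃ e : (Option β → Bool) × (β → Bool), cnt e.1 = u ∧ cnt e.2 = w
    then P (ind p (el h.choose.1 h.choose.2 εC)) else 0, ?_⟩
  intro εA εB εC
  have h : ∃ e : (Option β → Bool) × (β → Bool), cnt e.1 = cnt εA ∧ cnt e.2 = cnt εB :=
    ⟨(εA, εB), rfl, rfl⟩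
  beta_reduce
  rw [dif_pos h]
  exact key _ _ _ _ _ h.choose_spec.1.symm h.choose_spec.2.symm

open MvPolynomial in
include P1 in
lemma P_eq (H : ℕ → ℕ → (C → Bool) → ZMod p)
    (hH : ∀ εA εB εC, P (ind p (el εA εB εC)) = H (cnt εA) (cnt εB) εC)
    (fA : Option β → ZMod p) (fB : β → ZMod p) (fC : C → ZMod p) :
    P (el fA fB fC) = Lam (Hf H j fC)
      ((∏ a, (1 + X false * MvPolynomial.C (fA a))) * ∏ b, (1 + X true * MvPolynomial.C (fB b))) := by
  rw [P1, sum_el, prod_expand, prod_expand, Finset.sum_mul_sum, map_sum]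
  refine Finset.sum_congr rfl ?_
  intro εA _
  rw [map_sum]
  refine Finset.sum_congr rfl ?_
  intro εB _
  have h1 : (MvPolynomial.C (mon εA fA) * X false ^ cnt εA * (MvPolynomial.C (mon εB fB) *
      X true ^ cnt εB) : MvPolynomial Bool (ZMod p))
      = MvPolynomial.C (mon εA fA * mon εB fB) * X false ^ cnt εA * X true ^ cnt εB := by
    rw [map_mul]; ring
  rw [h1, Lam_XY]
  unfold Hf
  rw [Finset.mul_sum]
  refine Finset.sum_congr rfl ?_
  intro εC _
  rw [cnt_el, hH, mon_el]
  split_ifs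
  · ring
  · ring

include P1 in
lemma P_const (H : ℕ → ℕ → (C → Bool) → ZMod p)
    (hH : ∀ εA εB εC, P (ind p (el εA εB εC)) = H (cnt εA) (cnt εB) εC) (γ : ZMod p) :
    P (el (fun _ => 0) (fun _ => 0) (fun _ => γ))
      = P (el (fun _ => 0) (fun _ => 0) (fun _ => 1)) * γ ^ j := by
  rw [P_eq P P1 H hH, P_eq P P1 H hH]
  simp only [map_zero, mul_zero, add_zero, Finset.prod_const_one, mul_one]
  have h1 : ∀ H' : ℕ → ℕ → ZMod p, Lam H' 1 = H' 0 0 := by
    intro H'
    have := Lam_XY H' 1 0 0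
    simpa using this
  rw [h1, h1, Hf_const H j γ 0 0]
  simp only [add_zero, Nat.sub_zero]
  ring

open MvPolynomial in
lemma const_pow (b : Bool) (α : ZMod p) (N n : ℕ) (hn : n < N) :
    ((1 + X b * MvPolynomial.C α) ^ n : MvPolynomial Bool (ZMod p))
      = ∑ u ∈ range N, MvPolynomial.C (((n.choose u : ℕ) : ZMod p) * α ^ u) * X b ^ u := by
  have h1 : (1 + X b * MvPolynomial.C α : MvPolynomial Bool (ZMod p))
      = X b * MvPolynomial.C α + 1 := by ring
  rw [h1, add_pow_N N n hn]
  refine Finset.sum_congr rfl ?_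
  intro u _
  rw [map_mul, map_pow, map_natCast, one_pow, mul_pow]
  ring

include hps hβ P1 P3 hs hj in
lemma coeffs (H : ℕ → ℕ → (C → Bool) → ZMod p)
    (hH : ∀ εA εB εC, P (ind p (el εA εB εC)) = H (cnt εA) (cnt εB) εC) (u w : ℕ)
    (hu : u < s + 2) (hw : w < s + 2) :
    (((s + 1).choose u : ℕ) : ZMod p) * ((s.choose w : ℕ) : ZMod p) * Hf H j (fun _ => 1) u w
      = P (el (fun _ => 0) (fun _ => 0) (fun _ => 1)) * ((j.choose u : ℕ) : ZMod p) *
        (((j - u).choose w : ℕ) : ZMod p) := by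
  set κ := P (el (fun _ => 0) (fun _ => 0) (fun _ => 1)) with hκ
  have key : ∀ α β' : ZMod p, ∑ u ∈ range (s + 2), (∑ w ∈ range (s + 2),
      ((((s + 1).choose u : ℕ) : ZMod p) * ((s.choose w : ℕ) : ZMod p) * Hf H j (fun _ => 1) u w
        - κ * ((j.choose u : ℕ) : ZMod p) * (((j - u).choose w : ℕ) : ZMod p)) * β' ^ w) * α ^ u
      = 0 := by
    intro α β'
    have h1 : P (el (fun _ => α) (fun _ => β') (fun _ => 1)) = κ * (α + (β' + 1)) ^ j := by
      rw [← P_const P P1 H hH, ← P3 (el (fun _ => α) (fun _ => β') (fun _ => 1)) (-α) (-β') (α + β')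
        (by ring)]
      congr 1
      funext i
      rcases i with a | b | c
      · simp only [el, Sum.elim_inl]; ring
      · simp only [el, Sum.elim_inl, Sum.elim_inr]; ring
      · simp only [el, Sum.elim_inr]; ring
    rw [P_eq P P1 H hH, Finset.prod_const, Finset.prod_const, Finset.card_univ, Finset.card_univ,
      Fintype.card_option, hβ, const_pow false α (s + 2) (s + 1) (by omega),
      const_pow true β' (s + 2) s (by omega), Finset.sum_mul_sum, map_sum] at h1
    rw [add_pow_N (s + 2) j (by omega), Finset.mul_sum] at h1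
    have h2 : ∑ u ∈ range (s + 2), (∑ w ∈ range (s + 2),
      ((((s + 1).choose u : ℕ) : ZMod p) * ((s.choose w : ℕ) : ZMod p) * Hf H j (fun _ => 1) u w)
        * β' ^ w) * α ^ u = ∑ u ∈ range (s + 2), (∑ w ∈ range (s + 2),
      (κ * ((j.choose u : ℕ) : ZMod p) * (((j - u).choose w : ℕ) : ZMod p)) * β' ^ w) * α ^ u := by
      refine Eq.trans ?_ (h1.trans ?_)
      · refine Finset.sum_congr rfl ?_
        intro u _
        rw [map_sum, Finset.sum_mul]
        refine Finset.sum_congr rfl ?_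
        intro w _
        have h3 : (MvPolynomial.C ((((s + 1).choose u : ℕ) : ZMod p) * α ^ u) *
            MvPolynomial.X false ^ u * (MvPolynomial.C (((s.choose w : ℕ) : ZMod p) * β' ^ w) *
              MvPolynomial.X true ^ w) : MvPolynomial Bool (ZMod p))
            = MvPolynomial.C ((((s + 1).choose u : ℕ) : ZMod p) * α ^ u *
              (((s.choose w : ℕ) : ZMod p) * β' ^ w)) * MvPolynomial.X false ^ u *
                MvPolynomial.X true ^ w := by
          rw [map_mul (MvPolynomial.C) (((((s + 1).choose u : ℕ) : ZMod p) * α ^ u))]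
          ring
        rw [h3, Lam_XY]
        ring
      · refine Finset.sum_congr rfl ?_
        intro u _
        rw [add_pow_N (s + 2) (j - u) (by omega), Finset.sum_mul]
        simp_rw [one_pow, mul_one]
        rw [Finset.mul_sum, Finset.mul_sum, Finset.mul_sum]
        refine Finset.sum_congr rfl ?_
        intro w _
        ring
    rw [← sub_eq_zero, ← Finset.sum_sub_distrib] at h2
    rw [← h2]
    refine Finset.sum_congr rfl ?_
    intro u _
    rw [← sub_mul, ← Finset.sum_sub_distrib]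
    congr 1
    refine Finset.sum_congr rfl ?_
    intro w _
    ring
  have h1 := fun β' => uni_zero (s + 2) (by omega) _ (fun α => key α β') u hu
  have h2 := uni_zero (s + 2) (by omega) _ h1 w hw
  exact sub_eq_zero.mp h2

include hps hβ P1 P3 P4 hs hj in
lemma alt_ne (H : ℕ → ℕ → (C → Bool) → ZMod p)
    (hH : ∀ εA εB εC, P (ind p (el εA εB εC)) = H (cnt εA) (cnt εB) εC) (R : ℕ) (hR : R ≤ j) :
    ∑ k ∈ range (R + 1), ((R.choose k : ℕ) : ZMod p) * (-1) ^ k *
      Hf H j (fun _ => 1) (R - k) k ≠ 0 := by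
  intro h0
  set κ := P (el (fun _ => 0) (fun _ => 0) (fun _ => 1)) with hκ
  have hfac : ∀ m, m < p → ((m.factorial : ℕ) : ZMod p) ≠ 0 := by
    intro m hm h
    rw [ZMod.natCast_eq_zero_iff] at h
    have := (hp.out.dvd_factorial).mp h
    omega
  have h1 : ∀ k ∈ range (R + 1), (((s + 1).factorial * s.factorial * (j - R).factorial : ℕ) :
      ZMod p) * (((R.choose k : ℕ) : ZMod p) * (-1) ^ k * Hf H j (fun _ => 1) (R - k) k)
      = κ * ((j.factorial : ℕ) : ZMod p) * (((R.choose k : ℕ) : ZMod p) * (-1) ^ k *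
        (((s + 1 - (R - k)).factorial : ℕ) : ZMod p) * (((s - k).factorial : ℕ) : ZMod p)) := by
    intro k hk
    rw [Finset.mem_range] at hk
    have hc := coeffs P hps hβ hj hs P1 P3 H hH (R - k) k (by omega) (by omega)
    rw [← hκ] at hc
    have f1 := Nat.choose_mul_factorial_mul_factorial (show R - k ≤ s + 1 by omega)
    have f2 := Nat.choose_mul_factorial_mul_factorial (show k ≤ s by omega)
    have f3 := Nat.choose_mul_factorial_mul_factorial (show R - k ≤ j by omega)
    have f4 := Nat.choose_mul_factorial_mul_factorial (show k ≤ j - (R - k) by omega)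
    have e1 : j - (R - k) - k = j - R := by omega
    rw [e1] at f4
    have g1 := congrArg (fun n : ℕ => (n : ZMod p)) f1
    have g2 := congrArg (fun n : ℕ => (n : ZMod p)) f2
    have g3 := congrArg (fun n : ℕ => (n : ZMod p)) f3
    have g4 := congrArg (fun n : ℕ => (n : ZMod p)) f4
    simp only [Nat.cast_mul] at g1 g2 g3 g4
    rw [Nat.cast_mul, Nat.cast_mul, ← g1, ← g2, ← g3, ← g4]
    linear_combination (((R.choose k : ℕ) : ZMod p) * (-1) ^ k *
      (((R - k).factorial : ℕ) : ZMod p) * (((s + 1 - (R - k)).factorial : ℕ) : ZMod p) *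
      ((k.factorial : ℕ) : ZMod p) * (((s - k).factorial : ℕ) : ZMod p) *
      (((j - R).factorial : ℕ) : ZMod p)) * hc
  have h2 := Finset.sum_congr rfl h1
  rw [← Finset.mul_sum, ← Finset.mul_sum, h0, mul_zero] at h2
  exact (mul_ne_zero (mul_ne_zero P4 (hfac j (by omega)))
    (fact_sum_ne_zero p s R (by omega) (by omega))) h2.symm

end FinalSec

end Pool.Agent.Helper90.NF
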