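import Mathlib

/-!
Polynomial method over `ZMod p`: sums of determinant-like functions over all placements.
-/

set_option autoImplicit false
set_option linter.unusedSectionVars false
set_option linter.unusedDecidableInType false

open Finset

namespace Pool.Agent.Helper90.NF

section Moments

variable {p : ℕ} [hp : Fact p.Prime]

lemma sum_pow_eq (k : ℕ) (hk : k < 2 * (p - 1)) :
    ∑ x : ZMod p, x ^ k = if k = p - 1 then -1 else 0 := by
  have hp1 : 0 < p - 1 := by have := hp.out.two_le; omega
  rcases Nat.eq_zero_or_pos k with h0 | h0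
  · subst h0
    rw [if_neg (by omega)]
    apply FiniteField.sum_pow_lt_card_sub_one
    rw [ZMod.card]
    exact hp1
  · have h1 : ∑ x : ZMod p, x ^ k = ∑ x : (ZMod p)ˣ, ((x : ZMod p)) ^ k := by
      rw [← Finset.sum_subset (Finset.subset_univ (univ.filter fun x : ZMod p => x ≠ 0))]
      · refine (Finset.sum_bij (fun (x : (ZMod p)ˣ) _ => (x : ZMod p)) ?_ ?_ ?_ ?_).symm
        · intro x _
          simp
        · intro x _ y _ h
          exact Units.ext h
        · intro y hy
          rw [Finset.mem_filter] at hy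
          exact ⟨Units.mk0 y hy.2, Finset.mem_univ _, rfl⟩
        · intro x _
          rfl
      · intro x _ hx
        rw [Finset.mem_filter] at hx
        push Not at hx
        rw [hx (Finset.mem_univ _), zero_pow h0.ne']
    rw [h1]
    have h2 := FiniteField.sum_pow_units (ZMod p) k
    rw [ZMod.card] at h2
    rw [h2]
    congr 1
    apply propext
    constructor
    · rintro ⟨c, hc⟩
      rcases c with _ | _ | c
      · omega
      · omega
      · exfalso
        rw [hc] at hk
        have : 2 * (p - 1) ≤ (p - 1) * (c + 1 + 1) := by nlinarith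
        omega
    · intro h
      rw [h]

/-- the coefficient in the moment formula. -/
def mu (p k k' : ℕ) : ZMod p :=
  if p - 1 ≤ k + k' then -((Nat.choose k' (p - 1 - k) : ℕ) : ZMod p) else 0

lemma moment (k k' : ℕ) (hk : k < p) (h : k + k' < 2 * (p - 1)) (f : ZMod p) :
    ∑ y : ZMod p, y ^ k * (y + f) ^ k' = mu p k k' * f ^ (k + k' - (p - 1)) := by
  have h1 : ∀ y : ZMod p, y ^ k * (y + f) ^ k'
      = ∑ m ∈ range (k' + 1), y ^ (k + m) * (f ^ (k' - m) * (k'.choose m : ZMod p)) := by
    intro y
    rw [add_pow, Finset.mul_sum]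
    refine Finset.sum_congr rfl ?_
    intro m _
    rw [pow_add]
    ring
  simp_rw [h1]
  rw [Finset.sum_comm]
  have h2 : ∀ m ∈ range (k' + 1), ∑ y : ZMod p, y ^ (k + m) * (f ^ (k' - m) * (k'.choose m : ZMod p))
      = (if k + m = p - 1 then -1 else 0) * (f ^ (k' - m) * (k'.choose m : ZMod p)) := by
    intro m hm
    rw [Finset.mem_range] at hm
    rw [← Finset.sum_mul, sum_pow_eq _ (by omega)]
  rw [Finset.sum_congr rfl h2]
  unfold mu
  split_ifs with h3
  · rw [Finset.sum_eq_single (p - 1 - k)]
    · rw [if_pos (by omega)]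
      have : k' - (p - 1 - k) = k + k' - (p - 1) := by omega
      rw [this]
      ring
    · intro m _ hm
      rw [if_neg (by omega), zero_mul]
    · intro hm
      rw [Finset.mem_range] at hm
      exfalso
      omega
  · rw [zero_mul]
    apply Finset.sum_eq_zero
    intro m hm
    rw [Finset.mem_range] at hm
    rw [if_neg (by omega), zero_mul]

lemma mu_eq_zero (k k' : ℕ) (h : k + k' < p - 1) : mu p k k' = 0 := by
  unfold mu
  rw [if_neg (by omega)]

end Moments

section Rep

variable {p : ℕ} [hp : Fact p.Prime] {ι ω : Type*}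

/-- positions of the slots. -/
def pos (x : ι → ZMod p) (z : ω → ZMod p) (f : ι → ZMod p) : (ι × Bool) ⊕ ω → ZMod p
  | Sum.inl (i, false) => x i
  | Sum.inl (i, true) => x i + f i
  | Sum.inr w => z w

variable [Fintype ι] [DecidableEq ι] [Fintype ω] [DecidableEq ω]

lemma sum_mono (ν : ω → ZMod p → ZMod p) (f : ι → ZMod p) (k : (ι × Bool) ⊕ ω → ℕ) :
    ∑ x : ι → ZMod p, ∑ z : ω → ZMod p, (∏ w, ν w (z w)) * ∏ r, pos x z f r ^ k r
      = (∏ i, ∑ y : ZMod p, y ^ k (Sum.inl (i, false)) * (y + f i) ^ k (Sum.inl (i, true))) *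
        ∏ w, ∑ y : ZMod p, ν w y * y ^ k (Sum.inr w) := by
  have h1 : ∀ (x : ι → ZMod p) (z : ω → ZMod p), (∏ w, ν w (z w)) * ∏ r, pos x z f r ^ k r
      = (∏ i, (x i ^ k (Sum.inl (i, false)) * (x i + f i) ^ k (Sum.inl (i, true)))) *
        ∏ w, (ν w (z w) * z w ^ k (Sum.inr w)) := by
    intro x z
    rw [Fintype.prod_sum_type, Fintype.prod_prod_type, Finset.prod_mul_distrib (f := fun w => ν w (z w))]
    have : ∀ i, ∏ b : Bool, pos x z f (Sum.inl (i, b)) ^ k (Sum.inl (i, b))
        = x i ^ k (Sum.inl (i, false)) * (x i + f i) ^ k (Sum.inl (i, true)) := by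
      intro i
      rw [Fintype.prod_bool, mul_comm]
      rfl
    simp_rw [this]
    have h2 : ∀ w, pos x z f (Sum.inr w) ^ k (Sum.inr w) = z w ^ k (Sum.inr w) := fun w => rfl
    simp_rw [h2]
    ring
  simp_rw [h1]
  simp_rw [← Finset.mul_sum]
  rw [← Finset.sum_mul]
  have a1 := Finset.prod_univ_sum (fun _ : ι => (univ : Finset (ZMod p)))
    (fun i y => y ^ k (Sum.inl (i, false)) * (y + f i) ^ k (Sum.inl (i, true)))
  have a2 := Finset.prod_univ_sum (fun _ : ω => (univ : Finset (ZMod p)))
    (fun w y => ν w y * y ^ k (Sum.inr w))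
  rw [Fintype.piFinset_univ] at a1 a2
  rw [a1, a2]

variable {𝒯 : Type*} [Fintype 𝒯]

/-- the sum over all placements of `∑ c_τ ∏ pos ^ k_τ`. -/
noncomputable def Qs (ν : ω → ZMod p → ZMod p) (c : 𝒯 → ZMod p) (k : 𝒯 → (ι × Bool) ⊕ ω → ℕ)
    (f : ι → ZMod p) : ZMod p :=
  ∑ x : ι → ZMod p, ∑ z : ω → ZMod p, (∏ w, ν w (z w)) * ∑ τ, c τ * ∏ r, pos x z f r ^ k τ r

/-- the coefficients of the representing polynomial. -/
noncomputable def cf (kω : ω → ℕ) (u : ω → ZMod p) (c : 𝒯 → ZMod p)
    (k : 𝒯 → (ι × Bool) ⊕ ω → ℕ) (τ : 𝒯) : ZMod p :=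
  c τ * ((∏ i, mu p (k τ (Sum.inl (i, false))) (k τ (Sum.inl (i, true)))) *
    ∏ w, if k τ (Sum.inr w) = kω w then u w else 0)

/-- the exponents of the representing polynomial. -/
noncomputable def ex (p : ℕ) (k : 𝒯 → (ι × Bool) ⊕ ω → ℕ) (τ : 𝒯) : ι →₀ ℕ :=
  Finsupp.equivFunOnFinite.symm
    (fun i => k τ (Sum.inl (i, false)) + k τ (Sum.inl (i, true)) - (p - 1))

lemma ex_apply (k : 𝒯 → (ι × Bool) ⊕ ω → ℕ) (τ : 𝒯) (i : ι) :
    ex p k τ i = k τ (Sum.inl (i, false)) + k τ (Sum.inl (i, true)) - (p - 1) := rfl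

/-- the representing polynomial. -/
noncomputable def Pol (kω : ω → ℕ) (u : ω → ZMod p) (c : 𝒯 → ZMod p)
    (k : 𝒯 → (ι × Bool) ⊕ ω → ℕ) : MvPolynomial ι (ZMod p) :=
  ∑ τ, MvPolynomial.monomial (ex p k τ) (cf kω u c k τ)

variable {ν : ω → ZMod p → ZMod p} {kω : ω → ℕ} {u : ω → ZMod p} {c : 𝒯 → ZMod p}
  {k : 𝒯 → (ι × Bool) ⊕ ω → ℕ} {d : ℕ}
  (hk : ∀ τ r, k τ r < p)
  (hN : ∀ τ, c τ ≠ 0 → ∑ r, k τ r = ∑ w, kω w + (Fintype.card ι * (p - 1) + d))
  (hd : d < p - 1)
  (hν : ∀ w m, m < p → ∑ y, ν w y * y ^ m = if m = kω w then u w else 0)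

include hN in
lemma count (τ : 𝒯) (hc : c τ ≠ 0) (hw : ∀ w, k τ (Sum.inr w) = kω w) :
    ∑ i, (k τ (Sum.inl (i, false)) + k τ (Sum.inl (i, true))) = Fintype.card ι * (p - 1) + d := by
  have h := hN τ hc
  rw [Fintype.sum_sum_type, Fintype.sum_prod_type] at h
  simp_rw [hw, Fintype.sum_bool] at h
  have : ∀ i, k τ (Sum.inl (i, true)) + k τ (Sum.inl (i, false))
      = k τ (Sum.inl (i, false)) + k τ (Sum.inl (i, true)) := fun i => add_comm _ _
  simp_rw [this] at h
  omega

include hN in
lemma count' (τ : 𝒯) (hc : c τ ≠ 0) (hw : ∀ w, k τ (Sum.inr w) = kω w)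
    (hi : ∀ i, p - 1 ≤ k τ (Sum.inl (i, false)) + k τ (Sum.inl (i, true))) :
    ∑ i, (k τ (Sum.inl (i, false)) + k τ (Sum.inl (i, true)) - (p - 1)) = d := by
  have h := count hN τ hc hw
  have h2 : ∑ i, (k τ (Sum.inl (i, false)) + k τ (Sum.inl (i, true)))
      = ∑ i, ((p - 1) + (k τ (Sum.inl (i, false)) + k τ (Sum.inl (i, true)) - (p - 1))) := by
    refine Finset.sum_congr rfl ?_
    intro i _
    have := hi i
    omega
  rw [h2, Finset.sum_add_distrib, Finset.sum_const, Finset.card_univ, smul_eq_mul] at h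
  omega

include hN in
lemma cf_ne_zero {τ : 𝒯} (h : cf kω u c k τ ≠ 0) :
    c τ ≠ 0 ∧ (∀ w, k τ (Sum.inr w) = kω w) ∧
    (∀ i, p - 1 ≤ k τ (Sum.inl (i, false)) + k τ (Sum.inl (i, true))) ∧
    ∑ i, ex p k τ i = d := by
  unfold cf at h
  have h1 := left_ne_zero_of_mul h
  have h2 := right_ne_zero_of_mul h
  have h3 := left_ne_zero_of_mul h2
  have h4 := right_ne_zero_of_mul h2
  rw [Finset.prod_ne_zero_iff] at h3 h4
  have h5 : ∀ w, k τ (Sum.inr w) = kω w := by
    intro w
    by_contra hne
    exact h4 w (Finset.mem_univ _) (if_neg hne)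
  have h6 : ∀ i, p - 1 ≤ k τ (Sum.inl (i, false)) + k τ (Sum.inl (i, true)) := by
    intro i
    by_contra hne
    exact h3 i (Finset.mem_univ _) (mu_eq_zero _ _ (by omega))
  exact ⟨h1, h5, h6, count' hN τ h1 h5 h6⟩

include hk hN hd hν in
theorem eval_Pol (f : ι → ZMod p) : MvPolynomial.eval f (Pol kω u c k) = Qs ν c k f := by
  unfold Pol Qs
  rw [map_sum]
  simp_rw [Finset.mul_sum]
  have h0 : ∀ x : ι → ZMod p, ∑ z : ω → ZMod p, ∑ τ, (∏ w, ν w (z w)) *
      (c τ * ∏ r, pos x z f r ^ k τ r)
      = ∑ τ, c τ * ∑ z : ω → ZMod p, (∏ w, ν w (z w)) * ∏ r, pos x z f r ^ k τ r := by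
    intro x
    rw [Finset.sum_comm]
    refine Finset.sum_congr rfl ?_
    intro τ _
    rw [Finset.mul_sum]
    refine Finset.sum_congr rfl ?_
    intro z _
    ring
  simp_rw [h0]
  rw [Finset.sum_comm]
  refine Finset.sum_congr rfl ?_
  intro τ _
  rw [← Finset.mul_sum, sum_mono, MvPolynomial.eval_monomial]
  have hw : ∀ w, ∑ y : ZMod p, ν w y * y ^ k τ (Sum.inr w)
      = if k τ (Sum.inr w) = kω w then u w else 0 := fun w => hν w _ (hk τ _)
  simp_rw [hw]
  unfold cf
  rw [mul_assoc]
  by_cases hc : c τ = 0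
  · rw [hc, zero_mul, zero_mul]
  congr 1
  by_cases h1 : ∀ w, k τ (Sum.inr w) = kω w
  · rw [mul_right_comm]
    congr 1
    have hexp : (ex p k τ).prod (fun i e => f i ^ e)
        = ∏ i, f i ^ (k τ (Sum.inl (i, false)) + k τ (Sum.inl (i, true)) - (p - 1)) := by
      rw [Finsupp.prod_fintype _ _ (fun i => pow_zero _)]
      rfl
    rw [hexp, ← Finset.prod_mul_distrib]
    by_cases h2 : ∃ i, k τ (Sum.inl (i, false)) + k τ (Sum.inl (i, true)) < p - 1
    · obtain ⟨i, hi⟩ := h2
      rw [Finset.prod_eq_zero (Finset.mem_univ i) (by rw [mu_eq_zero _ _ hi, zero_mul]),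
        Finset.prod_eq_zero (Finset.mem_univ i)]
      rw [moment _ _ (hk τ _) (by omega), mu_eq_zero _ _ hi, zero_mul]
    · push Not at h2
      refine Finset.prod_congr rfl ?_
      intro i _
      rw [moment _ _ (hk τ _)]
      have h3 := count' hN τ hc h1 h2
      have h4 : k τ (Sum.inl (i, false)) + k τ (Sum.inl (i, true)) - (p - 1) ≤ d := by
        rw [← h3]
        exact Finset.single_le_sum (f := fun i => k τ (Sum.inl (i, false))
          + k τ (Sum.inl (i, true)) - (p - 1)) (fun _ _ => Nat.zero_le _) (Finset.mem_univ i)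
      omega
  · push Not at h1
    obtain ⟨w, hw⟩ := h1
    rw [Finset.prod_eq_zero (f := fun w => if k τ (Sum.inr w) = kω w then u w else 0)
      (Finset.mem_univ w) (if_neg hw)]
    ring

include hN in
lemma support_Pol {m : ι →₀ ℕ} (hm : m ∈ (Pol kω u c k).support) : ∑ i, m i = d := by
  rw [MvPolynomial.mem_support_iff] at hm
  unfold Pol at hm
  rw [MvPolynomial.coeff_sum] at hm
  obtain ⟨τ, _, hτ⟩ := Finset.exists_ne_zero_of_sum_ne_zero hm
  rw [MvPolynomial.coeff_monomial] at hτ
  split_ifs at hτ with h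
  · rw [← h]
    exact (cf_ne_zero hN hτ).2.2.2
  · exact absurd rfl hτ

end Rep

section Vanish

variable {p : ℕ} [hp : Fact p.Prime] {ι : Type*} [Fintype ι] [DecidableEq ι]

open MvPolynomial

lemma eq_zero_of_eval (P : MvPolynomial ι (ZMod p)) (hdeg : ∀ m ∈ P.support, ∀ i, m i < p)
    (h : ∀ f : ι → ZMod p, eval f P = 0) : P = 0 := by
  apply eq_zero_of_eval_zero_at_prod_finset P (fun _ => univ)
  · intro i
    rw [Finset.card_univ, ZMod.card, MvPolynomial.degreeOf_lt_iff hp.out.pos]
    exact fun m hm => hdeg m hm i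
  · intro f _
    exact h f

lemma coeff_zero_of_vanish (P : MvPolynomial ι (ZMod p))
    (hdeg : ∀ m ∈ P.support, ∀ i, m i < p) (U : Finset ι)
    (hU : ∀ f : ι → ZMod p, (∀ i, i ∉ U → f i = 0) → eval f P = 0) (m : ι →₀ ℕ)
    (hm : ∀ i, i ∉ U → m i = 0) : coeff m P = 0 := by
  classical
  by_contra hne
  set P' : MvPolynomial ι (ZMod p) :=
    ∑ m ∈ P.support.filter (fun m => ∀ i, i ∉ U → m i = 0), monomial m (coeff m P) with hP'
  have hcoeff : ∀ m', coeff m' P' = if (∀ i, i ∉ U → m' i = 0) then coeff m' P else 0 := by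
    intro m'
    rw [hP', coeff_sum]
    simp_rw [coeff_monomial]
    rw [Finset.sum_ite_eq']
    by_cases h1 : m' ∈ P.support
    · simp only [Finset.mem_filter, h1, true_and]
    · rw [if_neg (by simp [Finset.mem_filter, h1])]
      rw [MvPolynomial.notMem_support_iff] at h1
      rw [h1, ite_self]
  have h0 : P' = 0 := by
    apply eq_zero_of_eval
    · intro m' hm' i
      rw [MvPolynomial.mem_support_iff, hcoeff] at hm'
      split_ifs at hm' with h1
      · exact hdeg m' (MvPolynomial.mem_support_iff.mpr hm') i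
      · exact absurd rfl hm'
    · intro f
      have h1 := hU (fun i => if i ∈ U then f i else 0) (fun i hi => if_neg hi)
      rw [← h1, hP', map_sum]
      conv_rhs => rw [← MvPolynomial.support_sum_monomial_coeff P, map_sum]
      rw [Finset.sum_filter]
      refine Finset.sum_congr rfl ?_
      intro m' _
      split_ifs with h2
      · rw [eval_monomial, eval_monomial]
        congr 1
        rw [Finsupp.prod_fintype _ _ (fun i => pow_zero _),
          Finsupp.prod_fintype _ _ (fun i => pow_zero _)]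
        refine Finset.prod_congr rfl ?_
        intro i _
        by_cases h3 : i ∈ U
        · rw [if_pos h3]
        · rw [if_neg h3, h2 i h3, pow_zero, pow_zero]
      · push Not at h2
        obtain ⟨i, hi, hi'⟩ := h2
        rw [eval_monomial, Finsupp.prod_fintype _ _ (fun i => pow_zero _),
          Finset.prod_eq_zero (Finset.mem_univ i), mul_zero]
        rw [if_neg hi, zero_pow hi']
  have := hcoeff m
  rw [h0, if_pos hm, coeff_zero] at this
  exact hne this.symm

/-- the indicator of a Boolean vector. -/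
def ind {ι : Type*} (p : ℕ) (ε : ι → Bool) : ι → ZMod p := fun i => if ε i then 1 else 0

/-- number of `true`s. -/
def cnt {ι : Type*} [Fintype ι] (ε : ι → Bool) : ℕ := ∑ i, if ε i then 1 else 0

/-- the squarefree monomial. -/
def mon {ι : Type*} [Fintype ι] {R : Type*} [CommMonoid R] (ε : ι → Bool) (f : ι → R) : R :=
  ∏ i, if ε i then f i else 1

/-- homogeneous polynomials that vanish on all vectors of small support are multilinear. -/
theorem multilinear (P : MvPolynomial ι (ZMod p)) (d : ℕ) (hd : d < p)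
    (hdeg : ∀ m ∈ P.support, ∑ i, m i = d)
    (hv : ∀ f : ι → ZMod p, (univ.filter fun i => f i ≠ 0).card < d → eval f P = 0)
    (f : ι → ZMod p) :
    eval f P = ∑ ε : ι → Bool, if cnt ε = d then eval (ind p ε) P * mon ε f else 0 := by
  classical
  have hle : ∀ m ∈ P.support, ∀ i, m i ≤ d := by
    intro m hm i
    rw [← hdeg m hm]
    exact Finset.single_le_sum (f := fun i => m i) (fun _ _ => Nat.zero_le _) (Finset.mem_univ i)
  have hsf : ∀ m ∈ P.support, ∀ i, m i ≤ 1 := by
    intro m hm
    set U := univ.filter (fun i => m i ≠ 0) with hU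
    have h1 : d ≤ U.card := by
      by_contra hlt
      push Not at hlt
      have := coeff_zero_of_vanish P (fun m hm i => lt_of_le_of_lt (hle m hm i) hd) U
        (fun f hf => hv f (lt_of_le_of_lt (Finset.card_le_card (by
          intro i hi
          rw [Finset.mem_filter] at hi
          by_contra hiU
          exact hi.2 (hf i hiU))) hlt)) m (by
          intro i hi
          rw [hU, Finset.mem_filter] at hi
          push Not at hi
          exact hi (Finset.mem_univ _))
      exact (MvPolynomial.mem_support_iff.mp hm) this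
    have h2 : ∑ i ∈ U, m i = d := by
      rw [← hdeg m hm, hU, Finset.sum_filter_ne_zero]
    intro i
    by_contra hgt
    push Not at hgt
    have hi : i ∈ U := by
      rw [hU, Finset.mem_filter]
      exact ⟨Finset.mem_univ _, by omega⟩
    have h3 : ∑ i ∈ U, 1 < ∑ i ∈ U, m i := by
      apply Finset.sum_lt_sum
      · intro j hj
        rw [hU, Finset.mem_filter] at hj
        have := hj.2
        omega
      · exact ⟨i, hi, hgt⟩
    rw [h2, Finset.sum_const, smul_eq_mul, mul_one] at h3
    omega
  -- the monomial attached to a Boolean vector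
  set M : (ι → Bool) → (ι →₀ ℕ) := fun ε =>
    Finsupp.equivFunOnFinite.symm (fun i => if ε i then 1 else 0) with hM
  have hMi : ∀ ε i, M ε i = if ε i then 1 else 0 := fun ε i => rfl
  have hMinj : Function.Injective M := by
    intro ε ε' h
    funext i
    have h1 := DFunLike.congr_fun h i
    rw [hMi, hMi] at h1
    cases h2 : ε i <;> cases h3 : ε' i <;> simp [h2, h3] at h1 <;> rfl
  have hmon : ∀ ε (f : ι → ZMod p) (a : ZMod p), eval f (monomial (M ε) a) = a * mon ε f := by
    intro ε f a
    rw [eval_monomial, Finsupp.prod_fintype _ _ (fun i => pow_zero _)]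
    congr 1
    refine Finset.prod_congr rfl ?_
    intro i _
    rw [hMi]
    split_ifs <;> simp
  have hP : P = ∑ ε : ι → Bool, monomial (M ε) (if cnt ε = d then coeff (M ε) P else 0) := by
    ext m
    rw [coeff_sum]
    simp_rw [coeff_monomial]
    by_cases hm : m ∈ P.support
    · have h1 : M (fun i => decide (m i = 1)) = m := by
        ext i
        rw [hMi]
        have h2 := hsf m hm i
        rcases Nat.lt_or_ge (m i) 1 with h3 | h3
        · have h4 : m i = 0 := by omega
          simp [h4]
        · have h4 : m i = 1 := by omega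
          simp [h4]
      rw [Finset.sum_eq_single (fun i => decide (m i = 1))]
      · rw [if_pos h1, h1, if_pos]
        rw [← hdeg m hm]
        unfold cnt
        refine Finset.sum_congr rfl ?_
        intro i _
        exact (hMi _ i).symm.trans (DFunLike.congr_fun h1 i)
      · intro ε _ hε
        rw [if_neg]
        intro h2
        apply hε
        apply hMinj
        rw [h2, h1]
      · intro h
        exact absurd (Finset.mem_univ _) h
    · rw [MvPolynomial.notMem_support_iff] at hm
      rw [hm, Finset.sum_eq_zero]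
      intro ε _
      split_ifs with h1 h2
      · rw [h1, hm]
      · rfl
      · rfl
  have hev : ∀ f : ι → ZMod p, eval f P
      = ∑ ε : ι → Bool, (if cnt ε = d then coeff (M ε) P else 0) * mon ε f := by
    intro f
    conv_lhs => rw [hP, map_sum]
    exact Finset.sum_congr rfl (fun ε _ => hmon ε f _)
  have hK : ∀ ε : ι → Bool, cnt ε = d → eval (ind p ε) P = coeff (M ε) P := by
    intro ε hε
    rw [hev, Finset.sum_eq_single ε]
    · rw [if_pos hε]
      have : mon ε (ind p ε) = 1 := by
        unfold mon ind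
        apply Finset.prod_eq_one
        intro i _
        split_ifs <;> rfl
      rw [this, mul_one]
    · intro ε' _ hne
      split_ifs with h1
      · have : ∃ i, ε' i = true ∧ ε i = false := by
          by_contra hno
          push Not at hno
          apply hne
          have hle' : ∀ i ∈ (univ : Finset ι), (if ε' i then 1 else 0) ≤ (if ε i then 1 else 0) := by
            intro i _
            have h5 := hno i
            cases h2 : ε' i <;> cases h3 : ε i
            · simp
            · simp
            · exact absurd h3 (h5 h2)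
            · simp
          have := (Finset.sum_eq_sum_iff_of_le hle').mp (by
            unfold cnt at h1 hε
            rw [h1, hε])
          funext i
          have h4 := this i (Finset.mem_univ _)
          cases h2 : ε' i <;> cases h3 : ε i <;> simp [h2, h3] at h4 <;> rfl
        obtain ⟨i, hi, hi'⟩ := this
        have h0 : mon ε' (ind p ε) = 0 := by
          unfold mon ind
          apply Finset.prod_eq_zero (Finset.mem_univ i)
          simp [hi, hi']
        rw [h0, mul_zero]
      · rw [zero_mul]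
    · intro h
      exact absurd (Finset.mem_univ _) h
  rw [hev]
  refine Finset.sum_congr rfl ?_
  intro ε _
  split_ifs with h1
  · rw [hK ε h1]
  · rw [zero_mul]

end Vanish

end Pool.Agent.Helper90.NF
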