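import Pool.Agent.Helper90.NF.Frame
import Pool.Agent.Helper90.NF.Binom

/-!
Symmetric multilinear forms in three groups of variables: the swapping argument.
-/

set_option autoImplicit false
set_option linter.unusedSectionVars false
set_option linter.unusedDecidableInType false

open Finset

namespace Pool.Agent.Helper90.NF

section LamSec

variable {p : ℕ} [hp : Fact p.Prime]

open MvPolynomial

/-- the linear functional with prescribed values on monomials in two variables. -/
noncomputable def Lam (H : ℕ → ℕ → ZMod p) : MvPolynomial Bool (ZMod p) →ₗ[ZMod p] ZMod p :=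
  (basisMonomials Bool (ZMod p)).constr (ZMod p) (fun m => H (m false) (m true))

lemma Lam_monomial (H : ℕ → ℕ → ZMod p) (m : Bool →₀ ℕ) (c : ZMod p) :
    Lam H (monomial m c) = c * H (m false) (m true) := by
  have h1 : monomial m c = c • (basisMonomials Bool (ZMod p) m) := by
    rw [coe_basisMonomials, smul_monomial, smul_eq_mul, mul_one]
  rw [h1, map_smul, Lam, Module.Basis.constr_basis, smul_eq_mul]

lemma mono_eq (c : ZMod p) (u w : ℕ) :
    (C c * X false ^ u * X true ^ w : MvPolynomial Bool (ZMod p))
      = monomial (Finsupp.single false u + Finsupp.single true w) c := by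
  rw [X_pow_eq_monomial, X_pow_eq_monomial, mul_assoc, monomial_mul, C_mul_monomial]
  simp

lemma Lam_XY (H : ℕ → ℕ → ZMod p) (c : ZMod p) (u w : ℕ) :
    Lam H (C c * X false ^ u * X true ^ w) = c * H u w := by
  rw [mono_eq, Lam_monomial]
  simp

lemma Lam_C (H : ℕ → ℕ → ZMod p) (c : ZMod p) (q : MvPolynomial Bool (ZMod p)) :
    Lam H (C c * q) = c * Lam H q := by
  rw [C_mul', map_smul, smul_eq_mul]

lemma prod_expand {A : Type*} [Fintype A] [DecidableEq A] (f : A → ZMod p) (b : Bool) :
    ∏ a, (1 + X b * C (f a) : MvPolynomial Bool (ZMod p))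
      = ∑ ε : A → Bool, C (mon ε f) * X b ^ cnt ε := by
  have h := Finset.prod_univ_sum (fun _ : A => (univ : Finset Bool))
    (fun a t => (if t then X b * C (f a) else 1 : MvPolynomial Bool (ZMod p)))
  rw [Fintype.piFinset_univ] at h
  have h1 : ∀ a, ∑ t : Bool, (if t then X b * C (f a) else 1 : MvPolynomial Bool (ZMod p))
      = 1 + X b * C (f a) := by
    intro a
    rw [Fintype.sum_bool]
    simp only [if_true, Bool.false_eq_true, if_false]
    ring
  simp_rw [h1] at h
  rw [h]
  refine Finset.sum_congr rfl ?_
  intro ε _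
  unfold mon cnt
  rw [map_prod, ← Finset.prod_pow_eq_pow_sum, ← Finset.prod_mul_distrib]
  refine Finset.prod_congr rfl ?_
  intro a _
  cases ε a
  · simp
  · simp only [if_true, pow_one]
    ring

lemma Lam_pow (H : ℕ → ℕ → ZMod p) (R : ℕ) :
    Lam H ((X false - X true) ^ R)
      = ∑ k ∈ range (R + 1), ((R.choose k : ℕ) : ZMod p) * (-1) ^ k * H (R - k) k := by
  have h1 : (X false - X true : MvPolynomial Bool (ZMod p)) = -X true + X false := by ring
  rw [h1, add_pow, map_sum]
  refine Finset.sum_congr rfl ?_
  intro k _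
  have h2 : ((-X true) ^ k * X false ^ (R - k) * ((R.choose k : ℕ) : MvPolynomial Bool (ZMod p)))
      = C (((R.choose k : ℕ) : ZMod p) * (-1) ^ k) * X false ^ (R - k) * X true ^ k := by
    rw [map_mul, map_pow, map_neg, map_one, map_natCast, neg_pow]
    ring
  rw [h2, Lam_XY]

lemma Lam_high (H : ℕ → ℕ → ZMod p) (R : ℕ) (hH : ∀ u w, R < u + w → H u w = 0)
    (q : MvPolynomial Bool (ZMod p)) :
    Lam H ((X false - X true) ^ R * q) = constantCoeff q * Lam H ((X false - X true) ^ R) := by
  induction q using MvPolynomial.induction_on' with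
  | monomial m c =>
    by_cases hm : m = 0
    · subst hm
      rw [constantCoeff_monomial, if_pos rfl]
      have : (monomial 0 c : MvPolynomial Bool (ZMod p)) = C c := rfl
      rw [this, mul_comm, Lam_C]
    · rw [constantCoeff_monomial, if_neg hm, zero_mul]
      have h1 : (X false - X true : MvPolynomial Bool (ZMod p)) = -X true + X false := by ring
      rw [h1, add_pow, Finset.sum_mul, map_sum]
      apply Finset.sum_eq_zero
      intro k hk
      rw [Finset.mem_range] at hk
      have h2 : ((-X true) ^ k * X false ^ (R - k) *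
          ((R.choose k : ℕ) : MvPolynomial Bool (ZMod p))) * monomial m c
          = C (((R.choose k : ℕ) : ZMod p) * (-1) ^ k) *
            (X false ^ (R - k) * X true ^ k * monomial m c) := by
        rw [map_mul, map_pow, map_neg, map_one, map_natCast, neg_pow]
        ring
      rw [h2, Lam_C, X_pow_eq_monomial, X_pow_eq_monomial, monomial_mul, monomial_mul,
        Lam_monomial, hH, mul_zero, mul_zero]
      simp only [Finsupp.add_apply, Finsupp.single_apply]
      simp only [if_true, Bool.true_eq_false, Bool.false_eq_true, if_false]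
      have h3 : 0 < m false + m true := by
        rcases Nat.eq_zero_or_pos (m false + m true) with h | h
        · exfalso
          apply hm
          ext b
          cases b
          · simp; omega
          · simp; omega
        · exact h
      omega
  | add q r hq hr =>
    rw [mul_add, map_add, hq, hr, map_add, add_mul]

theorem swap_claim {β : Type*} [Fintype β] [DecidableEq β]
    (Λ : MvPolynomial Bool (ZMod p) →ₗ[ZMod p] ZMod p)
    (Z : (Option β → ZMod p) → (β → ZMod p) → Prop)
    (hZ0 : ∀ fA fB, Z fA fB → Λ ((∏ a, (1 + X false * C (fA a))) * ∏ b, (1 + X true * C (fB b))) = 0)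
    (hZs : ∀ fA fB k, Z fA fB →
      Z (Function.update fA (some k) (fB k)) (Function.update fB k (fA (some k))))
    (U : Finset β) : ∀ fA fB, Z fA fB → (∀ k ∈ U, fA (some k) ≠ fB k) →
      Λ ((X false - X true) ^ #U * (1 + X false * C (fA none)) *
        (∏ k ∈ Uᶜ, (1 + X false * C (fA (some k)))) *
        ∏ k ∈ Uᶜ, (1 + X true * C (fB k))) = 0 := by
  induction U using Finset.induction_on with
  | empty =>
    intro fA fB hz _
    have h := hZ0 fA fB hz
    rw [Fintype.prod_option] at h
    rw [Finset.card_empty, pow_zero, one_mul, Finset.compl_empty]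
    exact h
  | insert k U hk ih =>
    intro fA fB hz hne
    have hkc : k ∈ Uᶜ := by rw [Finset.mem_compl]; exact hk
    have h1 := ih fA fB hz (fun k' hk' => hne k' (Finset.mem_insert_of_mem hk'))
    have h2 := ih _ _ (hZs fA fB k hz) (by
      intro k' hk'
      have hkk : k' ≠ k := fun h => hk (h ▸ hk')
      rw [Function.update_of_ne (by simpa using hkk), Function.update_of_ne hkk]
      exact hne k' (Finset.mem_insert_of_mem hk'))
    rw [← Finset.mul_prod_erase _ _ hkc, ← Finset.mul_prod_erase _ _ hkc] at h1 h2
    have e1 : ∏ k' ∈ Uᶜ.erase k, (1 + X false * C (Function.update fA (some k) (fB k) (some k')) :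
        MvPolynomial Bool (ZMod p)) = ∏ k' ∈ Uᶜ.erase k, (1 + X false * C (fA (some k'))) := by
      refine Finset.prod_congr rfl ?_
      intro k' hk'
      rw [Function.update_of_ne (by simpa using Finset.ne_of_mem_erase hk')]
    have e2 : ∏ k' ∈ Uᶜ.erase k, (1 + X true * C (Function.update fB k (fA (some k)) k') :
        MvPolynomial Bool (ZMod p)) = ∏ k' ∈ Uᶜ.erase k, (1 + X true * C (fB k')) := by
      refine Finset.prod_congr rfl ?_
      intro k' hk'
      rw [Function.update_of_ne (Finset.ne_of_mem_erase hk')]
    rw [e1, e2, Function.update_self, Function.update_self,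
      Function.update_of_ne (by simp)] at h2
    rw [Finset.compl_insert, Finset.card_insert_of_notMem hk]
    have hu : fA (some k) - fB k ≠ 0 := sub_ne_zero.mpr (hne k (Finset.mem_insert_self _ _))
    have h3 : C (fA (some k) - fB k) * ((X false - X true) ^ (#U + 1) *
        (1 + X false * C (fA none)) *
        (∏ k' ∈ Uᶜ.erase k, (1 + X false * C (fA (some k')))) *
        ∏ k' ∈ Uᶜ.erase k, (1 + X true * C (fB k')))
        = ((X false - X true) ^ #U * (1 + X false * C (fA none)) *
          ((1 + X false * C (fA (some k))) * ∏ k' ∈ Uᶜ.erase k, (1 + X false * C (fA (some k')))) *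
          ((1 + X true * C (fB k)) * ∏ k' ∈ Uᶜ.erase k, (1 + X true * C (fB k'))))
        - ((X false - X true) ^ #U * (1 + X false * C (fA none)) *
          ((1 + X false * C (fB k)) * ∏ k' ∈ Uᶜ.erase k, (1 + X false * C (fA (some k')))) *
          ((1 + X true * C (fA (some k))) *
            ∏ k' ∈ Uᶜ.erase k, (1 + X true * C (fB k'))) : MvPolynomial Bool (ZMod p)) := by
      rw [map_sub]
      ring
    have h4 := congrArg Λ h3
    rw [C_mul', LinearMap.map_smul, smul_eq_mul, LinearMap.map_sub, h1, h2, sub_zero] at h4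
    exact (mul_eq_zero.mp h4).resolve_left hu

end LamSec

section Uni

variable {p : ℕ} [hp : Fact p.Prime]

lemma uni_zero (N : ℕ) (hN : N ≤ p) (g : ℕ → ZMod p)
    (h : ∀ α : ZMod p, ∑ u ∈ range N, g u * α ^ u = 0) (u : ℕ) (hu : u < N) : g u = 0 := by
  have h1 : (∑ u ∈ range N, Polynomial.C (g u) * Polynomial.X ^ u) = 0 := by
    apply Polynomial.eq_zero_of_natDegree_lt_card_of_eval_eq_zero' _ (univ : Finset (ZMod p))
    · intro α _
      rw [Polynomial.eval_finsetSum]
      simpa using h α
    · rw [Finset.card_univ, ZMod.card]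
      refine lt_of_le_of_lt (Polynomial.natDegree_sum_le_of_forall_le (n := N - 1) _ _ ?_) (by omega)
      intro v hv
      rw [Finset.mem_range] at hv
      exact (Polynomial.natDegree_C_mul_X_pow_le _ _).trans (by omega)
  have h2 := congrArg (fun P => Polynomial.coeff P u) h1
  simp only [Polynomial.finsetSum_coeff, Polynomial.coeff_C_mul_X_pow, Polynomial.coeff_zero] at h2
  rw [Finset.sum_ite_eq] at h2
  rw [if_pos (Finset.mem_range.mpr hu)] at h2
  exact h2

lemma one_add_pow (N n : ℕ) (hn : n < N) (x : ZMod p) :
    (x + 1) ^ n = ∑ w ∈ range N, ((n.choose w : ℕ) : ZMod p) * x ^ w := by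
  rw [add_pow]
  have h1 : ∑ m ∈ range (n + 1), x ^ m * 1 ^ (n - m) * ((n.choose m : ℕ) : ZMod p)
      = ∑ w ∈ range (n + 1), ((n.choose w : ℕ) : ZMod p) * x ^ w := by
    refine Finset.sum_congr rfl ?_
    intro m _
    rw [one_pow]
    ring
  rw [h1]
  apply Finset.sum_subset
  · intro w hw
    rw [Finset.mem_range] at hw ⊢
    omega
  · intro w _ hw
    rw [Finset.mem_range] at hw
    rw [Nat.choose_eq_zero_of_lt (by omega)]
    simp

end Uni

end Pool.Agent.Helper90.NF
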