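import Pool.Agent.Helper90.NF.Frame

/-!
Two classes: the exponents form one path, so the matching is unique.
-/

set_option autoImplicit false
set_option linter.unusedSectionVars false
set_option linter.unusedDecidableInType false

open Finset Equiv

namespace Pool.Agent.Helper90.NF

section PhiSec

variable {ι : Type*} [Fintype ι] [DecidableEq ι]

/-- flips of the second coordinate. -/
def flipPerm (b : Bool) : Perm Bool := if b then Equiv.boolNot else 1

lemma sign_flipPerm (b : Bool) : Perm.sign (flipPerm b) = if b then -1 else 1 := by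
  cases b
  · simp [flipPerm]
  · simp only [flipPerm, if_true]; decide

lemma flipPerm_apply (b c : Bool) : flipPerm b c = xor c b := by
  cases b <;> cases c <;> rfl

/-- the permutations of `ι × Bool` that commute with flipping. -/
def Phi (q : Perm ι × (ι → Bool)) : Perm (ι × Bool) :=
  (Equiv.prodCongrLeft fun _ : Bool => q.1) * (Equiv.prodCongrRight fun i => flipPerm (q.2 i))

lemma Phi_apply (q : Perm ι × (ι → Bool)) (i : ι) (b : Bool) :
    Phi q (i, b) = (q.1 i, xor b (q.2 i)) := by
  simp [Phi, flipPerm_apply]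

lemma sign_Phi (q : Perm ι × (ι → Bool)) :
    Perm.sign (Phi q) = ∏ i, (if q.2 i then (-1 : ℤˣ) else 1) := by
  unfold Phi
  rw [Equiv.Perm.sign_mul, Equiv.Perm.sign_prodCongrLeft, Equiv.Perm.sign_prodCongrRight]
  simp only [sign_flipPerm, Fintype.prod_bool, Int.units_mul_self, one_mul]

lemma Phi_inj : Function.Injective (Phi (ι := ι)) := by
  intro q q' h
  have h1 : ∀ i, (q.1 i, q.2 i) = (q'.1 i, q'.2 i) := by
    intro i
    have := congrArg (fun τ => τ (i, false)) h
    simpa [Phi_apply] using this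
  refine Prod.ext (Equiv.ext fun i => (Prod.ext_iff.mp (h1 i)).1)
    (funext fun i => (Prod.ext_iff.mp (h1 i)).2)

lemma mem_range_Phi (τ : Perm (ι × Bool))
    (h : ∀ i, τ (i, true) = ((τ (i, false)).1, !(τ (i, false)).2)) : ∃ q, Phi q = τ := by
  have hinj : Function.Injective fun i => (τ (i, false)).1 := by
    intro i j hij
    simp only at hij
    by_cases h2 : (τ (i, false)).2 = (τ (j, false)).2
    · have : τ (i, false) = τ (j, false) := Prod.ext hij h2
      have := τ.injective this
      exact (Prod.ext_iff.mp this).1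
    · have h3 : (!(τ (i, false)).2) = (τ (j, false)).2 := by
        cases h4 : (τ (i, false)).2 <;> cases h5 : (τ (j, false)).2 <;> simp_all
      have : τ (i, true) = τ (j, false) := by
        rw [h i]; exact Prod.ext hij h3
      have := τ.injective this
      exact absurd (Prod.ext_iff.mp this).2 (by simp)
  refine ⟨(Equiv.ofBijective _ (Finite.injective_iff_bijective.mp hinj),
    fun i => (τ (i, false)).2), ?_⟩
  apply Equiv.ext
  rintro ⟨i, b⟩
  rw [Phi_apply]
  cases b
  · simp
  · rw [h i]; simp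

end PhiSec

section Nodes

variable {p s q : ℕ} (hps : p = 2 * s + 1) (hq : q < p - 1)

/-- classes of the slots. -/
def cl (p q : ℕ) : (Fin (p - 1) × Bool) ⊕ Bool → ℕ
  | Sum.inl (i, false) => if (i : ℕ) + 1 ≤ q then (i : ℕ) % 2 else 1
  | Sum.inl (i, true) => if (i : ℕ) + 1 ≤ q then (i : ℕ) % 2 else 0
  | Sum.inr false => q % 2
  | Sum.inr true => 1

/-- exponents of the slots. -/
def xp (p q : ℕ) : (Fin (p - 1) × Bool) ⊕ Bool → ℕ
  | Sum.inl (i, false) => if (i : ℕ) + 1 ≤ q then (i : ℕ) + 1 else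
      if ((i : ℕ) + 1) % 2 = 0 then (i : ℕ) + 1 else p - 1 - ((i : ℕ) + 1)
  | Sum.inl (i, true) => if (i : ℕ) + 1 ≤ q then p - ((i : ℕ) + 1) else
      if ((i : ℕ) + 1) % 2 = 0 then p - 1 - ((i : ℕ) + 1) else (i : ℕ) + 1
  | Sum.inr false => p - 1 - q
  | Sum.inr true => 0

include hps hq in
lemma xp_lt (r : (Fin (p - 1) × Bool) ⊕ Bool) : xp p q r < p := by
  rcases r with ⟨i, b⟩ | w
  · have := i.isLt
    cases b <;> simp only [xp] <;> split_ifs <;> omega
  · cases w <;> simp only [xp] <;> omega

include hps hq in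
lemma node_inj (r r' : (Fin (p - 1) × Bool) ⊕ Bool) (h1 : cl p q r = cl p q r')
    (h2 : xp p q r = xp p q r') : r = r' := by
  rcases r with ⟨i, b⟩ | w <;> rcases r' with ⟨i', b'⟩ | w'
  · have hi := i.isLt
    have hi' := i'.isLt
    have key : (i : ℕ) = (i' : ℕ) ∧ b = b' := by
      cases b <;> cases b' <;> simp only [cl, xp] at h1 h2 <;> split_ifs at h1 h2 <;>
        first | (refine ⟨?_, rfl⟩; omega) | (exfalso; omega)
    rw [Fin.ext key.1, key.2]
  · have hi := i.isLt
    exfalso
    cases b <;> cases w' <;> simp only [cl, xp] at h1 h2 <;> split_ifs at h1 h2 <;> omega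
  · have hi' := i'.isLt
    exfalso
    cases b' <;> cases w <;> simp only [cl, xp] at h1 h2 <;> split_ifs at h1 h2 <;> omega
  · cases w <;> cases w' <;> simp only [cl, xp] at h1 h2
    · rfl
    · exfalso; omega
    · exfalso; omega
    · rfl

variable (τ : Perm ((Fin (p - 1) × Bool) ⊕ Bool))
  (hcl : ∀ r, cl p q (τ r) = cl p q r)
  (hy : ∀ w, xp p q (τ (Sum.inr w)) = xp p q (Sum.inr w))
  (hL : ∀ i : Fin (p - 1), (i : ℕ) + 1 ≤ q →
    xp p q (τ (Sum.inl (i, false))) + xp p q (τ (Sum.inl (i, true))) = p)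
  (hE : ∀ i : Fin (p - 1), ¬ (i : ℕ) + 1 ≤ q →
    xp p q (τ (Sum.inl (i, false))) + xp p q (τ (Sum.inl (i, true))) = p - 1)

include hps hq hcl hy in
lemma fix_inr (w : Bool) : τ (Sum.inr w) = Sum.inr w :=
  node_inj hps hq _ _ (hcl _) (hy w)

include hps hq hcl hy in
lemma exists_pre (i : Fin (p - 1)) (c : Bool) :
    ∃ (k : Fin (p - 1)) (b : Bool), τ (Sum.inl (k, b)) = Sum.inl (i, c) := by
  obtain ⟨r, hr⟩ := τ.surjective (Sum.inl (i, c))
  rcases r with ⟨k, b⟩ | w
  · exact ⟨k, b, hr⟩
  · rw [fix_inr hps hq τ hcl hy w] at hr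
    simp at hr

include hcl hL in
lemma mate_L (k : Fin (p - 1)) (b : Bool) (hk : (k : ℕ) + 1 ≤ q) :
    cl p q (τ (Sum.inl (k, !b))) = cl p q (τ (Sum.inl (k, b))) ∧
    xp p q (τ (Sum.inl (k, b))) + xp p q (τ (Sum.inl (k, !b))) = p := by
  rw [hcl, hcl]
  constructor
  · cases b <;> simp only [cl, Bool.not_true, Bool.not_false, if_pos hk]
  · have := hL k hk
    cases b
    · exact this
    · rw [add_comm]; exact this

include hcl hE in
lemma mate_E (k : Fin (p - 1)) (b : Bool) (hk : ¬ (k : ℕ) + 1 ≤ q) :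
    cl p q (τ (Sum.inl (k, !b))) + cl p q (τ (Sum.inl (k, b))) = 1 ∧
    xp p q (τ (Sum.inl (k, b))) + xp p q (τ (Sum.inl (k, !b))) = p - 1 := by
  rw [hcl, hcl]
  constructor
  · cases b <;> simp only [cl, Bool.not_true, Bool.not_false, if_neg hk]
  · have := hE k hk
    cases b
    · exact this
    · rw [add_comm]; exact this

include hps hq hcl hy hL hE in
lemma left_claim (n : ℕ) : n + 1 ≤ q → ∀ (i : Fin (p - 1)), (i : ℕ) = n → ∀ (k : Fin (p - 1))
    (b : Bool), τ (Sum.inl (k, b)) = Sum.inl (i, true) →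
    τ (Sum.inl (k, !b)) = Sum.inl (i, false) := by
  induction n with
  | zero =>
    intro hn i hi k b hk
    have hq1 : (i : ℕ) + 1 ≤ q := by omega
    by_cases hkq : (k : ℕ) + 1 ≤ q
    · obtain ⟨h1, h2⟩ := mate_L τ hcl hL k b hkq
      rw [hk] at h1 h2
      apply node_inj hps hq
      · rw [h1]; simp only [cl, if_pos hq1]
      · simp only [xp, if_pos hq1] at h2 ⊢
        omega
    · exfalso
      obtain ⟨h1, h2⟩ := mate_E τ hcl hE k b hkq
      rw [hk] at h1 h2
      have h3 : τ (Sum.inl (k, !b)) = Sum.inr true := by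
        apply node_inj hps hq
        · simp only [cl, if_pos hq1] at h1 ⊢
          omega
        · simp only [xp, if_pos hq1] at h2 ⊢
          omega
      rw [← fix_inr hps hq τ hcl hy true] at h3
      have := τ.injective h3
      simp at this
  | succ n ih =>
    intro hn i hi k b hk
    have hq1 : (i : ℕ) + 1 ≤ q := by omega
    by_cases hkq : (k : ℕ) + 1 ≤ q
    · obtain ⟨h1, h2⟩ := mate_L τ hcl hL k b hkq
      rw [hk] at h1 h2
      apply node_inj hps hq
      · rw [h1]; simp only [cl, if_pos hq1]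
      · simp only [xp, if_pos hq1] at h2 ⊢
        have := i.isLt
        omega
    · exfalso
      obtain ⟨h1, h2⟩ := mate_E τ hcl hE k b hkq
      rw [hk] at h1 h2
      have hi0 : n < p - 1 := by have := i.isLt; omega
      have hq0 : n + 1 ≤ q := by omega
      have h3 : τ (Sum.inl (k, !b)) = Sum.inl (⟨n, hi0⟩, false) := by
        apply node_inj hps hq
        · simp only [cl, if_pos hq1, if_pos hq0] at h1 ⊢
          omega
        · simp only [xp, if_pos hq1, if_pos hq0] at h2 ⊢
          have := i.isLt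
          omega
      obtain ⟨k0, b0, hk0⟩ := exists_pre hps hq τ hcl hy ⟨n, hi0⟩ true
      have h4 := ih hq0 ⟨n, hi0⟩ rfl k0 b0 hk0
      rw [← h3] at h4
      have h5 := τ.injective h4
      simp only [Sum.inl.injEq, Prod.mk.injEq, Bool.not_inj_iff] at h5
      rw [h5.1, h5.2, hk] at hk0
      simp only [Sum.inl.injEq, Prod.mk.injEq, and_true] at hk0
      have := congrArg Fin.val hk0
      simp only at this
      omega

include hps hq hcl hy hL hE in
lemma right_claim (n : ℕ) : ∀ (i : Fin (p - 1)), (i : ℕ) + n = p - 2 → ¬ (i : ℕ) + 1 ≤ q →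
    ∀ (k : Fin (p - 1)) (b : Bool),
    τ (Sum.inl (k, b)) = Sum.inl (i, decide (((i : ℕ) + 1) % 2 = 0)) →
    τ (Sum.inl (k, !b)) = Sum.inl (i, !decide (((i : ℕ) + 1) % 2 = 0)) := by
  induction n with
  | zero =>
    intro i hi hiq k b hk
    have hil := i.isLt
    by_cases hkq : (k : ℕ) + 1 ≤ q
    · exfalso
      obtain ⟨h1, h2⟩ := mate_L τ hcl hL k b hkq
      have h3 := xp_lt hps hq (τ (Sum.inl (k, !b)))
      rw [hk] at h1 h2
      have h4 : xp p q (Sum.inl (i, decide (((i : ℕ) + 1) % 2 = 0))) = 0 := by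
        by_cases hpar : ((i : ℕ) + 1) % 2 = 0
        · simp only [hpar, decide_true, xp, if_neg hiq, if_true]
          omega
        · simp only [hpar, decide_false, xp, if_neg hiq, if_false]
          omega
      omega
    · obtain ⟨h1, h2⟩ := mate_E τ hcl hE k b hkq
      rw [hk] at h1 h2
      apply node_inj hps hq
      · by_cases hpar : ((i : ℕ) + 1) % 2 = 0
        · simp only [hpar, decide_true, cl, if_neg hiq, Bool.not_true] at h1 ⊢
          omega
        · simp only [hpar, decide_false, cl, if_neg hiq, Bool.not_false] at h1 ⊢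
          omega
      · by_cases hpar : ((i : ℕ) + 1) % 2 = 0
        · simp only [hpar, decide_true, xp, if_neg hiq, Bool.not_true, if_true] at h2 ⊢
          omega
        · simp only [hpar, decide_false, xp, if_neg hiq, Bool.not_false, if_false] at h2 ⊢
          omega
  | succ n ih =>
    intro i hi hiq k b hk
    have hil := i.isLt
    by_cases hkq : (k : ℕ) + 1 ≤ q
    · exfalso
      obtain ⟨h1, h2⟩ := mate_L τ hcl hL k b hkq
      rw [hk] at h1 h2
      have hi1 : (i : ℕ) + 1 < p - 1 := by omega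
      have hiq1 : ¬ (i : ℕ) + 1 + 1 ≤ q := by omega
      have h3 : τ (Sum.inl (k, !b))
          = Sum.inl (⟨(i : ℕ) + 1, hi1⟩, !decide (((i : ℕ) + 1 + 1) % 2 = 0)) := by
        apply node_inj hps hq
        · by_cases hpar : ((i : ℕ) + 1) % 2 = 0
          · have hpar' : ¬ ((i : ℕ) + 1 + 1) % 2 = 0 := by omega
            simp only [hpar, hpar', decide_true, decide_false, cl, if_neg hiq, if_neg hiq1,
              Bool.not_false] at h1 ⊢
            omega
          · have hpar' : ((i : ℕ) + 1 + 1) % 2 = 0 := by omega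
            simp only [hpar, hpar', decide_true, decide_false, cl, if_neg hiq, if_neg hiq1,
              Bool.not_true] at h1 ⊢
            omega
        · by_cases hpar : ((i : ℕ) + 1) % 2 = 0
          · have hpar' : ¬ ((i : ℕ) + 1 + 1) % 2 = 0 := by omega
            simp only [hpar, hpar', decide_true, decide_false, xp, if_neg hiq, if_neg hiq1,
              Bool.not_false, if_true, if_false] at h2 ⊢
            omega
          · have hpar' : ((i : ℕ) + 1 + 1) % 2 = 0 := by omega
            simp only [hpar, hpar', decide_true, decide_false, xp, if_neg hiq, if_neg hiq1,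
              Bool.not_true, if_true, if_false] at h2 ⊢
            omega
      obtain ⟨k0, b0, hk0⟩ := exists_pre hps hq τ hcl hy ⟨(i : ℕ) + 1, hi1⟩
        (decide (((i : ℕ) + 1 + 1) % 2 = 0))
      have h4 := ih ⟨(i : ℕ) + 1, hi1⟩ (by simp only; omega) hiq1 k0 b0 hk0
      simp only at h4
      rw [← h3] at h4
      have h5 := τ.injective h4
      simp only [Sum.inl.injEq, Prod.mk.injEq, Bool.not_inj_iff] at h5
      rw [h5.1, h5.2, hk] at hk0
      simp only [Sum.inl.injEq, Prod.mk.injEq] at hk0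
      have := congrArg Fin.val hk0.1
      simp only at this
      omega
    · obtain ⟨h1, h2⟩ := mate_E τ hcl hE k b hkq
      rw [hk] at h1 h2
      apply node_inj hps hq
      · by_cases hpar : ((i : ℕ) + 1) % 2 = 0
        · simp only [hpar, decide_true, cl, if_neg hiq, Bool.not_true] at h1 ⊢
          omega
        · simp only [hpar, decide_false, cl, if_neg hiq, Bool.not_false] at h1 ⊢
          omega
      · by_cases hpar : ((i : ℕ) + 1) % 2 = 0
        · simp only [hpar, decide_true, xp, if_neg hiq, Bool.not_true, if_true] at h2 ⊢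
          omega
        · simp only [hpar, decide_false, xp, if_neg hiq, Bool.not_false, if_false] at h2 ⊢
          omega

include hps hq hcl hy hL hE in
lemma mate (k : Fin (p - 1)) (b : Bool) (i : Fin (p - 1)) (c : Bool)
    (h : τ (Sum.inl (k, b)) = Sum.inl (i, c)) : τ (Sum.inl (k, !b)) = Sum.inl (i, !c) := by
  have hil := i.isLt
  have key : ∀ c0 : Bool, (∀ (k : Fin (p - 1)) (b : Bool), τ (Sum.inl (k, b)) = Sum.inl (i, c0) →
      τ (Sum.inl (k, !b)) = Sum.inl (i, !c0)) → τ (Sum.inl (k, !b)) = Sum.inl (i, !c) := by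
    intro c0 hc0
    by_cases hcc : c = c0
    · rw [hcc] at h ⊢
      exact hc0 k b h
    · have hcc' : c = !c0 := by cases c <;> cases c0 <;> simp_all
      obtain ⟨k0, b0, hk0⟩ := exists_pre hps hq τ hcl hy i c0
      have h1 := hc0 k0 b0 hk0
      rw [← hcc', ← h] at h1
      have h2 := τ.injective h1
      simp only [Sum.inl.injEq, Prod.mk.injEq] at h2
      rw [← h2.1, ← h2.2, Bool.not_not, hk0, hcc', Bool.not_not]
  by_cases hi : (i : ℕ) + 1 ≤ q
  · exact key true (fun k b hk => left_claim hps hq τ hcl hy hL hE (i : ℕ) hi i rfl k b hk)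
  · exact key (decide (((i : ℕ) + 1) % 2 = 0))
      (fun k b hk => right_claim hps hq τ hcl hy hL hE (p - 2 - (i : ℕ)) i (by omega) hi k b hk)

/-- the permutations that occur. -/
def Psi (x : Perm (Fin (p - 1)) × (Fin (p - 1) → Bool)) : Perm ((Fin (p - 1) × Bool) ⊕ Bool) :=
  Equiv.sumCongr (Phi x) (Equiv.refl Bool)

include hps hq hcl hy hL hE in
lemma mem_range_Psi : ∃ x, Psi x = τ := by
  have h1 : Set.MapsTo τ (Set.range Sum.inl) (Set.range Sum.inl) := by
    rintro _ ⟨r, rfl⟩
    obtain ⟨r', hr'⟩ : ∃ r', τ (Sum.inl r) = r' := ⟨_, rfl⟩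
    rcases r' with r' | w
    · exact ⟨r', hr'.symm⟩
    · exfalso
      rw [← fix_inr hps hq τ hcl hy w] at hr'
      have := τ.injective hr'
      simp at this
  obtain ⟨u, hu⟩ := Equiv.Perm.mem_sumCongrHom_range_of_perm_mapsTo_inl h1
  have hu' : Equiv.Perm.sumCongr u.1 u.2 = τ := hu
  have h2 : u.2 = Equiv.refl Bool := by
    apply Equiv.ext
    intro w
    have h3 := fix_inr hps hq τ hcl hy w
    rw [← hu'] at h3
    simpa using h3
  have h4 : ∀ k b, τ (Sum.inl (k, b)) = Sum.inl (u.1 (k, b)) := by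
    intro k b
    rw [← hu']
    rfl
  obtain ⟨x, hx⟩ := mem_range_Phi u.1 (by
    intro i
    have h5 := mate hps hq τ hcl hy hL hE i false (u.1 (i, false)).1 (u.1 (i, false)).2
      (by rw [h4])
    rw [h4] at h5
    exact Sum.inl.inj h5)
  refine ⟨x, ?_⟩
  rw [← hu', h2, ← hx]
  rfl

lemma Psi_inj : Function.Injective (Psi (p := p)) := by
  intro x x' h
  apply Phi_inj
  apply Equiv.ext
  intro r
  have h1 := congrArg (fun τ => τ (Sum.inl r)) h
  simp only [Psi, Equiv.sumCongr_apply, Sum.map_inl, Sum.inl.injEq] at h1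
  exact h1

end Nodes

end Pool.Agent.Helper90.NF
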