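import Pool.Agent.Helper90.NF.Vd

/-!
The case of one class: near 1-factors of `Z_p`.
-/

set_option autoImplicit false
set_option linter.unusedSectionVars false
set_option linter.unusedDecidableInType false

open Finset

namespace Pool.Agent.Helper90.NF

variable {p : ℕ} [hp : Fact p.Prime] {ι : Type*} [Fintype ι] [DecidableEq ι]

/-- the sum of the Vandermonde determinants over all placements, one class. -/
def Q1 (e : (ι × Bool) ⊕ Unit ≃ Fin p) (f : ι → ZMod p) : ZMod p :=
  ∑ x : ι → ZMod p, vd e (pos x (fun _ => 0) f)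

lemma Q1_eq (e : (ι × Bool) ⊕ Unit ≃ Fin p) (f : ι → ZMod p) :
    Q1 e f = QQ (Equiv.prodUnique ((ι × Bool) ⊕ Unit) Unit).symm e f := by
  unfold Q1 QQ DD
  refine Finset.sum_congr rfl ?_
  intro x _
  rw [Finset.univ_unique, Finset.prod_singleton]
  rfl

lemma card_one (e : (ι × Bool) ⊕ Unit ≃ Fin p) {s : ℕ} (hps : p = 2 * s + 1) :
    Fintype.card ι = s := by
  have h1 := Fintype.card_congr e
  rw [Fintype.card_sum, Fintype.card_prod, Fintype.card_fin, Fintype.card_bool,
    Fintype.card_unit] at h1
  omega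

lemma Q1_zero (e : (ι × Bool) ⊕ Unit ≃ Fin p) (f : ι → ZMod p) (i : ι) (hi : f i = 0) :
    Q1 e f = 0 := by
  unfold Q1
  apply Finset.sum_eq_zero
  intro x _
  apply vd_eq_zero
  intro hinj
  have h : pos x (fun (_ : Unit) => 0) f (Sum.inl (i, false))
      = pos x (fun (_ : Unit) => 0) f (Sum.inl (i, true)) := by
    simp [pos, hi]
  have := hinj h
  simp at this

theorem Q1_form (e : (ι × Bool) ⊕ Unit ≃ Fin p) {s : ℕ} (hs : 0 < s) (hps : p = 2 * s + 1)
    (f : ι → ZMod p) : Q1 e f = Q1 e (fun _ => 1) * ∏ i, f i := by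
  have hc := card_one e hps
  have hv : ∀ f : ι → ZMod p, (univ.filter fun i => f i ≠ 0).card < s →
      QQ (Equiv.prodUnique ((ι × Bool) ⊕ Unit) Unit).symm e f = 0 := by
    intro f hf
    rw [← Q1_eq]
    by_contra hne
    have : ∀ i, f i ≠ 0 := fun i hi => hne (Q1_zero e f i hi)
    rw [Finset.filter_true_of_mem (fun i _ => this i), Finset.card_univ, hc] at hf
    omega
  have h := QQ_multilinear (Equiv.prodUnique ((ι × Bool) ⊕ Unit) Unit).symm e hs hps hv f
  simp_rw [← Q1_eq] at h
  rw [h, Finset.sum_eq_single (fun _ => true)]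
  · rw [if_pos]
    · unfold mon ind
      simp
    · unfold cnt
      simp [hc]
  · intro ε _ hε
    rw [if_neg]
    intro h1
    apply hε
    have h2 : ∀ i ∈ (univ : Finset ι), (if ε i then 1 else 0) ≤ 1 := by
      intro i _
      split_ifs <;> simp
    have h3 := (Finset.sum_eq_sum_iff_of_le h2).mp (by
      unfold cnt at h1
      rw [h1, Finset.sum_const, Finset.card_univ, hc]
      simp)
    funext i
    have h4 := h3 i (Finset.mem_univ _)
    by_contra h5
    rw [Bool.not_eq_true] at h5
    rw [h5] at h4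
    simp at h4
  · intro h
    exact absurd (Finset.mem_univ _) h

lemma cast_inj {a b : ℕ} (ha : a < p) (hb : b < p) (h : (a : ZMod p) = (b : ZMod p)) : a = b := by
  have := (ZMod.natCast_eq_natCast_iff' a b p).mp h
  rwa [Nat.mod_eq_of_lt ha, Nat.mod_eq_of_lt hb] at this

lemma cover (e : (ι × Bool) ⊕ Unit ≃ Fin p) {s : ℕ} (hps : p = 2 * s + 1) (x : ι → ZMod p)
    (hx : Function.Injective (pos x (fun (_ : Unit) => 0) (fun _ => (1 : ZMod p)))) (m : ℕ) :
    m < s → ∃ i, x i = ((2 * m + 1 : ℕ) : ZMod p) := by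
  have hsurj : Function.Surjective (pos x (fun (_ : Unit) => 0) (fun _ => (1 : ZMod p))) := by
    have := (Fintype.bijective_iff_injective_and_card _).mpr
      ⟨hx, by rw [ZMod.card, Fintype.card_congr e, Fintype.card_fin]⟩
    exact this.2
  induction m with
  | zero =>
    intro hm
    obtain ⟨r, hr⟩ := hsurj ((2 * 0 + 1 : ℕ) : ZMod p)
    rcases r with ⟨i, b⟩ | u
    · cases b
      · exact ⟨i, hr⟩
      · exfalso
        have h1 : x i + 1 = ((2 * 0 + 1 : ℕ) : ZMod p) := hr
        have h2 : x i = 0 := by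
          push_cast at h1
          linear_combination h1
        have h3 := @hx (Sum.inl (i, false)) (Sum.inr ()) h2
        simp at h3
    · exfalso
      have h1 : (0 : ZMod p) = ((2 * 0 + 1 : ℕ) : ZMod p) := hr
      simp at h1
  | succ m ih =>
    intro hm
    obtain ⟨r, hr⟩ := hsurj ((2 * (m + 1) + 1 : ℕ) : ZMod p)
    rcases r with ⟨i, b⟩ | u
    · cases b
      · exact ⟨i, hr⟩
      · exfalso
        have h1 : x i + 1 = ((2 * (m + 1) + 1 : ℕ) : ZMod p) := hr
        obtain ⟨i', hi'⟩ := ih (by omega)
        have h2 : x i = x i' + 1 := by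
          rw [hi']
          push_cast at h1 ⊢
          linear_combination h1
        have h3 := @hx (Sum.inl (i, false)) (Sum.inl (i', true)) h2
        simp at h3
    · exfalso
      have h1 : (0 : ZMod p) = ((2 * (m + 1) + 1 : ℕ) : ZMod p) := hr
      have h2 := cast_inj (p := p) (a := 0) (b := 2 * (m + 1) + 1) (by omega) (by omega)
        (by rw [Nat.cast_zero]; exact h1)
      omega

theorem Q1_one_ne_zero (e : (ι × Bool) ⊕ Unit ≃ Fin p) {s : ℕ} (hps : p = 2 * s + 1) :
    Q1 e (fun _ => 1) ≠ 0 := by
  have hc := card_one e hps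
  obtain ⟨φ⟩ : Nonempty (ι ≃ Fin s) := ⟨Fintype.equivFinOfCardEq hc⟩
  set x0 : ι → ZMod p := fun i => ((2 * (φ i : ℕ) + 1 : ℕ) : ZMod p) with hx0
  have hinj0 : Function.Injective (pos x0 (fun (_ : Unit) => 0) (fun _ => (1 : ZMod p))) := by
    have hval : ∀ r, ∃ t : ℕ, t < p ∧ pos x0 (fun (_ : Unit) => 0) (fun _ => (1 : ZMod p)) r = (t : ZMod p)
        ∧ (∀ i, r = Sum.inl (i, false) → t = 2 * (φ i : ℕ) + 1)
        ∧ (∀ i, r = Sum.inl (i, true) → t = 2 * (φ i : ℕ) + 2)
        ∧ (∀ u, r = Sum.inr u → t = 0) := by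
      intro r
      rcases r with ⟨i, b⟩ | u
      · have := (φ i).isLt
        cases b
        · refine ⟨2 * (φ i : ℕ) + 1, by omega, rfl, ?_, by simp, by simp⟩
          intro i' hi'
          simp at hi'
          rw [hi']
        · refine ⟨2 * (φ i : ℕ) + 2, by omega, ?_, by simp, ?_, by simp⟩
          · simp only [pos, hx0]
            push_cast
            ring
          · intro i' hi'
            simp at hi'
            rw [hi']
      · exact ⟨0, hp.out.pos, by simp [pos], by simp, by simp, by simp⟩
    intro r r' hrr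
    obtain ⟨t, ht, ht1, ht2, ht3, ht4⟩ := hval r
    obtain ⟨t', ht', ht1', ht2', ht3', ht4'⟩ := hval r'
    rw [ht1, ht1'] at hrr
    have htt := cast_inj ht ht' hrr
    subst htt
    rcases r with ⟨i, b⟩ | u <;> rcases r' with ⟨i', b'⟩ | u'
    · cases b <;> cases b'
      · have h1 := ht2 i rfl
        have h2 := ht2' i' rfl
        have h3 : φ i = φ i' := Fin.ext (by omega)
        rw [φ.injective h3]
      · have h1 := ht2 i rfl
        have h2 := ht3' i' rfl
        omega
      · have h1 := ht3 i rfl
        have h2 := ht2' i' rfl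
        omega
      · have h1 := ht3 i rfl
        have h2 := ht3' i' rfl
        have h3 : φ i = φ i' := Fin.ext (by omega)
        rw [φ.injective h3]
    · have h2 := ht4' u' rfl
      cases b
      · have h1 := ht2 i rfl
        omega
      · have h1 := ht3 i rfl
        omega
    · have h2 := ht4 u rfl
      cases b'
      · have h1 := ht2' i' rfl
        omega
      · have h1 := ht3' i' rfl
        omega
    · rfl
  have hsum : Q1 e (fun _ => 1) = ∑ σ : Equiv.Perm ι, vd e (pos x0 (fun _ => 0) (fun _ => 1)) := by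
    unfold Q1
    rw [← Finset.sum_of_injOn (s := (univ : Finset (Equiv.Perm ι)))
      (f := fun _ => vd e (pos x0 (fun _ => 0) (fun _ => 1))) (fun σ i => x0 (σ i))]
    · intro σ _ σ' _ h
      apply Equiv.ext
      intro i
      have h1 := congrFun h i
      simp only at h1
      have h2 := @hinj0 (Sum.inl (σ i, false)) (Sum.inl (σ' i, false)) h1
      simpa using h2
    · intro _ _
      simp
    · intro x _ hx
      apply vd_eq_zero
      intro hinj
      apply hx
      have hcov := fun m : Fin s => cover e hps x hinj (m : ℕ) m.isLt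
      choose g hg using hcov
      have hginj : Function.Injective g := by
        intro m m' h
        have h1 := hg m
        rw [h, hg m'] at h1
        have h2 := cast_inj (p := p) (by have := m'.isLt; omega) (by have := m.isLt; omega) h1
        exact Fin.ext (by omega)
      have hgbij : Function.Bijective g :=
        (Fintype.bijective_iff_injective_and_card g).mpr ⟨hginj, by rw [Fintype.card_fin, hc]⟩
      set G := Equiv.ofBijective g hgbij with hG
      refine ⟨G.symm.trans φ.symm, by simp, ?_⟩
      funext i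
      simp only [hx0, Equiv.trans_apply, Equiv.apply_symm_apply]
      rw [← hg (G.symm i)]
      congr 1
      exact G.apply_symm_apply i
    · intro σ _
      have h1 : pos (fun i => x0 (σ i)) (fun (_ : Unit) => 0) (fun _ => (1 : ZMod p))
          = fun r => pos x0 (fun (_ : Unit) => 0) (fun _ => (1 : ZMod p)) (hat σ r) := by
        funext r
        exact pos_hat σ x0 (fun _ => 1) r
      rw [h1, vd_perm, sign_hat]
      simp
  rw [hsum, Finset.sum_const, Finset.card_univ, Fintype.card_perm, hc, nsmul_eq_mul]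
  apply mul_ne_zero
  · intro h
    rw [ZMod.natCast_eq_zero_iff] at h
    have := (hp.out.dvd_factorial).mp h
    omega
  · exact (vd_ne_zero_iff e _).mpr hinj0

/-- near 1-factors of `Z_p` with prescribed non-zero shifts, avoiding `0`. -/
theorem prime_case (e : (ι × Bool) ⊕ Unit ≃ Fin p) {s : ℕ} (hs : 0 < s) (hps : p = 2 * s + 1)
    (f : ι → ZMod p) (hf : ∀ i, f i ≠ 0) :
    ∃ x : ι → ZMod p, Function.Injective (pos x (fun (_ : Unit) => 0) f) := by
  have h1 : Q1 e f ≠ 0 := by
    rw [Q1_form e hs hps]
    exact mul_ne_zero (Q1_one_ne_zero e hps) (Finset.prod_ne_zero_iff.mpr (fun i _ => hf i))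
  unfold Q1 at h1
  obtain ⟨x, _, hx⟩ := Finset.exists_ne_zero_of_sum_ne_zero h1
  exact ⟨x, (vd_ne_zero_iff e _).mp hx⟩

end Pool.Agent.Helper90.NF
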