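import Pool.Agent.Helper90.NF.CaseOne
import Pool.Agent.Helper90.NF.CaseTwo

/-!
Placements in `Fin 3 × ZMod p`.
-/

set_option autoImplicit false
set_option linter.unusedSectionVars false
set_option linter.unusedDecidableInType false

open Finset

namespace Pool.Agent.Helper90.NF

variable {p : ℕ} [hp : Fact p.Prime]

/-- the slot function of a placement. -/
def slot {ι : Type*} (res : ι → Fin 3) (d : ι → ZMod p) (c : ι → Fin 3) (x : ι → ZMod p)
    (r : ι × Bool) : Fin 3 × ZMod p :=
  (if r.2 then c r.1 + res r.1 else c r.1, if r.2 then x r.1 + d r.1 else x r.1)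

/-- the edges with class differences `res` and shifts `d` can be placed disjointly. -/
def Placed {ι : Type*} (res : ι → Fin 3) (d : ι → ZMod p) : Prop :=
  ∃ (c : ι → Fin 3) (x : ι → ZMod p), Function.Injective (slot res d c x)

lemma Placed.congr {ι ι' : Type*} (e : ι' ≃ ι) {res : ι → Fin 3} {d : ι → ZMod p}
    (h : Placed (fun i => res (e i)) (fun i => d (e i))) : Placed res d := by
  obtain ⟨c, x, hinj⟩ := h
  refine ⟨fun i => c (e.symm i), fun i => x (e.symm i), ?_⟩
  intro r r' hrr
  have h1 : ∀ r : ι × Bool, slot (fun i => res (e i)) (fun i => d (e i)) c x (e.symm r.1, r.2)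
      = slot res d (fun i => c (e.symm i)) (fun i => x (e.symm i)) r := by
    intro r
    simp only [slot, Equiv.apply_symm_apply]
  rw [← h1, ← h1] at hrr
  have h2 := hinj hrr
  simp only [Prod.mk.injEq, EmbeddingLike.apply_eq_iff_eq] at h2
  exact Prod.ext h2.1 h2.2

lemma placed_of_factor {ι K : Type*} {res : ι → Fin 3} {d : ι → ZMod p} (c : ι → Fin 3)
    (x : ι → ZMod p) (H : K → Fin 3 × ZMod p) (m : ι × Bool → K) (hH : Function.Injective H)
    (hm : Function.Injective m) (h : ∀ r, slot res d c x r = H (m r)) : Placed res d := by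
  refine ⟨c, x, ?_⟩
  intro r r' hrr
  rw [h, h] at hrr
  exact hm (hH hrr)

lemma exists_theta {X A B : Type*} [Fintype X] [DecidableEq X] [Fintype A] [Fintype B]
    (cl : X → Bool) (hA : cnt cl = Fintype.card A)
    (hX : Fintype.card X = Fintype.card A + Fintype.card B) :
    ∃ θ : X ≃ A ⊕ B, ∀ x, (θ x).isLeft = cl x := by
  classical
  have h1 : Fintype.card {x // cl x = true} = Fintype.card A := by
    rw [Fintype.card_subtype, ← hA, Finset.card_filter]
    rfl
  have h2 : Fintype.card {x // ¬ cl x = true} = Fintype.card B := by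
    have := Fintype.card_subtype_compl (fun x => cl x = true)
    omega
  obtain ⟨eA⟩ : Nonempty ({x // cl x = true} ≃ A) := ⟨Fintype.equivOfCardEq h1⟩
  obtain ⟨eB⟩ : Nonempty ({x // ¬ cl x = true} ≃ B) := ⟨Fintype.equivOfCardEq h2⟩
  refine ⟨(Equiv.sumCompl (fun x => cl x = true)).symm.trans (Equiv.sumCongr eA eB), ?_⟩
  intro x
  rw [Equiv.trans_apply]
  by_cases hx : cl x = true
  · rw [Equiv.sumCompl_symm_apply_of_pos (p := fun x => cl x = true) hx, hx]
    rfl
  · rw [Equiv.sumCompl_symm_apply_of_neg (p := fun x => cl x = true) hx]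
    rw [Bool.not_eq_true] at hx
    rw [hx]
    rfl

/-- few loops. -/
theorem placed_one {s : ℕ} (hps : p = 2 * s + 1) (hp5 : 5 ≤ p) {N L : Type*} [Fintype N]
    [DecidableEq N] [Fintype L] [DecidableEq L] (f : N → ZMod p) (g : L → ZMod p)
    (hcard : Fintype.card N + Fintype.card L = 3 * s + 1) (hL : Fintype.card L ≤ s)
    (hg : ∀ l, g l ≠ 0) (hf : (univ.filter fun i => f i = 0).card ≤ p) :
    Placed (Sum.elim (fun _ : N => (1 : Fin 3)) (fun _ : L => 0)) (Sum.elim f g) := by
  set l := Fintype.card L with hl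
  obtain ⟨j, hj⟩ : ∃ j, j + l = s := ⟨s - l, by omega⟩
  obtain ⟨eL⟩ : Nonempty (L ≃ Fin l) := ⟨Fintype.equivFinOfCardEq hl.symm⟩
  -- the classes of the last slots
  set t0 : Bool := decide (l % 2 = 0) with ht0
  set hcl : L → Bool := fun i => decide (l / 2 ≤ (eL i : ℕ)) with hhcl
  set cl : RS (Fin j) L → Bool := fun r => match r with
    | Sum.inl (Sum.inl _, b) => b
    | Sum.inl (Sum.inr i, _) => hcl i
    | Sum.inr _ => t0 with hcldef
  have hcnt1 : cnt hcl = l - l / 2 := by
    unfold cnt
    rw [← Equiv.sum_comp eL.symm]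
    have h1 : ∀ k : Fin l, (if hcl (eL.symm k) = true then 1 else 0)
        = if l / 2 ≤ (k : ℕ) then 1 else 0 := by
      intro k
      simp only [hhcl, Equiv.apply_symm_apply, decide_eq_true_eq]
    simp_rw [h1]
    rw [← Finset.card_filter]
    have h2 := Finset.card_filter_add_card_filter_not (s := (univ : Finset (Fin l)))
      (fun k => (k : ℕ) < l / 2)
    rw [Fin.card_filter_val_lt, Finset.card_univ, Fintype.card_fin] at h2
    have h3 : (univ.filter fun k : Fin l => l / 2 ≤ (k : ℕ))
        = univ.filter fun k : Fin l => ¬ (k : ℕ) < l / 2 := by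
      apply Finset.filter_congr
      intro k _
      omega
    rw [h3]
    omega
  have hcnt : cnt cl = Fintype.card (Option (Fin s)) := by
    unfold cnt
    rw [Fintype.sum_sum_type, Fintype.sum_prod_type, Fintype.sum_sum_type, Fintype.card_option,
      Fintype.card_fin]
    have h1 : ∀ c : Fin j, ∑ b : Bool, (if cl (Sum.inl (Sum.inl c, b)) = true then 1 else 0) = 1 := by
      intro c
      rw [Fintype.sum_bool]
      simp [hcldef]
    have h2 : ∀ i : L, ∑ b : Bool, (if cl (Sum.inl (Sum.inr i, b)) = true then 1 else 0)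
        = 2 * (if hcl i = true then 1 else 0) := by
      intro i
      rw [Fintype.sum_bool]
      simp only [hcldef]
      split_ifs <;> rfl
    simp_rw [h1, h2]
    rw [← Finset.mul_sum]
    have h3 : ∑ i, (if hcl i = true then 1 else 0) = l - l / 2 := hcnt1
    rw [h3]
    simp only [Finset.sum_const, Finset.card_univ, Fintype.card_fin, smul_eq_mul, mul_one,
      Fintype.card_unit, hcldef, ht0, decide_eq_true_eq]
    split_ifs <;> omega
  have hX : Fintype.card (RS (Fin j) L)
      = Fintype.card (Option (Fin s)) + Fintype.card (Fin s) := by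
    rw [Fintype.card_sum, Fintype.card_prod, Fintype.card_sum, Fintype.card_option,
      Fintype.card_fin, Fintype.card_fin, Fintype.card_bool, Fintype.card_unit, ← hl]
    omega
  obtain ⟨θ, hθ⟩ := exists_theta cl hcnt hX
  obtain ⟨e⟩ : Nonempty (Option (Fin s) ⊕ Fin s ≃ Fin p) := ⟨Fintype.equivFinOfCardEq (by
    rw [Fintype.card_sum, Fintype.card_option, Fintype.card_fin]; omega)⟩
  obtain ⟨eN⟩ : Nonempty (I3 (Fin s) (Fin j) ≃ N) := ⟨Fintype.equivOfCardEq (by
    rw [Fintype.card_sum, Fintype.card_sum, Fintype.card_option, Fintype.card_fin,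
      Fintype.card_fin]; omega)⟩
  have hC1 : ∀ c, (θ (Sum.inl (Sum.inl c, false))).isLeft = false := fun c => hθ _
  have hC2 : ∀ c, (θ (Sum.inl (Sum.inl c, true))).isLeft = true := fun c => hθ _
  have hL1 : ∀ l, (θ (Sum.inl (Sum.inr l, true))).isLeft
      = (θ (Sum.inl (Sum.inr l, false))).isLeft := fun l => by rw [hθ, hθ]
  have hF : (univ.filter fun i => f (eN i) = 0).card ≤ p := by
    refine le_trans (le_of_eq ?_) hf
    apply Finset.card_bij (fun i _ => eN i)
    · intro i hi
      rw [Finset.mem_filter] at hi ⊢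
      exact ⟨Finset.mem_univ _, hi.2⟩
    · intro i _ i' _ h
      exact eN.injective h
    · intro i hi
      rw [Finset.mem_filter] at hi
      exact ⟨eN.symm i, by rw [Finset.mem_filter]; simpa using hi.2, by simp⟩
  obtain ⟨σ, x, hinj⟩ := case_one θ e hps (by omega) (by rw [Fintype.card_fin])
    (Fintype.card_fin j) (by rw [← hl]; exact hj) hC1 hC2 hL1 hp5 (fun i => f (eN i)) g hg hF
  -- first for all edges
  have hres : ∀ i : Io (Fin s) (Fin j) L, (S3 θ (Sum.inl (i, true))).2
      = (S3 θ (Sum.inl (i, false))).2 + comb (fun _ => (1 : Fin 3)) (fun _ => 0) i := by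
    rintro (a | b | c | l)
    · rfl
    · change (0 : Fin 3) = 2 + 1
      rfl
    · have h1 := cls_S (β := Fin s) θ (Sum.inl (Sum.inl c, true))
      have h2 := cls_S (β := Fin s) θ (Sum.inl (Sum.inl c, false))
      rw [hC2] at h1
      rw [hC1] at h2
      have h3 : (S3 θ (Sum.inl (Sum.inr (Sum.inr (Sum.inl c)), true))).2 = 2 := h1
      have h4 : (S3 θ (Sum.inl (Sum.inr (Sum.inr (Sum.inl c)), false))).2 = 1 := h2
      rw [h3, h4]
      rfl
    · have h1 := cls_S (β := Fin s) θ (Sum.inl (Sum.inr l, true))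
      have h2 := cls_S (β := Fin s) θ (Sum.inl (Sum.inr l, false))
      rw [hL1, ← h2] at h1
      have h3 : (S3 θ (Sum.inl (Sum.inr (Sum.inr (Sum.inr l)), true))).2
        = (S3 θ (Sum.inl (Sum.inr (Sum.inr (Sum.inr l)), false))).2 := h1
      rw [h3]
      change _ = _ + (0 : Fin 3)
      rw [add_zero]
  have hP : Placed (comb (fun _ => (1 : Fin 3)) (fun _ => 0))
      (comb (fun i => f (eN (σ i))) g : Io (Fin s) (Fin j) L → ZMod p) := by
    apply placed_of_factor (fun i => (S3 θ (Sum.inl (i, false))).2) x _ Sum.inl hinj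
      Sum.inl_injective
    rintro ⟨i, b⟩
    cases b
    · rfl
    · simp only [slot, if_true]
      rw [← hres]
      rfl
  apply Placed.congr ((regroup (β := Fin s) (C := Fin j) (L := L)).trans
    (Equiv.sumCongr (σ.trans eN) (Equiv.refl L)))
  have h1 : (fun i => Sum.elim (fun _ : N => (1 : Fin 3)) (fun _ : L => 0)
      ((regroup.trans (Equiv.sumCongr (σ.trans eN) (Equiv.refl L))) i))
      = comb (fun _ => (1 : Fin 3)) (fun _ => 0) := by
    funext i
    rcases i with a | b | c | l <;> rfl
  have h2 : (fun i => Sum.elim f g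
      ((regroup.trans (Equiv.sumCongr (σ.trans eN) (Equiv.refl L))) i))
      = comb (fun i => f (eN (σ i))) g := by
    funext i
    rcases i with a | b | c | l <;> rfl
  rw [h1, h2]
  exact hP

/-- near 1-factors of `Z_p` avoiding one vertex. -/
lemma prime_fin {s : ℕ} (hps : p = 2 * s + 1) (hs : 0 < s) (g : Fin s → ZMod p)
    (hg : ∀ i, g i ≠ 0) :
    ∃ x : Fin s → ZMod p, Function.Injective (pos x (fun (_ : Unit) => 0) g) := by
  obtain ⟨e⟩ : Nonempty ((Fin s × Bool) ⊕ Unit ≃ Fin p) := ⟨Fintype.equivFinOfCardEq (by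
    rw [Fintype.card_sum, Fintype.card_prod, Fintype.card_fin, Fintype.card_bool,
      Fintype.card_unit]; omega)⟩
  exact prime_case e hs hps g hg

/-- all loops but one edge. -/
theorem placed_three {s : ℕ} (hps : p = 2 * s + 1) (hs : 0 < s) {N L : Type*} [Fintype N]
    [DecidableEq N] [Fintype L] [DecidableEq L] (f : N → ZMod p) (g : L → ZMod p)
    (hN : Fintype.card N = 1) (hL : Fintype.card L = 3 * s) (hg : ∀ l, g l ≠ 0) :
    Placed (Sum.elim (fun _ : N => (1 : Fin 3)) (fun _ : L => 0)) (Sum.elim f g) := by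
  obtain ⟨eN⟩ : Nonempty (Unit ≃ N) := ⟨Fintype.equivOfCardEq (by rw [hN, Fintype.card_unit])⟩
  obtain ⟨eL⟩ : Nonempty (Fin 3 × Fin s ≃ L) := ⟨Fintype.equivOfCardEq (by
    rw [hL, Fintype.card_prod, Fintype.card_fin, Fintype.card_fin])⟩
  apply Placed.congr (Equiv.sumCongr eN eL)
  have hx := fun k : Fin 3 => prime_fin hps hs (fun i => g (eL (k, i))) (fun i => hg _)
  choose x hx using hx
  set t : Fin 3 → ZMod p := fun k => if k = 1 then f (eN ()) else 0 with ht
  apply placed_of_factor (K := Fin 3 × ((Fin s × Bool) ⊕ Unit))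
    (Sum.elim (fun _ => 0) (fun ki => ki.1)) (Sum.elim (fun _ => 0) (fun ki => x ki.1 ki.2 + t ki.1))
    (fun kr => (kr.1, pos (x kr.1) (fun (_ : Unit) => 0) (fun i => g (eL (kr.1, i))) kr.2 + t kr.1))
    (fun r => match r with
      | (Sum.inl _, false) => (0, Sum.inr ())
      | (Sum.inl _, true) => (1, Sum.inr ())
      | (Sum.inr ki, b) => (ki.1, Sum.inl (ki.2, b)))
  · rintro ⟨k, r⟩ ⟨k', r'⟩ h
    have h1 := (Prod.ext_iff.mp h).1
    have h2 := (Prod.ext_iff.mp h).2
    simp only at h1 h2
    subst h1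
    have h3 := add_right_cancel h2
    rw [hx k h3]
  · rintro ⟨a | ki, b⟩ ⟨a' | ki', b'⟩ h
    · cases b <;> cases b' <;> simp at h <;> rfl
    · cases b <;> simp at h
    · cases b' <;> simp at h
    · simp only [Prod.mk.injEq, Sum.inl.injEq] at h
      rw [Prod.ext h.1 h.2.1, h.2.2]
  · rintro ⟨a | ki, b⟩
    · cases b
      · simp [slot, pos, ht]
      · simp [slot, pos, ht]
    · cases b
      · rfl
      · simp only [slot, pos, if_true, Sum.elim_inr, Equiv.sumCongr_apply, Sum.map_inr]
        refine Prod.ext ?_ ?_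
        · simp
        · simp only
          ring

/-- many loops. -/
theorem placed_two {s q : ℕ} (hps : p = 2 * s + 1) (hs : 0 < s) (hq : q < p - 1) {N L : Type*}
    [Fintype N] [DecidableEq N] [Fintype L] [DecidableEq L] (f : N → ZMod p) (g : L → ZMod p)
    (hN : Fintype.card N = p - q) (hL : Fintype.card L = s + q) (hg : ∀ l, g l ≠ 0) :
    Placed (Sum.elim (fun _ : N => (1 : Fin 3)) (fun _ : L => 0)) (Sum.elim f g) := by
  obtain ⟨eN⟩ : Nonempty (Unit ⊕ Fin (p - 1 - q) ≃ N) := ⟨Fintype.equivOfCardEq (by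
    rw [hN, Fintype.card_sum, Fintype.card_unit, Fintype.card_fin]; omega)⟩
  obtain ⟨eL⟩ : Nonempty (Fin s ⊕ Fin q ≃ L) := ⟨Fintype.equivOfCardEq (by
    rw [hL, Fintype.card_sum, Fintype.card_fin, Fintype.card_fin])⟩
  apply Placed.congr (Equiv.sumCongr eN eL)
  obtain ⟨x1, hx1⟩ := prime_fin hps hs (fun i => g (eL (Sum.inl i))) (fun i => hg _)
  set f2 : Fin (p - 1) → ZMod p := fun i =>
    if h : (i : ℕ) < q then g (eL (Sum.inr ⟨i, h⟩)) else
      f (eN (Sum.inr ⟨(i : ℕ) - q, by have := i.isLt; omega⟩)) with hf2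
  obtain ⟨x2, z, _, hx2⟩ := case_two_core (q := q) hps hq f2 (by
    intro i hi
    simp only [hf2]
    rw [dif_pos (show (i : ℕ) < q by omega)]
    exact hg _)
  set em : Fin q → Fin (p - 1) := fun i => ⟨i, by have := i.isLt; omega⟩ with hem
  set en : Fin (p - 1 - q) → Fin (p - 1) := fun i => ⟨q + i, by have := i.isLt; omega⟩ with hen
  have hfm : ∀ i, f2 (em i) = g (eL (Sum.inr i)) := by
    intro i
    simp only [hf2, hem]
    rw [dif_pos i.isLt]
  have hfn : ∀ i, f2 (en i) = f (eN (Sum.inr i)) := by
    intro i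
    simp only [hf2, hen]
    rw [dif_neg (by omega)]
    congr 3
    exact Fin.ext (by simp)
  set f0 := f (eN (Sum.inl ())) with hf0
  set τ1 : ZMod p := if q % 2 = 0 then z false + f0 else z false - f0 with hτ1
  set cv : ℕ → Fin 3 := fun n => if n = 0 then 0 else 2 with hcv
  have hcl01 : ∀ r : R2 p, cl p q r = 0 ∨ cl p q r = 1 := by
    rintro (⟨i, b⟩ | w)
    · cases b <;> simp only [cl] <;> split_ifs <;> omega
    · cases w
      · exact Nat.mod_two_eq_zero_or_one q
      · exact Or.inr rfl
  apply placed_of_factor (K := ((Fin s × Bool) ⊕ Unit) ⊕ R2 p)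
    (Sum.elim (Sum.elim (fun _ : Unit => if q % 2 = 0 then 0 else 1)
        (fun _ : Fin (p - 1 - q) => 2))
      (Sum.elim (fun _ : Fin s => 1) (fun i : Fin q => cv ((i : ℕ) % 2))))
    (Sum.elim (Sum.elim (fun _ : Unit => if q % 2 = 0 then z false else z false - f0)
        (fun i : Fin (p - 1 - q) => x2 (en i)))
      (Sum.elim (fun i : Fin s => x1 i + τ1) (fun i : Fin q => x2 (em i))))
    (fun r => match r with
      | Sum.inl r1 => (1, pos x1 (fun (_ : Unit) => 0) (fun i => g (eL (Sum.inl i))) r1 + τ1)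
      | Sum.inr r2 => (cv (cl p q r2), pos x2 z f2 r2))
    (fun r => match r with
      | (Sum.inl (Sum.inl _), b) => if q % 2 = 0 then
          (if b then Sum.inl (Sum.inr ()) else Sum.inr (Sum.inr false))
          else (if b then Sum.inr (Sum.inr false) else Sum.inl (Sum.inr ()))
      | (Sum.inl (Sum.inr i), b) => Sum.inr (Sum.inl (en i, b))
      | (Sum.inr (Sum.inl i), b) => Sum.inl (Sum.inl (i, b))
      | (Sum.inr (Sum.inr i), b) => Sum.inr (Sum.inl (em i, b)))
  · rintro (r | r) (r' | r') h
    · simp only [Prod.mk.injEq, true_and] at h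
      rw [hx1 (add_right_cancel h)]
    · exfalso
      have h1 := (Prod.ext_iff.mp h).1
      simp only [hcv] at h1
      split_ifs at h1
      · exact absurd h1 (by decide)
      · exact absurd h1 (by decide)
    · exfalso
      have h1 := (Prod.ext_iff.mp h).1
      simp only [hcv] at h1
      split_ifs at h1
      · exact absurd h1 (by decide)
      · exact absurd h1 (by decide)
    · simp only [Prod.mk.injEq] at h
      have h1 : cl p q r = cl p q r' := by
        have h2 := h.1
        simp only [hcv] at h2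
        rcases hcl01 r with h3 | h3 <;> rcases hcl01 r' with h4 | h4
        · rw [h3, h4]
        · rw [h3, h4] at h2
          exact absurd h2 (by decide)
        · rw [h3, h4] at h2
          exact absurd h2 (by decide)
        · rw [h3, h4]
      have h2 := @hx2 r r' (Prod.ext h1 h.2)
      rw [h2]
  · have hmn : ∀ (i : Fin q) (i' : Fin (p - 1 - q)), em i ≠ en i' := by
      intro i i' h
      have := congrArg Fin.val h
      simp only [hem, hen] at this
      have := i.isLt
      omega
    have hmi : Function.Injective em := by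
      intro i i' h
      have := congrArg Fin.val h
      simp only [hem] at this
      exact Fin.ext this
    have hni : Function.Injective en := by
      intro i i' h
      have := congrArg Fin.val h
      simp only [hen] at this
      exact Fin.ext (by omega)
    rintro ⟨(a | i) | (i | i), b⟩ ⟨(a' | i') | (i' | i'), b'⟩ h <;> simp only at h
    · split_ifs at h <;> simp_all
    · split_ifs at h <;> simp at h
    · split_ifs at h <;> simp at h
    · split_ifs at h <;> simp at h
    · split_ifs at h <;> simp at h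
    · simp only [Sum.inr.injEq, Sum.inl.injEq, Prod.mk.injEq] at h
      rw [hni h.1, h.2]
    · simp at h
    · simp only [Sum.inr.injEq, Sum.inl.injEq, Prod.mk.injEq] at h
      exact absurd h.1.symm (hmn _ _)
    · split_ifs at h <;> simp at h
    · simp at h
    · simp only [Sum.inl.injEq, Prod.mk.injEq] at h
      rw [h.1, h.2]
    · simp at h
    · split_ifs at h <;> simp at h
    · simp only [Sum.inr.injEq, Sum.inl.injEq, Prod.mk.injEq] at h
      exact absurd h.1 (hmn _ _)
    · simp at h
    · simp only [Sum.inr.injEq, Sum.inl.injEq, Prod.mk.injEq] at h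
      rw [hmi h.1, h.2]
  · rintro ⟨(a | i) | (i | i), b⟩
    · rcases Nat.mod_two_eq_zero_or_one q with h1 | h1
      · cases b
        · simp [slot, pos, h1, hcv, cl]
        · simp [slot, pos, h1, hτ1, hf0]
      · have h1' : ¬ q % 2 = 0 := by omega
        cases b
        · simp [slot, pos, h1', hτ1]
        · simp only [slot, pos, if_neg h1', hcv, cl, if_true, Sum.elim_inl, Equiv.sumCongr_apply,
            Sum.map_inl]
          refine Prod.ext ?_ ?_
          · rfl
          · simp [hf0]
    · have hnq : ¬ ((en i : Fin (p - 1)) : ℕ) + 1 ≤ q := by simp only [hen]; omega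
      cases b
      · simp only [slot, pos, hcv, cl, if_neg hnq]
        rfl
      · simp only [slot, pos, hcv, cl, if_neg hnq, if_true, Sum.elim_inl, Sum.elim_inr,
          Equiv.sumCongr_apply, Sum.map_inl, hfn]
        refine Prod.ext ?_ ?_
        · rfl
        · rfl
    · cases b
      · rfl
      · simp only [slot, pos, if_true, Sum.elim_inl, Sum.elim_inr, Equiv.sumCongr_apply,
          Sum.map_inr]
        refine Prod.ext ?_ ?_
        · simp
        · simp only
          ring
    · have hmq : ((em i : Fin (p - 1)) : ℕ) + 1 ≤ q := by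
        simp only [hem]; have := i.isLt; omega
      cases b
      · simp only [slot, pos, cl, if_pos hmq]
        rfl
      · simp only [slot, pos, cl, if_pos hmq, if_true, Sum.elim_inr,
          Equiv.sumCongr_apply, Sum.map_inr, hfm]
        refine Prod.ext ?_ ?_
        · simp only [add_zero]
          rfl
        · rfl

/-- the placement theorem. -/
theorem placed_sum {s : ℕ} (hps : p = 2 * s + 1) (hp5 : 5 ≤ p) {N L : Type*} [Fintype N]
    [DecidableEq N] [Fintype L] [DecidableEq L] (f : N → ZMod p) (g : L → ZMod p)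
    (hcard : Fintype.card N + Fintype.card L = 3 * s + 1) (hL : Fintype.card L ≤ 3 * s)
    (hg : ∀ l, g l ≠ 0) (hf : (univ.filter fun i => f i = 0).card ≤ p) :
    Placed (Sum.elim (fun _ : N => (1 : Fin 3)) (fun _ : L => 0)) (Sum.elim f g) := by
  rcases Nat.lt_or_ge s (Fintype.card L) with h | h
  · rcases Nat.lt_or_ge (Fintype.card L) (3 * s) with h1 | h1
    · exact placed_two (q := Fintype.card L - s) hps (by omega) (by omega) f g (by omega)
        (by omega) hg
    · exact placed_three hps (by omega) f g (by omega) (by omega) hg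
  · exact placed_one hps hp5 f g hcard h hg hf

end Pool.Agent.Helper90.NF
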