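import Pool.Agent.Helper90.NF.One

/-!
The case of three classes.
-/

set_option autoImplicit false
set_option linter.unusedSectionVars false
set_option linter.unusedDecidableInType false

open Finset

namespace Pool.Agent.Helper90.NF

section General

variable {p : ℕ} [hp : Fact p.Prime] {R α κ : Type*} [Fintype R] [DecidableEq R] [Fintype α]
  [DecidableEq α] [Fintype κ] [DecidableEq κ]

lemma DD_gauge (S : R ≃ α × κ) (e : α ≃ Fin p) (u : R → ZMod p) (t : κ → ZMod p) :
    DD S e (fun r => u r + t (S r).2) = DD S e u := by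
  unfold DD
  refine Finset.prod_congr rfl ?_
  intro c _
  rw [← vd_add e (fun a => u (S.symm (a, c))) (t c)]
  simp only [Equiv.apply_symm_apply]

lemma DD_perm (S : R ≃ α × κ) (e : α ≃ Fin p) (u : R → ZMod p) (ρ : Equiv.Perm R)
    (hρ : ∀ r, (S (ρ r)).2 = (S r).2) :
    DD S e (fun r => u (ρ r)) = ((Equiv.Perm.sign ρ : ℤ) : ZMod p) * DD S e u := by
  have hρ' : ∀ r, (S (ρ.symm r)).2 = (S r).2 := by
    intro r
    have := hρ (ρ.symm r)
    rw [Equiv.apply_symm_apply] at this
    exact this.symm
  have key : ∀ (a : α) (c : κ), ρ (S.symm (a, c)) = S.symm ((S (ρ (S.symm (a, c)))).1, c) := by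
    intro a c
    rw [Equiv.eq_symm_apply]
    refine Prod.ext rfl ?_
    rw [hρ]
    simp
  have key' : ∀ (a : α) (c : κ), ρ.symm (S.symm (a, c))
      = S.symm ((S (ρ.symm (S.symm (a, c)))).1, c) := by
    intro a c
    rw [Equiv.eq_symm_apply]
    refine Prod.ext rfl ?_
    rw [hρ']
    simp
  let ρc : κ → Equiv.Perm α := fun c =>
    { toFun := fun a => (S (ρ (S.symm (a, c)))).1
      invFun := fun a => (S (ρ.symm (S.symm (a, c)))).1
      left_inv := by
        intro a
        simp only
        rw [← key, Equiv.symm_apply_apply, Equiv.apply_symm_apply]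
      right_inv := by
        intro a
        simp only
        rw [← key', Equiv.apply_symm_apply, Equiv.apply_symm_apply] }
  have h1 : S.permCongr ρ = Equiv.prodCongrLeft ρc := by
    ext x
    · rcases x with ⟨a, c⟩
      simp [Equiv.permCongr_apply, ρc]
    · rcases x with ⟨a, c⟩
      rw [Equiv.permCongr_apply, key]
      simp
  have h2 : Equiv.Perm.sign ρ = ∏ c, Equiv.Perm.sign (ρc c) := by
    rw [← Equiv.Perm.sign_permCongr S, h1, Equiv.Perm.sign_prodCongrLeft]
  rw [h2]
  unfold DD
  push_cast
  rw [← Finset.prod_mul_distrib]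
  refine Finset.prod_congr rfl ?_
  intro c _
  rw [← vd_perm e (fun a => u (S.symm (a, c))) (ρc c)]
  congr 1
  funext a
  rw [key]
  rfl

end General

section Gen2

variable {p : ℕ} [hp : Fact p.Prime] {ι α κ : Type*} [Fintype ι] [DecidableEq ι] [Fintype α]
  [DecidableEq α] [Fintype κ] [DecidableEq κ]

lemma QQ_perm (S : (ι × Bool) ⊕ Unit ≃ α × κ) (e : α ≃ Fin p) (f : ι → ZMod p)
    (σ : Equiv.Perm ι)
    (hσ : ∀ i b, (S (Sum.inl (σ i, b))).2 = (S (Sum.inl (i, b))).2) :
    QQ S e (fun i => f (σ i)) = QQ S e f := by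
  unfold QQ
  have h1 : ∀ x : ι → ZMod p, DD S e (pos (fun i => x (σ i)) (fun _ => 0) (fun i => f (σ i)))
      = DD S e (pos x (fun _ => 0) f) := by
    intro x
    have h2 : pos (fun i => x (σ i)) (fun (_ : Unit) => 0) (fun i => f (σ i))
        = fun r => pos x (fun (_ : Unit) => 0) f (hat σ r) := by
      funext r
      exact pos_hat σ x f r
    rw [h2, DD_perm, sign_hat]
    · simp
    · intro r
      rcases r with ⟨i, b⟩ | u
      · exact hσ i b
      · rfl
  rw [← Equiv.sum_comp (Equiv.arrowCongr σ.symm (Equiv.refl (ZMod p)))]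
  refine Finset.sum_congr rfl ?_
  intro x _
  rw [← h1 x]
  rfl

lemma QQ_gauge (S : (ι × Bool) ⊕ Unit ≃ α × κ) (e : α ≃ Fin p) (f : ι → ZMod p)
    (t : κ → ZMod p) (ht : t (S (Sum.inr ())).2 = 0) :
    QQ S e (fun i => f i + t (S (Sum.inl (i, true))).2 - t (S (Sum.inl (i, false))).2)
      = QQ S e f := by
  unfold QQ
  rw [← Equiv.sum_comp (Equiv.addRight (fun i => t (S (Sum.inl (i, false))).2))]
  refine Finset.sum_congr rfl ?_
  intro x _
  rw [← DD_gauge S e (pos x (fun _ => 0) f) t]
  congr 1
  funext r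
  rcases r with ⟨i, b⟩ | u
  · cases b
    · rfl
    · simp only [pos, Equiv.coe_addRight, Pi.add_apply]
      ring
  · simp only [pos]
    rw [ht]
    simp

/-- if all three classes are pairwise linked, few edges can have shift zero. -/
lemma QQ_vanish (S : (ι × Bool) ⊕ Unit ≃ α × Fin 3) (e : α ≃ Fin p) {s : ℕ}
    (hps : p = 2 * s + 1)
    (hcls : ∀ i, (S (Sum.inl (i, true))).2 = (S (Sum.inl (i, false))).2 + 1 ∨
      (S (Sum.inl (i, true))).2 = (S (Sum.inl (i, false))).2)
    (f : ι → ZMod p) (hf : (univ.filter fun i => f i ≠ 0).card < s) : QQ S e f = 0 := by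
  by_contra hne
  unfold QQ at hne
  obtain ⟨x, _, hx⟩ := Finset.exists_ne_zero_of_sum_ne_zero hne
  have hinj := DD_inj S e _ hx
  have hcard : Fintype.card ι = 3 * s + 1 := by
    have h1 := Fintype.card_congr S
    rw [Fintype.card_sum, Fintype.card_prod, Fintype.card_prod, Fintype.card_congr e,
      Fintype.card_fin, Fintype.card_bool, Fintype.card_unit, Fintype.card_fin] at h1
    omega
  have h1 := Finset.card_filter_add_card_filter_not (s := (univ : Finset ι)) (fun i => f i ≠ 0)
  rw [Finset.card_univ, hcard] at h1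
  have h2 : (univ : Finset (ZMod p)).card < (univ.filter fun i => ¬ f i ≠ 0).card := by
    rw [Finset.card_univ, ZMod.card]
    omega
  obtain ⟨i, hi, j, hj, hij, hxx⟩ := Finset.exists_ne_map_eq_of_card_lt_of_maps_to h2
    (f := x) (fun _ _ => Finset.mem_univ _)
  rw [Finset.mem_filter] at hi hj
  have hi0 : f i = 0 := by simpa using hi.2
  have hj0 : f j = 0 := by simpa using hj.2
  have hcl : ∀ k, f k = 0 → (S (Sum.inl (k, true))).2 = (S (Sum.inl (k, false))).2 + 1 := by
    intro k hk
    rcases hcls k with h | h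
    · exact h
    · exfalso
      have h3 : (Sum.inl (k, true) : (ι × Bool) ⊕ Unit) = Sum.inl (k, false) := by
        apply hinj
        refine Prod.ext h ?_
        simp [pos, hk]
      simp at h3
  have hci := hcl i hi0
  have hcj := hcl j hj0
  have htri : ∀ a b : Fin 3, a = b ∨ a + 1 = b ∨ a = b + 1 := by decide
  rcases htri (S (Sum.inl (i, false))).2 (S (Sum.inl (j, false))).2 with h | h | h
  · have h3 : (Sum.inl (i, false) : (ι × Bool) ⊕ Unit) = Sum.inl (j, false) := by
      apply hinj
      refine Prod.ext h ?_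
      simpa [pos] using hxx
    simp at h3
    exact hij h3
  · have h3 : (Sum.inl (i, true) : (ι × Bool) ⊕ Unit) = Sum.inl (j, false) := by
      apply hinj
      refine Prod.ext (hci.trans h) ?_
      simpa [pos, hi0] using hxx
    simp at h3
  · have h3 : (Sum.inl (i, false) : (ι × Bool) ⊕ Unit) = Sum.inl (j, true) := by
      apply hinj
      refine Prod.ext (h.trans hcj.symm) ?_
      simpa [pos, hj0] using hxx
    simp at h3

end Gen2

section Compl

variable {A B F : Type*} [Fintype A] [Fintype B] [Fintype F] [DecidableEq A] [DecidableEq B]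

lemma compl_left (hc : Fintype.card A + Fintype.card B = Fintype.card F) (u u' : A → F)
    (v : B → F) (h : Function.Injective (Sum.elim u v)) (h' : Function.Injective (Sum.elim u' v)) :
    ∃ σ : Equiv.Perm A, u' = fun a => u (σ a) := by
  have hb : Function.Bijective (Sum.elim u v) :=
    (Fintype.bijective_iff_injective_and_card _).mpr ⟨h, by rw [Fintype.card_sum, hc]⟩
  have h1 : ∀ a, ∃ a', u a' = u' a := by
    intro a
    obtain ⟨r, hr⟩ := hb.2 (u' a)
    rcases r with a' | b
    · exact ⟨a', hr⟩
    · exfalso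
      have h2 : Sum.elim u' v (Sum.inr b) = Sum.elim u' v (Sum.inl a) := hr
      have := h' h2
      simp at this
  choose g hg using h1
  have hgi : Function.Injective g := by
    intro a a' haa
    have h2 : u' a = u' a' := by rw [← hg a, ← hg a', haa]
    have h3 : Sum.elim u' v (Sum.inl a) = Sum.elim u' v (Sum.inl a') := h2
    simpa using h' h3
  exact ⟨Equiv.ofBijective g (Finite.injective_iff_bijective.mp hgi), funext fun a => (hg a).symm⟩

lemma swap_inj (u : A → F) (v : B → F) (h : Function.Injective (Sum.elim u v)) :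
    Function.Injective (Sum.elim v u) := by
  have : Sum.elim v u = Sum.elim u v ∘ Sum.swap := by
    funext x
    rcases x with x | x <;> rfl
  rw [this]
  exact h.comp (Equiv.sumComm B A).injective

lemma compl_right (hc : Fintype.card A + Fintype.card B = Fintype.card F) (u : A → F)
    (v v' : B → F) (h : Function.Injective (Sum.elim u v)) (h' : Function.Injective (Sum.elim u v')) :
    ∃ σ : Equiv.Perm B, v' = fun a => v (σ a) :=
  compl_left (by omega) v v' u (swap_inj _ _ h) (swap_inj _ _ h')

lemma compl_exists (hc : Fintype.card A + Fintype.card B = Fintype.card F)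
    (v : B → F) (h : Function.Injective v) : ∃ u : A → F, Function.Injective (Sum.elim u v) := by
  classical
  have h1 : Fintype.card {x : F // x ∉ Set.range v} = Fintype.card A := by
    have h2 := Fintype.card_subtype_compl (fun x : F => x ∈ Set.range v)
    have h3 : Fintype.card {x : F // x ∈ Set.range v} = Fintype.card B :=
      Fintype.card_congr (Equiv.ofInjective v h).symm
    rw [h3] at h2
    have h4 : Fintype.card {x : F // x ∉ Set.range v} = Fintype.card {x : F // ¬ x ∈ Set.range v} := rfl
    omega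
  obtain ⟨φ⟩ : Nonempty (A ≃ {x : F // x ∉ Set.range v}) := ⟨Fintype.equivOfCardEq h1.symm⟩
  refine ⟨fun a => (φ a : F), ?_⟩
  intro r r' hrr
  rcases r with a | b <;> rcases r' with a' | b'
  · have : φ a = φ a' := Subtype.ext hrr
    rw [φ.injective this]
  · exfalso
    exact (φ a).2 ⟨b', hrr.symm⟩
  · exfalso
    exact (φ a').2 ⟨b, hrr⟩
  · have : v b = v b' := hrr
    rw [h this]

end Compl

section Elim

variable {p : ℕ} [hp : Fact p.Prime] {A B : Type*} [Fintype A] [Fintype B] [DecidableEq A]
  [DecidableEq B]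

lemma elim_perm_left (u : A → ZMod p) (v : B → ZMod p) (σ : Equiv.Perm A) (e : A ⊕ B ≃ Fin p) :
    vd e (Sum.elim (fun a => u (σ a)) v) = ((Equiv.Perm.sign σ : ℤ) : ZMod p) *
      vd e (Sum.elim u v) := by
  have h := vd_perm e (Sum.elim u v) (Equiv.sumCongr σ (Equiv.refl B))
  rw [Equiv.Perm.sign_sumCongr] at h
  have h1 : (Equiv.Perm.sign (Equiv.refl B)) = 1 := Equiv.Perm.sign_refl
  rw [h1, mul_one] at h
  rw [← h]
  congr 1
  funext x
  rcases x with x | x <;> rfl

lemma elim_perm_right (u : A → ZMod p) (v : B → ZMod p) (σ : Equiv.Perm B) (e : A ⊕ B ≃ Fin p) :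
    vd e (Sum.elim u (fun a => v (σ a))) = ((Equiv.Perm.sign σ : ℤ) : ZMod p) *
      vd e (Sum.elim u v) := by
  have h := vd_perm e (Sum.elim u v) (Equiv.sumCongr (Equiv.refl A) σ)
  rw [Equiv.Perm.sign_sumCongr] at h
  have h1 : (Equiv.Perm.sign (Equiv.refl A)) = 1 := Equiv.Perm.sign_refl
  rw [h1, one_mul] at h
  rw [← h]
  congr 1
  funext x
  rcases x with x | x <;> rfl

lemma sign_sq {α : Type*} [Fintype α] [DecidableEq α] (σ : Equiv.Perm α) :
    ((Equiv.Perm.sign σ : ℤ) : ZMod p) * ((Equiv.Perm.sign σ : ℤ) : ZMod p) = 1 := by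
  rcases Int.units_eq_one_or (Equiv.Perm.sign σ) with h | h <;> rw [h] <;> simp

/-- the common square of the non-zero Vandermonde determinants. -/
def del2 (e : A ⊕ B ≃ Fin p) : ZMod p :=
  vd e (fun a => ((e a : ℕ) : ZMod p)) * vd e (fun a => ((e a : ℕ) : ZMod p))

lemma base_inj (e : A ⊕ B ≃ Fin p) :
    Function.Injective (fun a => ((e a : ℕ) : ZMod p)) := by
  intro a b h
  apply e.injective
  exact Fin.ext (cast_inj (e a).isLt (e b).isLt h)

lemma del2_ne_zero (e : A ⊕ B ≃ Fin p) : del2 e ≠ 0 :=
  mul_ne_zero ((vd_ne_zero_iff e _).mpr (base_inj e)) ((vd_ne_zero_iff e _).mpr (base_inj e))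

lemma vd_sq (e : A ⊕ B ≃ Fin p) (u : A ⊕ B → ZMod p) (h : Function.Injective u) :
    vd e u * vd e u = del2 e := by
  have hc : Fintype.card (A ⊕ B) = Fintype.card (ZMod p) := by
    rw [ZMod.card, Fintype.card_congr e, Fintype.card_fin]
  have hb : Function.Bijective (fun a => ((e a : ℕ) : ZMod p)) :=
    (Fintype.bijective_iff_injective_and_card _).mpr ⟨base_inj e, hc⟩
  have hb' : Function.Bijective u :=
    (Fintype.bijective_iff_injective_and_card _).mpr ⟨h, hc⟩
  let σ : Equiv.Perm (A ⊕ B) := (Equiv.ofBijective u hb').trans (Equiv.ofBijective _ hb).symm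
  have h1 : u = fun a => (fun a => ((e a : ℕ) : ZMod p)) (σ a) := by
    funext a
    have := (Equiv.ofBijective _ hb).apply_symm_apply (u a)
    exact this.symm
  have h2 : vd e u = ((Equiv.Perm.sign σ : ℤ) : ZMod p) * vd e (fun a => ((e a : ℕ) : ZMod p)) := by
    rw [← vd_perm]
    exact congrArg (vd e) h1
  rw [h2]
  unfold del2
  have := sign_sq (p := p) σ
  linear_combination (vd e (fun a => ((e a : ℕ) : ZMod p)) * vd e (fun a => ((e a : ℕ) : ZMod p))) *
    this

lemma sum_sq (e : A ⊕ B ≃ Fin p) (y : B → ZMod p) (hy : Function.Injective y) :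
    ∑ x : A → ZMod p, vd e (Sum.elim x y) * vd e (Sum.elim x y)
      = ((Fintype.card A).factorial : ZMod p) * del2 e := by
  have hc : Fintype.card A + Fintype.card B = Fintype.card (ZMod p) := by
    rw [ZMod.card, ← Fintype.card_sum, Fintype.card_congr e, Fintype.card_fin]
  obtain ⟨u, hu⟩ := compl_exists hc y hy
  rw [← Finset.sum_of_injOn (s := (univ : Finset (Equiv.Perm A))) (f := fun _ => del2 e)
    (fun σ a => u (σ a))]
  · rw [Finset.sum_const, Finset.card_univ, Fintype.card_perm, nsmul_eq_mul]
  · intro σ _ σ' _ h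
    apply Equiv.ext
    intro a
    have h1 : Sum.elim u y (Sum.inl (σ a)) = Sum.elim u y (Sum.inl (σ' a)) := congrFun h a
    simpa using hu h1
  · intro _ _
    simp
  · intro x _ hx
    have : vd e (Sum.elim x y) = 0 := by
      apply vd_eq_zero
      intro hinj
      obtain ⟨σ, hσ⟩ := compl_left hc u x y hu hinj
      exact hx ⟨σ, by simp, hσ.symm⟩
    rw [this, zero_mul]
  · intro σ _
    rw [elim_perm_left]
    have h1 := sign_sq (p := p) σ
    have h2 := vd_sq e (Sum.elim u y) hu
    linear_combination (-(vd e (Sum.elim u y)) * vd e (Sum.elim u y)) * h1 - h2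

/-- integrating out the two zero-shift families. -/
theorem elimination (e : A ⊕ B ≃ Fin p) (y1 : B → ZMod p) (y2 : A → ZMod p) :
    ∑ xA : A → ZMod p, ∑ xB : B → ZMod p,
      vd e (Sum.elim xA xB) * vd e (Sum.elim xA y1) * vd e (Sum.elim y2 xB)
      = ((Fintype.card A).factorial : ZMod p) * ((Fintype.card B).factorial : ZMod p) * del2 e *
        vd e (Sum.elim y2 y1) := by
  have hc : Fintype.card A + Fintype.card B = Fintype.card (ZMod p) := by
    rw [ZMod.card, ← Fintype.card_sum, Fintype.card_congr e, Fintype.card_fin]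
  by_cases hy : Function.Injective y1
  · rw [Finset.sum_comm]
    rw [← Finset.sum_of_injOn (s := (univ : Finset (Equiv.Perm B)))
      (f := fun _ => ((Fintype.card A).factorial : ZMod p) * del2 e * vd e (Sum.elim y2 y1))
      (fun σ b => y1 (σ b))]
    · rw [Finset.sum_const, Finset.card_univ, Fintype.card_perm, nsmul_eq_mul]
      ring
    · intro σ _ σ' _ h
      apply Equiv.ext
      intro b
      exact hy (congrFun h b)
    · intro _ _
      simp
    · intro xB _ hxB
      apply Finset.sum_eq_zero
      intro xA _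
      by_cases h1 : Function.Injective (Sum.elim xA xB)
      · by_cases h2 : Function.Injective (Sum.elim xA y1)
        · exfalso
          obtain ⟨σ, hσ⟩ := compl_right hc xA y1 xB h2 h1
          exact hxB ⟨σ, by simp, hσ.symm⟩
        · rw [vd_eq_zero e _ h2]
          ring
      · rw [vd_eq_zero e _ h1]
        ring
    · intro σ _
      rw [← sum_sq e y1 hy, Finset.sum_mul]
      refine Finset.sum_congr rfl ?_
      intro xA _
      rw [elim_perm_right, elim_perm_right]
      have h1 := sign_sq (p := p) σ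
      linear_combination (-(vd e (Sum.elim xA y1) * vd e (Sum.elim xA y1) *
        vd e (Sum.elim y2 y1))) * h1
  · have h0 : vd e (Sum.elim y2 y1) = 0 := by
      apply vd_eq_zero
      intro h
      apply hy
      intro b b' hbb
      have h1 : Sum.elim y2 y1 (Sum.inr b) = Sum.elim y2 y1 (Sum.inr b') := hbb
      simpa using h h1
    rw [h0, mul_zero]
    apply Finset.sum_eq_zero
    intro xA _
    apply Finset.sum_eq_zero
    intro xB _
    have h2 : vd e (Sum.elim xA y1) = 0 := by
      apply vd_eq_zero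
      intro h
      apply hy
      intro b b' hbb
      have h1 : Sum.elim xA y1 (Sum.inr b) = Sum.elim xA y1 (Sum.inr b') := hbb
      simpa using h h1
    rw [h2]
    ring

end Elim

end Pool.Agent.Helper90.NF
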