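import Pool.Agent.Helper90.NF.Frame

/-!
Vandermonde determinants indexed by a finite type, products of them, and the sum over all
placements.
-/

set_option autoImplicit false
set_option linter.unusedSectionVars false
set_option linter.unusedDecidableInType false

open Finset

namespace Pool.Agent.Helper90.NF

section VdSec

variable {α : Type*} {N : ℕ} {F : Type*} [Field F]

/-- the Vandermonde determinant of a family indexed by `α`. -/
def vd (e : α ≃ Fin N) (u : α → F) : F := (Matrix.vandermonde (fun k => u (e.symm k))).det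

lemma vd_ne_zero_iff (e : α ≃ Fin N) (u : α → F) : vd e u ≠ 0 ↔ Function.Injective u := by
  unfold vd
  rw [Matrix.det_vandermonde_ne_zero_iff]
  constructor
  · intro h a b hab
    have := @h (e a) (e b) (by simpa using hab)
    exact e.injective this
  · intro h a b hab
    exact e.symm.injective (h hab)

lemma vd_eq_zero (e : α ≃ Fin N) (u : α → F) (h : ¬ Function.Injective u) : vd e u = 0 := by
  by_contra hne
  exact h ((vd_ne_zero_iff e u).mp hne)

lemma vd_add (e : α ≃ Fin N) (u : α → F) (a : F) : vd e (fun r => u r + a) = vd e u := by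
  unfold vd
  exact Matrix.det_vandermonde_add (fun k => u (e.symm k)) a

lemma vd_perm [Fintype α] [DecidableEq α] (e : α ≃ Fin N) (u : α → F) (σ : Equiv.Perm α) :
    vd e (fun r => u (σ r)) = ((Equiv.Perm.sign σ : ℤ) : F) * vd e u := by
  unfold vd
  have h := Matrix.det_permute (e.permCongr σ) (Matrix.vandermonde (fun k => u (e.symm k)))
  rw [Equiv.Perm.sign_permCongr] at h
  rw [← h]
  congr 1
  ext i j
  simp [Matrix.vandermonde_apply, Matrix.submatrix_apply, Equiv.permCongr_apply]

lemma vd_expand [Fintype α] [DecidableEq α] (e : α ≃ Fin N) (u : α → F) :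
    vd e u = ∑ τ : Equiv.Perm (Fin N), ((Equiv.Perm.sign τ : ℤ) : F) *
      ∏ a, u a ^ (τ (e a) : ℕ) := by
  unfold vd
  rw [← Matrix.det_transpose, Matrix.det_apply']
  refine Finset.sum_congr rfl ?_
  intro τ _
  congr 1
  rw [← Equiv.prod_comp e]
  refine Finset.prod_congr rfl ?_
  intro a _
  simp [Matrix.transpose_apply, Matrix.vandermonde_apply]

lemma vd_congr (e : α ≃ Fin N) {β : Type*} (g : β ≃ α) (u : α → F) :
    vd (g.trans e) (fun b => u (g b)) = vd e u := by
  unfold vd
  congr 2
  funext k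
  simp

end VdSec

section DSec

variable {p : ℕ} [hp : Fact p.Prime] {R α κ : Type*} [Fintype R] [DecidableEq R] [Fintype α]
  [DecidableEq α] [Fintype κ] [DecidableEq κ]

/-- product of Vandermonde determinants over the classes. -/
def DD (S : R ≃ α × κ) (e : α ≃ Fin p) (u : R → ZMod p) : ZMod p :=
  ∏ c : κ, vd e (fun a => u (S.symm (a, c)))

/-- exponents in the expansion. -/
def kD (S : R ≃ α × κ) (e : α ≃ Fin p) (τ : κ → Equiv.Perm (Fin p)) (r : R) : ℕ :=
  (τ (S r).2 (e (S r).1) : ℕ)

/-- coefficients in the expansion. -/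
def cD (p : ℕ) (κ : Type*) [Fintype κ] (τ : κ → Equiv.Perm (Fin p)) : ZMod p :=
  ∏ c, ((Equiv.Perm.sign (τ c) : ℤ) : ZMod p)

lemma DD_expand (S : R ≃ α × κ) (e : α ≃ Fin p) (u : R → ZMod p) :
    DD S e u = ∑ τ : κ → Equiv.Perm (Fin p), cD p κ τ * ∏ r, u r ^ kD S e τ r := by
  unfold DD
  simp_rw [vd_expand]
  rw [Finset.prod_univ_sum, Fintype.piFinset_univ]
  refine Finset.sum_congr rfl ?_
  intro τ _
  rw [Finset.prod_mul_distrib]
  congr 1
  rw [← Equiv.prod_comp S.symm, Fintype.prod_prod_type_right]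
  refine Finset.prod_congr rfl ?_
  intro c _
  refine Finset.prod_congr rfl ?_
  intro a _
  simp [kD]

lemma kD_lt (S : R ≃ α × κ) (e : α ≃ Fin p) (τ : κ → Equiv.Perm (Fin p)) (r : R) :
    kD S e τ r < p := (τ (S r).2 (e (S r).1)).isLt

lemma kD_sum (S : R ≃ α × κ) (e : α ≃ Fin p) (τ : κ → Equiv.Perm (Fin p)) :
    ∑ r, kD S e τ r = Fintype.card κ * (p * (p - 1) / 2) := by
  rw [← Equiv.sum_comp S.symm, Fintype.sum_prod_type_right]
  have h : ∀ c : κ, ∑ a : α, kD S e τ (S.symm (a, c)) = p * (p - 1) / 2 := by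
    intro c
    unfold kD
    simp only [Equiv.apply_symm_apply]
    rw [Equiv.sum_comp e (fun k => ((τ c) k : ℕ)), Equiv.sum_comp (τ c) (fun k => (k : ℕ)),
      Fin.sum_univ_eq_sum_range (fun k => k) p, Finset.sum_range_id]
  simp_rw [h]
  rw [Finset.sum_const, Finset.card_univ, smul_eq_mul]

omit [Fintype R] [DecidableEq R] in
lemma DD_inj (S : R ≃ α × κ) (e : α ≃ Fin p) (u : R → ZMod p) (h : DD S e u ≠ 0) :
    Function.Injective (fun r => ((S r).2, u r)) := by
  unfold DD at h
  rw [Finset.prod_ne_zero_iff] at h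
  intro r r' hrr
  have h1 := (Prod.ext_iff.mp hrr).1
  have h2 := (Prod.ext_iff.mp hrr).2
  simp only at h1 h2
  have h3 := (vd_ne_zero_iff e _).mp (h (S r).2 (Finset.mem_univ _))
  have h4 : (S r).1 = (S r').1 := by
    apply h3
    simp only
    have e1 : ((S r).1, (S r).2) = S r := rfl
    have e2 : ((S r').1, (S r).2) = S r' := by rw [h1]
    rw [e1, e2]
    simpa using h2
  exact S.injective (Prod.ext h4 h1)

end DSec

section QSec

variable {p : ℕ} [hp : Fact p.Prime] {ι α κ : Type*} [Fintype ι] [DecidableEq ι] [Fintype α]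
  [DecidableEq α] [Fintype κ] [DecidableEq κ]

/-- the sum over all placements, one special point at `0`. -/
def QQ (S : (ι × Bool) ⊕ Unit ≃ α × κ) (e : α ≃ Fin p) (f : ι → ZMod p) : ZMod p :=
  ∑ x : ι → ZMod p, DD S e (pos x (fun _ => 0) f)

lemma QQ_eq (S : (ι × Bool) ⊕ Unit ≃ α × κ) (e : α ≃ Fin p) (f : ι → ZMod p) :
    Qs (fun (_ : Unit) (y : ZMod p) => if y = 0 then 1 else 0) (cD p κ) (kD S e) f
      = QQ S e f := by
  unfold Qs QQ
  refine Finset.sum_congr rfl ?_
  intro x _
  rw [Finset.sum_eq_single (fun _ => (0 : ZMod p))]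
  · simp only [if_true, Finset.prod_const_one, one_mul]
    exact (DD_expand S e _).symm
  · intro z _ hz
    have : z () ≠ 0 := by
      intro h
      apply hz
      funext u
      exact h
    rw [Finset.prod_eq_zero (Finset.mem_univ ())]
    · rw [zero_mul]
    · exact if_neg this
  · intro h
    exact absurd (Finset.mem_univ _) h

/-- sums of products of Vandermonde determinants are multilinear forms of degree `(p-1)/2`, if
they vanish for all shift vectors with fewer than `(p-1)/2` non-zero entries. -/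
theorem QQ_multilinear (S : (ι × Bool) ⊕ Unit ≃ α × κ) (e : α ≃ Fin p) {s : ℕ} (hs : 0 < s)
    (hps : p = 2 * s + 1)
    (hv : ∀ f : ι → ZMod p, (univ.filter fun i => f i ≠ 0).card < s → QQ S e f = 0)
    (f : ι → ZMod p) :
    QQ S e f = ∑ ε : ι → Bool, if cnt ε = s then QQ S e (ind p ε) * mon ε f else 0 := by
  have hcard : 2 * Fintype.card ι + 1 = p * Fintype.card κ := by
    have h1 := Fintype.card_congr S
    rw [Fintype.card_sum, Fintype.card_prod, Fintype.card_prod, Fintype.card_congr e,
      Fintype.card_fin, Fintype.card_bool, Fintype.card_unit] at h1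
    omega
  have hN : ∀ τ : κ → Equiv.Perm (Fin p), cD p κ τ ≠ 0 → ∑ r, kD S e τ r
      = ∑ w : Unit, (fun _ => 0) w + (Fintype.card ι * (p - 1) + s) := by
    intro τ _
    rw [kD_sum]
    have h2 : p * (p - 1) / 2 = p * s := by
      rw [hps]
      have : (2 * s + 1) * (2 * s + 1 - 1) = 2 * ((2 * s + 1) * s) := by
        rw [Nat.add_sub_cancel]; ring
      rw [this, Nat.mul_div_cancel_left _ (by norm_num)]
    rw [h2]
    have h3 : p - 1 = 2 * s := by omega
    rw [h3]
    simp only [Finset.sum_const_zero, zero_add]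
    have h4 : Fintype.card κ * (p * s) = (2 * Fintype.card ι + 1) * s := by
      rw [hcard]; ring
    rw [h4]
    ring
  have hν : ∀ (w : Unit) (m : ℕ), m < p →
      ∑ y : ZMod p, (fun (_ : Unit) (y : ZMod p) => if y = 0 then (1 : ZMod p) else 0) w y * y ^ m
        = if m = (fun _ => 0) w then (fun (_ : Unit) => (1 : ZMod p)) w else 0 := by
    intro _ m _
    simp only [ite_mul, one_mul, zero_mul]
    rw [Finset.sum_ite_eq' univ (0 : ZMod p) (fun y => y ^ m), if_pos (Finset.mem_univ _)]
    split_ifs with h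
    · rw [h, pow_zero]
    · rw [zero_pow h]
  have hev : ∀ f : ι → ZMod p, MvPolynomial.eval f (Pol (fun _ => 0) (fun (_ : Unit) => 1)
      (cD p κ) (kD S e)) = QQ S e f := by
    intro f
    rw [eval_Pol (kD_lt S e) hN (by omega) hν, QQ_eq]
  have h := multilinear (Pol (fun _ => 0) (fun (_ : Unit) => (1 : ZMod p)) (cD p κ) (kD S e)) s
    (by omega) (fun m hm => support_Pol hN hm) (fun f hf => by rw [hev]; exact hv f hf) f
  rw [hev] at h
  rw [h]
  simp_rw [hev]

/-- the lift of a permutation of the edges to the slots has sign `1`. -/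
def hat (σ : Equiv.Perm ι) : Equiv.Perm ((ι × Bool) ⊕ Unit) :=
  Equiv.sumCongr (Equiv.prodCongr σ (Equiv.refl Bool)) (Equiv.refl Unit)

lemma sign_hat (σ : Equiv.Perm ι) : Equiv.Perm.sign (hat σ) = 1 := by
  unfold hat
  rw [Equiv.Perm.sign_sumCongr]
  have h1 : Equiv.prodCongr σ (Equiv.refl Bool) = Equiv.prodCongrLeft (fun _ : Bool => σ) := by
    ext x <;> rfl
  rw [h1, Equiv.Perm.sign_prodCongrLeft, Fintype.prod_bool, Int.units_mul_self]
  rw [one_mul]
  exact Equiv.Perm.sign_refl

lemma pos_hat (σ : Equiv.Perm ι) (x f : ι → ZMod p) (r : (ι × Bool) ⊕ Unit) :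
    pos (fun i => x (σ i)) (fun _ => 0) (fun i => f (σ i)) r
      = pos x (fun _ => 0) f (hat σ r) := by
  rcases r with ⟨i, b⟩ | u
  · cases b <;> rfl
  · rfl

end QSec

end Pool.Agent.Helper90.NF
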